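import Pool.Agent.W707.FE.Cor

/-! Consequences of the expansion in the form of the questions. -/

set_option autoImplicit false

namespace Pool.Agent.W707.FE.Cor

open Filter Finset EvenVol Pool.Agent.H112R4.VL Pool.Agent.W709.VC Pool.Agent.W707.FE
open scoped Real Topology

lemma exists_crit {A : ℕ} (hA : 4 ≤ A) : ∃ α b η, Crit ((A : ℝ) / 2) α b η :=
  Pool.Agent.W704.VC.Crit.crit ((A : ℝ) / 2) (by
    have : (4 : ℝ) ≤ A := by exact_mod_cast hA
    linarith)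

/-- ratios of values at distance `2` -/
theorem main_odd {A : ℕ} (hA : 4 ≤ A) : ∃ (κ : ℕ → ℂ) (V : ℝ),
    (∀ N : ℕ, 2 ≤ N → Tendsto (JD (A : ℤ) (-(A : ℤ)) N) (𝓝[≠] (v0 N)) (𝓝 (κ N))) ∧
    IsGreatest {W : ℝ | ∃ w, IsAngle A A w ∧ volw A A w = W} V ∧
    ∃ C : ℝ, ∀ᶠ n : ℕ in atTop, κ n ≠ 0 ∧
      ‖π * Complex.log (κ (n + 2) / κ n) - (V + 3 * π / n)‖ ≤ C / (n : ℝ) ^ 2 := by
  have hp := Real.pi_pos
  obtain ⟨α, b, η, hC⟩ := exists_crit hA
  obtain ⟨C, h⟩ := ratio_expansion hA hC 2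
  set V := pot ((A : ℝ) / 2) α b η with hV
  refine ⟨fun N => ((kap A N : ℝ) : ℂ), V, fun N hN => jd_limit s_gam A hN, s_greatest hA hC,
    π * C, ?_⟩
  filter_upwards [h, (tendsto_add_atTop_nat 2).eventually h, eventually_gt_atTop 0] with n h1 h2 hn
  have hnp : (0 : ℝ) < n := by exact_mod_cast hn
  refine ⟨by exact_mod_cast h1.1.ne', ?_⟩
  have e1 : ((kap A (n + 2) : ℝ) : ℂ) / ((kap A n : ℝ) : ℂ) =
      ((kap A (n + 2) / kap A n : ℝ) : ℂ) := by push_cast; rfl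
  have h3 : 0 < kap A (n + 2) / kap A n := div_pos h2.1 h1.1
  simp only [e1]
  rw [← Complex.ofReal_log h3.le]
  have e2 : (π : ℂ) * ((Real.log (kap A (n + 2) / kap A n) : ℝ) : ℂ) - (V + 3 * π / n) =
      ((π * (Real.log (kap A (n + 2) / kap A n) - (((2 : ℕ) : ℝ) * (V / (2 * π)) +
        3 * ((2 : ℕ) : ℝ) / (2 * n))) : ℝ) : ℂ) := by
    have hpc : (π : ℂ) ≠ 0 := by exact_mod_cast hp.ne'
    have hnc : (n : ℂ) ≠ 0 := by exact_mod_cast hn.ne'
    push_cast
    field_simp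
  rw [e2, Complex.norm_real, Real.norm_eq_abs, abs_mul, abs_of_pos hp]
  calc _ ≤ π * (C / (n : ℝ) ^ 2) := mul_le_mul_of_nonneg_left h1.2 hp.le
    _ = _ := by ring

/-- the logarithm, with the correction terms -/
theorem main_even {A : ℕ} (hA : 4 ≤ A) : ∃ (κ : ℕ → ℂ) (V c : ℝ),
    (∀ N : ℕ, 2 ≤ N → Tendsto (JD (A : ℤ) (-(A : ℤ)) N) (𝓝[≠] (v0 N)) (𝓝 (κ N))) ∧
    IsGreatest {W : ℝ | ∃ w, IsAngle A A w ∧ volw A A w = W} V ∧
    ∃ C : ℝ, ∀ᶠ n : ℕ in atTop, κ n ≠ 0 ∧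
      ‖2 * π / n * Complex.log (κ n) - (V + 3 * π * Real.log n / n + c / n)‖ ≤
        C / (n : ℝ) ^ 2 := by
  have hp := Real.pi_pos
  obtain ⟨α, b, η, hC⟩ := exists_crit hA
  obtain ⟨c₀, c₁, C, hC0, h⟩ := log_expansion hA hC
  set V := pot ((A : ℝ) / 2) α b η with hV
  refine ⟨fun N => ((kap A N : ℝ) : ℂ), V, 2 * π * c₀, fun N hN => jd_limit s_gam A hN,
    s_greatest hA hC, 2 * π * C + 2 * π * |c₁|, ?_⟩
  filter_upwards [h, eventually_gt_atTop 0] with n h1 hn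
  have hnp : (0 : ℝ) < n := by exact_mod_cast hn
  have hn1 : (1 : ℝ) ≤ n := by exact_mod_cast hn
  refine ⟨by exact_mod_cast h1.1.ne', ?_⟩
  rw [← Complex.ofReal_log h1.1.le]
  have e2 : 2 * (π : ℂ) / n * ((Real.log (kap A n) : ℝ) : ℂ) - (V + 3 * π * Real.log n / n +
      ((2 * π * c₀ : ℝ) : ℂ) / n) =
      ((2 * π / n * (Real.log (kap A n) - (V / (2 * π) * n + 3 / 2 * Real.log n + c₀ + c₁ / n)) +
        2 * π * c₁ / n ^ 2 : ℝ) : ℂ) := by
    have hpc : (π : ℂ) ≠ 0 := by exact_mod_cast hp.ne'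
    have hnc : (n : ℂ) ≠ 0 := by exact_mod_cast hn.ne'
    push_cast
    field_simp
    ring
  rw [e2, Complex.norm_real, Real.norm_eq_abs]
  refine (abs_add_le _ _).trans ?_
  rw [abs_mul, abs_of_pos (show (0:ℝ) < 2 * π / n by positivity), abs_div, abs_mul,
    abs_of_pos (show (0:ℝ) < 2 * π by positivity), abs_of_pos (show (0:ℝ) < (n:ℝ) ^ 2 by positivity)]
  have h2 : 2 * π / n * |Real.log (kap A n) - (V / (2 * π) * n + 3 / 2 * Real.log n + c₀ + c₁ / n)| ≤
      2 * π * C / (n : ℝ) ^ 2 := by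
    calc _ ≤ 2 * π / n * (C / (n : ℝ) ^ 2) := mul_le_mul_of_nonneg_left h1.2 (by positivity)
      _ = 2 * π * C / (n : ℝ) ^ 2 * (1 / n) := by ring
      _ ≤ 2 * π * C / (n : ℝ) ^ 2 * 1 := by
          apply mul_le_mul_of_nonneg_left _ (by positivity)
          rw [div_le_one hnp]
          exact hn1
      _ = _ := mul_one _
  calc _ ≤ 2 * π * C / (n : ℝ) ^ 2 + 2 * π * |c₁| / (n : ℝ) ^ 2 := by linarith
    _ = _ := by ring

/-- modulus and ratio -/
theorem main_ratio {A : ℕ} (hA : 4 ≤ A) : ∃ (κ : ℕ → ℂ) (V : ℝ),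
    (∀ N : ℕ, 2 ≤ N → Tendsto (JD (A : ℤ) (-(A : ℤ)) N) (𝓝[≠] (v0 N)) (𝓝 (κ N))) ∧
    IsGreatest {W : ℝ | ∃ w, IsAngle A A w ∧ volw A A w = W} V ∧
    (∀ᶠ N : ℕ in atTop, κ N ≠ 0) ∧
    Tendsto (fun N : ℕ => 2 * π * (Real.log ‖κ N‖ / N)) atTop (𝓝 V) ∧
    Tendsto (fun N : ℕ => κ (N + 1) / κ N) atTop (𝓝 (Complex.exp (V / (2 * π)))) ∧
    ∃ c : ℝ, 0 < c ∧ Tendsto (fun N : ℕ => κ N / (((N : ℝ) ^ (3 / 2 : ℝ) : ℝ) *
      Complex.exp (V / (2 * π) * N))) atTop (𝓝 c) := by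
  have hp := Real.pi_pos
  obtain ⟨α, b, η, hC⟩ := exists_crit hA
  obtain ⟨C, h⟩ := ratio_expansion hA hC 1
  obtain ⟨a, ha0, ha⟩ := Fin.expansion hA hC
  set V := pot ((A : ℝ) / 2) α b η with hV
  refine ⟨fun N => ((kap A N : ℝ) : ℂ), V, fun N hN => jd_limit s_gam A hN, s_greatest hA hC,
    ?_, ?_, ?_, a 0, ha0, ?_⟩
  · filter_upwards [h] with N hN
    exact_mod_cast hN.1.ne'
  · refine (growth hA hC).congr (fun N => ?_)
    have h4 : ‖((kap A N : ℝ) : ℂ)‖ = kap A N := by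
      rw [Complex.norm_real, Real.norm_eq_abs, abs_of_nonneg]
      exact Finset.sum_nonneg (fun n _ => by positivity)
    rw [h4]
    ring
  · have h1 : Tendsto (fun N : ℕ => Real.log (kap A (N + 1) / kap A N)) atTop
        (𝓝 (V / (2 * π))) := by
      have h2 : Tendsto (fun N : ℕ => 3 * ((1 : ℕ) : ℝ) / (2 * N) + C / (N : ℝ) ^ 2) atTop (𝓝 0) := by
        have t1 : Tendsto (fun N : ℕ => (3 / 2 : ℝ) / N) atTop (𝓝 0) :=
          tendsto_const_div_atTop_nhds_zero_nat _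
        have t2 : Tendsto (fun N : ℕ => C / N * (1 / (N : ℝ))) atTop (𝓝 (0 * 0)) :=
          (tendsto_const_div_atTop_nhds_zero_nat _).mul tendsto_one_div_atTop_nhds_zero_nat
        have t3 := t1.add t2
        simp only [mul_zero, add_zero] at t3
        refine t3.congr (fun N => ?_)
        push_cast
        ring
      rw [tendsto_iff_norm_sub_tendsto_zero]
      refine squeeze_zero' (Eventually.of_forall fun N => norm_nonneg _) ?_ h2
      filter_upwards [h, eventually_gt_atTop 0] with N hN hN0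
      have hNp : (0 : ℝ) < N := by exact_mod_cast hN0
      have h3 := hN.2
      rw [Real.norm_eq_abs]
      have e : Real.log (kap A (N + 1) / kap A N) - V / (2 * π) =
          (Real.log (kap A (N + 1) / kap A N) - (((1 : ℕ) : ℝ) * (V / (2 * π)) +
            3 * ((1 : ℕ) : ℝ) / (2 * N))) + 3 * ((1 : ℕ) : ℝ) / (2 * N) := by
        push_cast
        ring
      rw [e]
      refine (abs_add_le _ _).trans ?_
      have : |3 * ((1 : ℕ) : ℝ) / (2 * N)| = 3 * ((1 : ℕ) : ℝ) / (2 * N) :=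
        abs_of_nonneg (by positivity)
      rw [this]
      linarith
    have h2 : Tendsto (fun N : ℕ => kap A (N + 1) / kap A N) atTop
        (𝓝 (Real.exp (V / (2 * π)))) := by
      have h3 := (Real.continuous_exp.tendsto _).comp h1
      refine h3.congr' ?_
      filter_upwards [h, (tendsto_add_atTop_nat 1).eventually h] with N h4 h5
      exact Real.exp_log (div_pos h5.1 h4.1)
    have h3 := (Complex.continuous_ofReal.tendsto _).comp h2
    have e : ((Real.exp (V / (2 * π)) : ℝ) : ℂ) = Complex.exp (V / (2 * π)) := by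
      push_cast
      rfl
    rw [e] at h3
    refine h3.congr (fun N => ?_)
    simp
  · obtain ⟨C', hC'⟩ := ha 1
    have h1 : Tendsto (fun N : ℕ => Fin.fNorm A V N) atTop (𝓝 (a 0)) := by
      rw [tendsto_iff_norm_sub_tendsto_zero]
      have t1 : Tendsto (fun N : ℕ => C' * ((N : ℝ)⁻¹) ^ 1) atTop (𝓝 0) := by
        have := (tendsto_inv_atTop_zero.comp (tendsto_natCast_atTop_atTop (R := ℝ))).const_mul C'
        simpa using this
      refine squeeze_zero' (Eventually.of_forall fun N => norm_nonneg _) ?_ t1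
      filter_upwards [hC'] with N hN
      simpa using hN
    have h2 := (Complex.continuous_ofReal.tendsto _).comp h1
    refine h2.congr' ?_
    filter_upwards [eventually_gt_atTop 0] with N hN0
    have hNp : (0 : ℝ) < N := by exact_mod_cast hN0
    have e1 : (N : ℝ) ^ (3 / 2 : ℝ) = N * Real.sqrt N := by
      have : (3 / 2 : ℝ) = 1 + 1 / 2 := by norm_num
      rw [this, Real.rpow_add hNp, Real.rpow_one, ← Real.sqrt_eq_rpow]
    have e2 : Complex.exp (V / (2 * π) * N) =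
        ((Real.exp ((N : ℝ) / (2 * π) * V) : ℝ) : ℂ) := by
      push_cast
      congr 1
      ring
    simp only [Function.comp_apply]
    unfold Fin.fNorm
    rw [e1, e2]
    push_cast
    rfl

end Pool.Agent.W707.FE.Cor
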