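import Mathlib

/-!
# Full asymptotic expansion: general statements (Mathlib only)

Pieces for the expansion to all orders of the Kashaev invariant of the double twist knots.
-/

set_option autoImplicit false

namespace Pool.Agent.W707.FE

open Filter MeasureTheory
open scoped Real Topology Nat

/-- Euler-Maclaurin summation for holomorphic functions, with shift `θ`. -/
def S_EM : Prop := ∀ θ : ℝ, 0 ≤ θ → θ ≤ 1 → ∃ b : ℕ → ℝ, ∀ K : ℕ, ∃ C : ℝ, 0 ≤ C ∧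
  ∀ (F : ℂ → ℂ) (z : ℂ) (n : ℕ) (ε σ B : ℝ), 0 < ε → 4 * ε ≤ σ →
    (∀ x : ℝ, 0 ≤ x → x ≤ n * ε → ∀ w : ℂ, ‖w - (z + x)‖ < σ →
      DifferentiableAt ℂ F w ∧ ‖F w‖ ≤ B) →
    ‖(∑ j ∈ Finset.range n, F (z + ε * (j + θ))) -
      (ε : ℂ)⁻¹ * (∫ x in (0:ℝ)..(n * ε), F (z + x)) -
      ∑ k ∈ Finset.range K, (b k : ℂ) * (ε : ℂ) ^ k *
        (iteratedDeriv k F (z + n * ε) - iteratedDeriv k F z)‖ ≤ C * (n * B * (ε / σ) ^ (K + 1))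

/-- A sum over lattice points against an integral, for holomorphic functions with a Gaussian
bound in a thin strip. -/
def S_LAT : Prop := ∀ (α₀ ρ c : ℝ), 0 < ρ → 2 * ρ ≤ α₀ → 0 < c → ∀ K : ℕ, ∃ C ε₀ : ℝ, 0 < ε₀ ∧
  ∀ (F : ℂ → ℂ) (ε M : ℝ) (s : Finset ℕ), 0 < ε → ε ≤ ε₀ → 0 ≤ M →
    (∀ d : ℕ, d ∈ s ↔ |ε * d - α₀| ≤ ρ) →
    (∀ x y : ℝ, |x - α₀| < 2 * ρ → |y| < Real.sqrt ε →
      DifferentiableAt ℂ F (x + y * Complex.I) ∧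
      ‖F (x + y * Complex.I)‖ ≤ M * Real.exp (-c * (x - α₀) ^ 2 / ε)) →
    ‖(∑ d ∈ s, F ((ε * d : ℝ) : ℂ)) - (ε : ℂ)⁻¹ * ∫ x in (α₀ - ρ)..(α₀ + ρ), F x‖ ≤
      C * M * ε ^ K

/-- Expansion in a small parameter of the integral of a family that is holomorphic in the
parameter on discs of radius `r / w t`. -/
def S_LAP : Prop := ∀ (X : Type) [MeasurableSpace X] (μ : Measure X) (w D : X → ℝ)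
  (E : ℂ → X → ℂ) (r ρ : ℝ), 0 < r → 0 < ρ → Measurable w → (∀ t, 1 ≤ w t) →
  (∀ J : ℕ, Integrable (fun t => D t * w t ^ J) μ) →
  (∀ ν : ℝ, 0 < ν → AEStronglyMeasurable (E ν) (μ.restrict {t | ν * w t < r})) →
  (∀ t, DifferentiableOn ℂ (fun z => E z t) (Metric.ball 0 (r / w t))) →
  (∀ t z, ‖z‖ < r / w t → ‖E z t‖ ≤ D t) →
  ∀ J : ℕ, ∃ C : ℝ, ∀ (ν : ℝ) (S : Set X), 0 < ν → MeasurableSet S →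
    (∀ t ∈ S, ν * w t ≤ r / 2) → (∀ t, t ∉ S → ρ ≤ ν * w t) →
    ‖(∫ t in S, E ν t ∂μ) - ∑ j ∈ Finset.range J, (ν : ℂ) ^ j *
      ∫ t, iteratedDeriv j (fun z => E z t) 0 / (j ! : ℂ) ∂μ‖ ≤ C * ν ^ J

/-- Laplace's method to all orders for a sum over one variable and an integral over two, at a
nondegenerate critical point. -/
def S_AT : Prop := ∀ (W : ℂ × ℂ × ℂ → ℂ) (α₀ : ℝ) (ψ₀ χ₀ : ℂ) (r c : ℝ), 0 < r → r ≤ α₀ →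
  α₀ + r ≤ π → 0 < c →
  DifferentiableOn ℂ W (Metric.ball ((α₀ : ℂ), ψ₀, χ₀) r) →
  HasFDerivAt W (0 : ℂ × ℂ × ℂ →L[ℂ] ℂ) ((α₀ : ℂ), ψ₀, χ₀) →
  (∀ s x y : ℝ, |s| < r → |x| < r → |y| < r →
    (W ((α₀ : ℂ) + s, ψ₀ + x, χ₀ + y)).re ≤ (W ((α₀ : ℂ), ψ₀, χ₀)).re -
      c * (s ^ 2 + x ^ 2 + y ^ 2)) →
  ∃ ρ₀ : ℝ, 0 < ρ₀ ∧ ∀ ρ : ℝ, 0 < ρ → ρ ≤ ρ₀ → ∀ H : ℂ × ℂ × ℂ × ℂ → ℂ,
    DifferentiableOn ℂ H (Metric.ball ((0 : ℂ), (α₀ : ℂ), ψ₀, χ₀) r) →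
    (∃ B : ℝ, ∀ p ∈ Metric.ball ((0 : ℂ), (α₀ : ℂ), ψ₀, χ₀) r, ‖H p‖ ≤ B) →
    ∃ a : ℕ → ℂ, a 0 = H (0, (α₀ : ℂ), ψ₀, χ₀) / (2 * π) * (∫ t : ℝ × ℝ × ℝ,
      Complex.exp (iteratedDeriv 2 (fun z : ℂ =>
        W ((α₀ : ℂ) + z * t.1, ψ₀ + z * t.2.1, χ₀ + z * t.2.2)) 0 / (4 * π))) ∧
    ∀ J : ℕ, ∃ C : ℝ, ∀ᶠ N : ℕ in atTop,
      ‖(∑ d ∈ (Finset.range N).filter (fun d : ℕ => |2 * π * d / N - α₀| ≤ ρ),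
        ∫ x in (-ρ)..ρ, ∫ y in (-ρ)..ρ,
          Complex.exp ((N : ℂ) / (2 * π) * (W (((2 * π * d / N : ℝ) : ℂ), ψ₀ + x, χ₀ + y) -
            W ((α₀ : ℂ), ψ₀, χ₀))) *
          H (((2 * π / N : ℝ) : ℂ), ((2 * π * d / N : ℝ) : ℂ), ψ₀ + x, χ₀ + y)) -
        ((Real.sqrt N : ℝ) : ℂ)⁻¹ * ∑ j ∈ Finset.range J, a j * ((N : ℂ)⁻¹) ^ j‖ ≤
      C * (Real.sqrt N)⁻¹ * ((N : ℝ)⁻¹) ^ J

/-- a Gaussian integral is not zero -/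
def S_GAUSS : Prop := ∀ (a b c : ℂ) (κ : ℝ), 0 < κ →
  (∀ s x : ℝ, (a * s ^ 2 + b * s * x + c * x ^ 2).re ≤ -κ * (s ^ 2 + x ^ 2)) →
  (∫ t : ℝ × ℝ × ℝ, Complex.exp ((a * t.1 ^ 2 + b * t.1 * t.2.1 + c * t.2.1 ^ 2) +
    (starRingEnd ℂ) (a * t.1 ^ 2 - b * t.1 * t.2.2 + c * t.2.2 ^ 2))) ≠ 0

/-- coefficients of expansions of different lengths fit together -/
def S_UNIQ : Prop := ∀ f : ℕ → ℂ,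
  (∀ J : ℕ, ∃ (a : ℕ → ℂ) (C : ℝ), ∀ᶠ N : ℕ in atTop,
    ‖f N - ∑ j ∈ Finset.range J, a j * ((N : ℂ)⁻¹) ^ j‖ ≤ C * ((N : ℝ)⁻¹) ^ J) →
  ∃ a : ℕ → ℂ, ∀ J : ℕ, ∃ C : ℝ, ∀ᶠ N : ℕ in atTop,
    ‖f N - ∑ j ∈ Finset.range J, a j * ((N : ℂ)⁻¹) ^ j‖ ≤ C * ((N : ℝ)⁻¹) ^ J

/-- `log (2 cos (z/2))` on the domain `Uf` -/
noncomputable def Gf (z : ℂ) : ℂ :=
  -(Complex.I * z / 2) + Complex.log (1 + Complex.exp (Complex.I * z))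

/-- its primitive with `Pf 0 = 0` -/
noncomputable def Pf (z : ℂ) : ℂ := ∫ τ in (0:ℝ)..1, z * Gf (τ * z)

/-- the domain, star-shaped about `0` -/
def Uf : Set ℂ := {z | 0 < z.im ∨ |z.re| < π}

/-- properties of `Gf` and `Pf` -/
def S_GP : Prop := IsOpen Uf ∧ DifferentiableOn ℂ Gf Uf ∧
  (∀ z ∈ Uf, HasDerivAt Pf (Gf z) z) ∧
  (∀ z ∈ Uf, Complex.exp (Gf z) = 2 * Complex.cos (z / 2)) ∧
  (∀ z ∈ Uf, Gf (-(starRingEnd ℂ) z) = (starRingEnd ℂ) (Gf z)) ∧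
  (∀ z ∈ Uf, Pf (-(starRingEnd ℂ) z) = -(starRingEnd ℂ) (Pf z)) ∧
  (∀ τ η : ℝ, 0 < η → (Gf (τ + η * Complex.I)).re =
    1 / 2 * Real.log (2 * Real.cosh η + 2 * Real.cos τ)) ∧
  (∀ y : ℝ, |y| < π → Gf y = ((Real.log (2 * Real.cos (y / 2)) : ℝ) : ℂ))

end Pool.Agent.W707.FE
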