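import Pool.Agent.W709.VC.JLim
import Pool.Agent.W707.FE.A

/-!
# Full asymptotic expansion: statements about the knots
-/

set_option autoImplicit false

namespace Pool.Agent.W707.FE

open Filter Finset EvenVol Pool.Agent.H112R4.VL Pool.Agent.W709.VC
open scoped Real Topology

/-- the potential with complex variables `α, ψ, χ`; `χ` stands for `-conj ψ'` -/
noncomputable def Wf (A : ℕ) (p : ℂ × ℂ × ℂ) : ℂ :=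
  2 * (Pf (π - p.1) - Pf (p.1 - π)) +
  (Complex.I * A * p.2.1 ^ 2 / 2 + 2 * π * Complex.I * p.2.1 +
    (Pf (p.2.1 + p.1) - Pf (p.2.1 - p.1))) +
  (-(Complex.I * A * p.2.2 ^ 2 / 2) + 2 * π * Complex.I * p.2.2 +
    (Pf (p.2.2 + p.1) - Pf (p.2.2 - p.1)))

/-- half of the potential -/
noncomputable def Zf (A : ℕ) (p : ℂ × ℂ) : ℂ :=
  (Pf (π - p.1) - Pf (p.1 - π)) +
  (Complex.I * A * p.2 ^ 2 / 2 + 2 * π * Complex.I * p.2 + (Pf (p.2 + p.1) - Pf (p.2 - p.1)))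

/-- the `k`-th correction -/
noncomputable def Wk (b₁ b₂ : ℕ → ℝ) (k : ℕ) (p : ℂ × ℂ × ℂ) : ℂ :=
  2 * b₁ k * (iteratedDeriv k Gf (π - p.1) - iteratedDeriv k Gf (p.1 - π)) +
  b₂ k * (iteratedDeriv k Gf (p.2.1 + p.1) - iteratedDeriv k Gf (p.2.1 - p.1)) +
  b₂ k * (iteratedDeriv k Gf (p.2.2 + p.1) - iteratedDeriv k Gf (p.2.2 - p.1))

/-- the amplitude, up to order `K` -/
noncomputable def HK (b₁ b₂ : ℕ → ℝ) (K : ℕ) (q : ℂ × ℂ × ℂ × ℂ) : ℂ :=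
  -4 * Complex.sin q.2.2.1 * Complex.sin q.2.2.2 / (2 * Complex.sin (q.2.1 / 2)) ^ 2 *
    Complex.exp (∑ k ∈ range K, q.1 ^ k * Wk b₁ b₂ k q.2)

/-- `‖brf (v0 N) n‖ ^ 2`, `n + d + 1 = N` -/
noncomputable def kk (N d : ℕ) : ℝ := ‖brf (v0 N) (N - 1 - d)‖ ^ 2

/-- the maximum of the potential is strict -/
def S_MAXQ : Prop := ∀ m α₀ b₀ η : ℝ, 2 ≤ m → Crit m α₀ b₀ η → ∃ c : ℝ, 0 < c ∧ ∀ α b : ℝ,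
  0 ≤ α → 0 ≤ b → b ≤ π / 2 → α + b ≤ π →
  pot m α b η ≤ pot m α₀ b₀ η - c * ((α - α₀) ^ 2 + (b - b₀) ^ 2)

/-- only a neighbourhood of the saddle point matters -/
def S_GLOB : Prop := ∀ (A : ℕ) (α₀ b₀ η : ℝ), 4 ≤ A → Crit ((A : ℝ) / 2) α₀ b₀ η →
  ∃ ρ₀ : ℝ, 0 < ρ₀ ∧ ∀ ρ : ℝ, 0 < ρ → ρ ≤ ρ₀ → ∃ δ : ℝ, 0 < δ ∧ ∀ᶠ N : ℕ in atTop,
    |kap A N - ∑ d ∈ (range N).filter (fun d : ℕ => |2 * π * d / N - α₀| ≤ ρ),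
      kk N d ^ 2 / (4 * π ^ 2) *
        ‖∫ x in (-ρ)..ρ, Fint A N d (-b₀ + x + η * Complex.I)‖ ^ 2| ≤
      Real.exp (N / (2 * π) * pot ((A : ℝ) / 2) α₀ b₀ η - δ * N)

/-- properties of the potential `Wf` -/
def S_WF : Prop := ∀ (A : ℕ) (α₀ b₀ η : ℝ), 4 ≤ A → Crit ((A : ℝ) / 2) α₀ b₀ η →
  (∃ r : ℝ, 0 < r ∧
    DifferentiableOn ℂ (Wf A)
      (Metric.ball ((α₀ : ℂ), -(b₀ : ℂ) + η * Complex.I, (b₀ : ℂ) + η * Complex.I) r) ∧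
    DifferentiableOn ℂ (Zf A) (Metric.ball ((α₀ : ℂ), -(b₀ : ℂ) + η * Complex.I) r) ∧
    ∀ (b₁ b₂ : ℕ → ℝ) (K : ℕ),
      DifferentiableOn ℂ (HK b₁ b₂ K)
        (Metric.ball (0, (α₀ : ℂ), -(b₀ : ℂ) + η * Complex.I, (b₀ : ℂ) + η * Complex.I) r) ∧
      ∃ B : ℝ, ∀ p ∈ Metric.ball ((0 : ℂ), (α₀ : ℂ), -(b₀ : ℂ) + η * Complex.I,
        (b₀ : ℂ) + η * Complex.I) r, ‖HK b₁ b₂ K p‖ ≤ B) ∧
  HasFDerivAt (Wf A) (0 : ℂ × ℂ × ℂ →L[ℂ] ℂ)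
    ((α₀ : ℂ), -(b₀ : ℂ) + η * Complex.I, (b₀ : ℂ) + η * Complex.I) ∧
  (∀ α b b' : ℝ, 0 < α → α < π →
    Wf A ((α : ℂ), -(b : ℂ) + η * Complex.I, (b' : ℂ) + η * Complex.I) =
      Zf A ((α : ℂ), -(b : ℂ) + η * Complex.I) +
      (starRingEnd ℂ) (Zf A ((α : ℂ), -(b' : ℂ) + η * Complex.I))) ∧
  (∀ α b : ℝ, 0 < α → α < π → (Zf A ((α : ℂ), -(b : ℂ) + η * Complex.I)).re =
    pot ((A : ℝ) / 2) α b η / 2) ∧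
  Wf A ((α₀ : ℂ), -(b₀ : ℂ) + η * Complex.I, (b₀ : ℂ) + η * Complex.I) =
    ((pot ((A : ℝ) / 2) α₀ b₀ η : ℝ) : ℂ)

/-- the local form of the summand -/
def S_LOC : Prop := ∀ (A : ℕ) (α₀ b₀ η : ℝ), 4 ≤ A → Crit ((A : ℝ) / 2) α₀ b₀ η →
  ∃ (b₁ b₂ : ℕ → ℝ) (ρ₀ : ℝ), 0 < ρ₀ ∧ ∀ K : ℕ, ∃ C : ℝ, ∀ᶠ N : ℕ in atTop, ∀ d : ℕ,
    |2 * π * d / N - α₀| ≤ ρ₀ → ∀ x y : ℝ, |x| ≤ ρ₀ → |y| ≤ ρ₀ →
    ‖((kk N d ^ 2 / (4 * π ^ 2) : ℝ) : ℂ) * (Fint A N d (-b₀ + x + η * Complex.I) *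
        (starRingEnd ℂ) (Fint A N d (-b₀ - y + η * Complex.I))) -
      ((N : ℂ) / (2 * π)) ^ 2 * (Complex.exp ((N : ℂ) / (2 * π) *
        Wf A (((2 * π * d / N : ℝ) : ℂ), -(b₀ : ℂ) + η * Complex.I + x,
          (b₀ : ℂ) + η * Complex.I + y)) *
        HK b₁ b₂ K (((2 * π / N : ℝ) : ℂ), ((2 * π * d / N : ℝ) : ℂ),
          -(b₀ : ℂ) + η * Complex.I + x, (b₀ : ℂ) + η * Complex.I + y))‖ ≤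
    C * N ^ 2 * ((N : ℝ)⁻¹) ^ K * Real.exp ((N : ℝ) / (2 * π) *
      (Wf A (((2 * π * d / N : ℝ) : ℂ), -(b₀ : ℂ) + η * Complex.I + x,
        (b₀ : ℂ) + η * Complex.I + y)).re)

end Pool.Agent.W707.FE
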