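import Pool.Agent.W707.FE.A

/-! Laplace method at a critical point: local estimates by the Schwarz lemma. -/

set_option autoImplicit false

namespace Pool.Agent.W707.FE.AT

open Filter MeasureTheory Metric Set
open scoped Real Topology Nat

/-- real points -/
def io (t : ℝ × ℝ × ℝ) : ℂ × ℂ × ℂ := ((t.1 : ℂ), (t.2.1 : ℂ), (t.2.2 : ℂ))

lemma norm_io (t : ℝ × ℝ × ℝ) : ‖io t‖ = ‖t‖ := by
  simp [io, Prod.norm_def, Complex.norm_real]

lemma io_cont : Continuous io := by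
  unfold io
  fun_prop

/-- square of the Euclidean norm -/
def sq (t : ℝ × ℝ × ℝ) : ℝ := t.1 ^ 2 + t.2.1 ^ 2 + t.2.2 ^ 2

lemma sq_nonneg' (t : ℝ × ℝ × ℝ) : 0 ≤ sq t := by unfold sq; positivity

lemma norm_sq_le (t : ℝ × ℝ × ℝ) : ‖t‖ ^ 2 ≤ sq t := by
  obtain ⟨s, x, y⟩ := t
  unfold sq
  simp only [Prod.norm_def, Real.norm_eq_abs]
  rcases max_choice |s| (max |x| |y|) with h | h
  · rw [h, sq_abs]
    nlinarith [sq_nonneg x, sq_nonneg y]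
  · rw [h]
    rcases max_choice |x| |y| with h | h
    · rw [h, sq_abs]
      nlinarith [sq_nonneg s, sq_nonneg y]
    · rw [h, sq_abs]
      nlinarith [sq_nonneg s, sq_nonneg x]

section general

variable {E : Type*} [NormedAddCommGroup E] [NormedSpace ℂ E]

lemma sch1 {W : E → ℂ} {p q : E} {R B : ℝ} (hd : DifferentiableOn ℂ W (ball p R))
    (hB : ∀ q ∈ ball p R, ‖W q - W p‖ ≤ B) (hq : q ∈ ball p R) :
    ‖W q - W p‖ ≤ B / R * ‖q - p‖ := by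
  have := Complex.dist_le_div_mul_dist_of_mapsTo_ball (R₂ := B) hd
    (fun x hx => by rw [mem_closedBall, dist_eq_norm]; exact hB x hx) hq
  rwa [dist_eq_norm, dist_eq_norm] at this

lemma sch2 {W : E → ℂ} {p q : E} {R B : ℝ} (hd : DifferentiableOn ℂ W (ball p R))
    (hB : ∀ q ∈ ball p R, ‖W q - W p‖ ≤ B) (h0 : HasFDerivAt W (0 : E →L[ℂ] ℂ) p)
    (hq : q ∈ ball p R) :
    ‖W q - W p‖ ≤ B * (‖q - p‖ / R) ^ 2 := by
  have h1 : (fun x => W x - W p) =o[𝓝 p] (fun w => ‖w - p‖ ^ 1) := by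
    have := h0.isLittleO
    simp only [zero_apply, sub_zero] at this
    have h2 := this.norm_right
    simpa using h2
  have := Complex.dist_le_mul_div_pow_of_mapsTo_ball_of_isLittleO (R₂ := B) (n := 1) hd
    (fun x hx => by rw [mem_closedBall, dist_eq_norm]; exact hB x hx) h1 hq
  rwa [dist_eq_norm, dist_eq_norm] at this

lemma lip {W : E → ℂ} {p₀ : E} {r B : ℝ} (hd : DifferentiableOn ℂ W (ball p₀ r))
    (hB : ∀ q ∈ ball p₀ r, ‖W q - W p₀‖ ≤ B) {q v : E} (hq : ‖q - p₀‖ < r / 2)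
    (hv : ‖v‖ < r / 2) : ‖W (q + v) - W q‖ ≤ 4 * B / r * ‖v‖ := by
  have hr : 0 < r := by linarith [norm_nonneg v]
  have hsub : ball q (r / 2) ⊆ ball p₀ r := by
    intro x hx
    rw [mem_ball, dist_eq_norm] at hx ⊢
    have : x - p₀ = (x - q) + (q - p₀) := by abel
    rw [this]
    linarith [norm_add_le (x - q) (q - p₀)]
  have h1 := sch1 (W := W) (p := q) (q := q + v) (R := r / 2) (B := 2 * B) (hd.mono hsub)
    (fun x hx => by
      have e1 := hB x (hsub hx)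
      have e2 := hB q (by rw [mem_ball, dist_eq_norm]; linarith)
      have : W x - W q = (W x - W p₀) - (W q - W p₀) := by ring
      rw [this]
      linarith [norm_sub_le (W x - W p₀) (W q - W p₀)])
    (by rw [mem_ball, dist_eq_norm]; simpa using hv)
  have e : q + v - q = v := by abel
  rw [e] at h1
  refine h1.trans (le_of_eq ?_)
  field_simp
  ring

/-- a small complex displacement in the direction `e` -/
lemma strip {W : E → ℂ} {p₀ e : E} {r B : ℝ} (he : ‖e‖ ≤ 1) (hB0 : 0 ≤ B)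
    (hd : DifferentiableOn ℂ W (ball p₀ r))
    (hB : ∀ q ∈ ball p₀ r, ‖W q - W p₀‖ ≤ B) (h0 : HasFDerivAt W (0 : E →L[ℂ] ℂ) p₀)
    {p : E} {ζ : ℂ} (hp : ‖p - p₀‖ < r / 4) (hζ : ‖ζ‖ < r / 4) :
    ‖W (p + ζ • e) - W p‖ ≤ 32 * B / r ^ 2 * ‖ζ‖ * (‖p - p₀‖ + ‖ζ‖) := by
  have hr : 0 < r := by linarith [norm_nonneg ζ]
  set ph : ℂ → ℂ := fun z => (W (p + z • e) - W p) - (W (p₀ + z • e) - W p₀) with hph
  have hze : ∀ z : ℂ, ‖z • e‖ ≤ ‖z‖ := by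
    intro z
    rw [norm_smul]
    exact mul_le_of_le_one_right (norm_nonneg _) he
  have hmem1 : ∀ z ∈ ball (0:ℂ) (r / 4), p + z • e ∈ ball p₀ r := by
    intro z hz
    rw [mem_ball, dist_eq_norm, sub_zero] at hz
    rw [mem_ball, dist_eq_norm]
    have : p + z • e - p₀ = (p - p₀) + z • e := by abel
    rw [this]
    linarith [norm_add_le (p - p₀) (z • e), hze z]
  have hmem2 : ∀ z ∈ ball (0:ℂ) (r / 4), p₀ + z • e ∈ ball p₀ r := by
    intro z hz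
    rw [mem_ball, dist_eq_norm, sub_zero] at hz
    rw [mem_ball, dist_eq_norm]
    have : p₀ + z • e - p₀ = z • e := by abel
    rw [this]
    linarith [hze z]
  have hphd : DifferentiableOn ℂ ph (ball 0 (r / 4)) := by
    apply DifferentiableOn.sub
    · apply DifferentiableOn.sub_const
      exact hd.comp (f := fun z : ℂ => p + z • e) (by fun_prop) hmem1
    · apply DifferentiableOn.sub_const
      exact hd.comp (f := fun z : ℂ => p₀ + z • e) (by fun_prop) hmem2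
  have hph0 : ph 0 = 0 := by simp [hph]
  have hphB : ∀ z ∈ ball (0:ℂ) (r / 4), ‖ph z - ph 0‖ ≤ 8 * B / r * ‖p - p₀‖ := by
    intro z hz
    rw [mem_ball, dist_eq_norm, sub_zero] at hz
    rw [hph0, sub_zero]
    have e1 := lip (W := W) (p₀ := p₀) (r := r) (B := B) hd hB (q := p₀ + z • e) (v := p - p₀)
      (by
        have : p₀ + z • e - p₀ = z • e := by abel
        rw [this]; linarith [hze z]) (by linarith)
    have e2 := lip (W := W) (p₀ := p₀) (r := r) (B := B) hd hB (q := p₀) (v := p - p₀)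
      (by simpa using hr) (by linarith)
    have e3 : ph z = (W (p₀ + z • e + (p - p₀)) - W (p₀ + z • e)) - (W (p₀ + (p - p₀)) - W p₀) := by
      have a1 : p₀ + z • e + (p - p₀) = p + z • e := by abel
      have a2 : p₀ + (p - p₀) = p := by abel
      rw [a1, a2, hph]
      ring
    rw [e3]
    have e4 := norm_sub_le (W (p₀ + z • e + (p - p₀)) - W (p₀ + z • e)) (W (p₀ + (p - p₀)) - W p₀)
    have e5 : 8 * B / r * ‖p - p₀‖ = 4 * B / r * ‖p - p₀‖ + 4 * B / r * ‖p - p₀‖ := by ring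
    rw [e5]
    linarith
  have h1 := sch1 (W := ph) (p := 0) (q := ζ) (R := r / 4) hphd hphB
    (by rw [mem_ball, dist_eq_norm]; simpa using hζ)
  rw [hph0, sub_zero, sub_zero] at h1
  have h2 := sch2 (W := W) (p := p₀) (q := p₀ + ζ • e) (R := r) hd hB h0
    (hmem2 ζ (by rw [mem_ball, dist_eq_norm]; simpa using hζ))
  have e6 : p₀ + ζ • e - p₀ = ζ • e := by abel
  rw [e6] at h2
  have h3 : B * (‖ζ • e‖ / r) ^ 2 ≤ 32 * B / r ^ 2 * ‖ζ‖ * ‖ζ‖ := by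
    have : ‖ζ • e‖ ^ 2 ≤ ‖ζ‖ ^ 2 := pow_le_pow_left₀ (norm_nonneg _) (hze ζ) 2
    have e7 : B * (‖ζ • e‖ / r) ^ 2 = B / r ^ 2 * ‖ζ • e‖ ^ 2 := by
      field_simp
    have e8 : 32 * B / r ^ 2 * ‖ζ‖ * ‖ζ‖ = B / r ^ 2 * (32 * ‖ζ‖ ^ 2) := by
      field_simp
    rw [e7, e8]
    apply mul_le_mul_of_nonneg_left _ (by positivity)
    nlinarith [sq_nonneg ‖ζ‖]
  have h4 : W (p + ζ • e) - W p = ph ζ + (W (p₀ + ζ • e) - W p₀) := by
    rw [hph]
    ring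
  rw [h4]
  have h5 := norm_add_le (ph ζ) (W (p₀ + ζ • e) - W p₀)
  have h6 : 32 * B / r ^ 2 * ‖ζ‖ * (‖p - p₀‖ + ‖ζ‖) =
      8 * B / r * ‖p - p₀‖ / (r / 4) * ‖ζ‖ + 32 * B / r ^ 2 * ‖ζ‖ * ‖ζ‖ := by
    field_simp
    ring
  rw [h6]
  linarith

end general

/-! ### The second order quotient -/

/-- `W` along a line -/
noncomputable def Bt (W : ℂ × ℂ × ℂ → ℂ) (p₀ : ℂ × ℂ × ℂ) (t : ℝ × ℝ × ℝ) (z : ℂ) : ℂ :=
  W (p₀ + z • io t) - W p₀

/-- the quotient of `Bt` by `z ^ 2` -/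
noncomputable def gt (W : ℂ × ℂ × ℂ → ℂ) (p₀ : ℂ × ℂ × ℂ) (t : ℝ × ℝ × ℝ) : ℂ → ℂ :=
  dslope (dslope (Bt W p₀ t) 0) 0

/-- hypotheses on `W` -/
structure Hyp (W : ℂ × ℂ × ℂ → ℂ) (p₀ : ℂ × ℂ × ℂ) (r B c : ℝ) : Prop where
  hr : 0 < r
  hB0 : 0 ≤ B
  hc : 0 < c
  hd : DifferentiableOn ℂ W (ball p₀ r)
  hB : ∀ q ∈ ball p₀ r, ‖W q - W p₀‖ ≤ B
  h0 : HasFDerivAt W (0 : ℂ × ℂ × ℂ →L[ℂ] ℂ) p₀
  hre : ∀ t : ℝ × ℝ × ℝ, ‖t‖ < r → (W (p₀ + io t)).re ≤ (W p₀).re - c * sq t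

variable {W : ℂ × ℂ × ℂ → ℂ} {p₀ : ℂ × ℂ × ℂ} {r B c : ℝ}

/-- the weight -/
def wt (t : ℝ × ℝ × ℝ) : ℝ := 1 + ‖t‖

lemma one_le_wt (t : ℝ × ℝ × ℝ) : 1 ≤ wt t := by unfold wt; linarith [norm_nonneg t]

lemma wt_pos (t : ℝ × ℝ × ℝ) : 0 < wt t := lt_of_lt_of_le one_pos (one_le_wt t)

lemma mem_of {t : ℝ × ℝ × ℝ} {z : ℂ} (hz : ‖z‖ < r / wt t) : p₀ + z • io t ∈ ball p₀ r := by
  rw [mem_ball, dist_eq_norm]
  have : p₀ + z • io t - p₀ = z • io t := by abel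
  rw [this, norm_smul, norm_io]
  rw [lt_div_iff₀ (wt_pos t)] at hz
  have : ‖z‖ * ‖t‖ ≤ ‖z‖ * wt t := by
    apply mul_le_mul_of_nonneg_left _ (norm_nonneg _)
    unfold wt
    linarith
  linarith

lemma Bt_diff (h : Hyp W p₀ r B c) (t : ℝ × ℝ × ℝ) :
    DifferentiableOn ℂ (Bt W p₀ t) (ball 0 (r / wt t)) := by
  unfold Bt
  apply DifferentiableOn.sub_const
  refine h.hd.comp (f := fun z : ℂ => p₀ + z • io t) (by fun_prop) ?_
  intro z hz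
  rw [mem_ball, dist_eq_norm, sub_zero] at hz
  exact mem_of hz

lemma rw_pos (h : Hyp W p₀ r B c) (t : ℝ × ℝ × ℝ) : 0 < r / wt t := div_pos h.hr (wt_pos t)

lemma ball_nhds (h : Hyp W p₀ r B c) (t : ℝ × ℝ × ℝ) : ball (0:ℂ) (r / wt t) ∈ 𝓝 (0:ℂ) :=
  ball_mem_nhds _ (rw_pos h t)

lemma Bt_zero (t : ℝ × ℝ × ℝ) : Bt W p₀ t 0 = 0 := by simp [Bt]

lemma Bt_deriv (h : Hyp W p₀ r B c) (t : ℝ × ℝ × ℝ) : deriv (Bt W p₀ t) 0 = 0 := by
  have h1 : HasFDerivAt W (0 : ℂ × ℂ × ℂ →L[ℂ] ℂ) (p₀ + (0:ℂ) • io t) := by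
    simpa using h.h0
  have h2 : HasDerivAt (fun z : ℂ => p₀ + z • io t) (io t) 0 := by
    have := ((hasDerivAt_id (0:ℂ)).smul_const (io t)).const_add p₀
    simpa using this
  have h3 := h1.comp_hasDerivAt (0:ℂ) h2
  have h4 : HasDerivAt (Bt W p₀ t) ((0 : ℂ × ℂ × ℂ →L[ℂ] ℂ) (io t)) 0 := h3.sub_const (W p₀)
  exact h4.deriv

lemma gt_diff (h : Hyp W p₀ r B c) (t : ℝ × ℝ × ℝ) :
    DifferentiableOn ℂ (gt W p₀ t) (ball 0 (r / wt t)) := by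
  unfold gt
  rw [Complex.differentiableOn_dslope (ball_nhds h t),
    Complex.differentiableOn_dslope (ball_nhds h t)]
  exact Bt_diff h t

lemma gt_ne (h : Hyp W p₀ r B c) (t : ℝ × ℝ × ℝ) {z : ℂ} (hz : z ≠ 0) :
    gt W p₀ t z = Bt W p₀ t z / z ^ 2 := by
  unfold gt
  rw [dslope_of_ne _ hz, slope_def_field, dslope_of_ne _ hz, slope_def_field, dslope_same,
    Bt_deriv h t, Bt_zero]
  field_simp
  ring

lemma Bt_le (h : Hyp W p₀ r B c) (t : ℝ × ℝ × ℝ) {z : ℂ} (hz : ‖z‖ < r / wt t) :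
    ‖Bt W p₀ t z‖ ≤ B * (‖z‖ * ‖t‖ / r) ^ 2 := by
  have h1 := sch2 h.hd h.hB h.h0 (mem_of (p₀ := p₀) hz)
  have e : p₀ + z • io t - p₀ = z • io t := by abel
  rw [e, norm_smul, norm_io] at h1
  exact h1

lemma gt_le (h : Hyp W p₀ r B c) (t : ℝ × ℝ × ℝ) {z : ℂ} (hz : ‖z‖ < r / wt t) :
    ‖gt W p₀ t z‖ ≤ B * ‖t‖ ^ 2 / r ^ 2 := by
  have key : ∀ z : ℂ, z ≠ 0 → ‖z‖ < r / wt t → ‖gt W p₀ t z‖ ≤ B * ‖t‖ ^ 2 / r ^ 2 := by
    intro z h0 hz
    rw [gt_ne h t h0, norm_div, norm_pow, div_le_iff₀ (by positivity)]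
    refine (Bt_le h t hz).trans (le_of_eq ?_)
    have := h.hr
    field_simp
  rcases eq_or_ne z 0 with h0 | h0
  · subst h0
    have hc : ContinuousAt (gt W p₀ t) 0 :=
      ((gt_diff h t).differentiableAt (ball_nhds h t)).continuousAt
    have h1 : Tendsto (fun z => ‖gt W p₀ t z‖) (𝓝[≠] 0) (𝓝 ‖gt W p₀ t 0‖) :=
      (hc.norm.tendsto).mono_left nhdsWithin_le_nhds
    refine le_of_tendsto h1 ?_
    filter_upwards [self_mem_nhdsWithin, nhdsWithin_le_nhds (ball_nhds h t)] with z h2 h3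
    rw [mem_ball, dist_eq_norm, sub_zero] at h3
    exact key z h2 h3
  · exact key z h0 hz

lemma gt_sub_le (h : Hyp W p₀ r B c) (t : ℝ × ℝ × ℝ) {z : ℂ} (hz : ‖z‖ < r / wt t) :
    ‖gt W p₀ t z - gt W p₀ t 0‖ ≤ 2 * (B * ‖t‖ ^ 2 / r ^ 2) / (r / wt t) * ‖z‖ := by
  have := sch1 (W := gt W p₀ t) (p := 0) (q := z) (R := r / wt t)
    (B := 2 * (B * ‖t‖ ^ 2 / r ^ 2)) (gt_diff h t)
    (fun q hq => by
      rw [mem_ball, dist_eq_norm, sub_zero] at hq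
      have h1 := gt_le h t hq
      have h2 := gt_le h t (z := 0) (by simpa using rw_pos h t)
      linarith [norm_sub_le (gt W p₀ t q) (gt W p₀ t 0)])
    (by rw [mem_ball, dist_eq_norm]; simpa using hz)
  simpa using this

lemma gt_zero_re (h : Hyp W p₀ r B c) (t : ℝ × ℝ × ℝ) : (gt W p₀ t 0).re ≤ -c * sq t := by
  have hc : ContinuousAt (gt W p₀ t) 0 :=
    ((gt_diff h t).differentiableAt (ball_nhds h t)).continuousAt
  have h1 : Tendsto (fun ν : ℝ => (gt W p₀ t (ν : ℂ)).re) (𝓝[>] 0) (𝓝 (gt W p₀ t 0).re) := by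
    have h2 : Tendsto (fun ν : ℝ => (ν : ℂ)) (𝓝[>] 0) (𝓝 (0:ℂ)) := by
      have : Continuous (fun ν : ℝ => (ν : ℂ)) := Complex.continuous_ofReal
      exact (by simpa using this.tendsto 0 : Tendsto (fun ν : ℝ => (ν : ℂ)) (𝓝 0) (𝓝 (0:ℂ))).mono_left
        nhdsWithin_le_nhds
    exact (Complex.continuous_re.tendsto _).comp (hc.tendsto.comp h2)
  refine le_of_tendsto h1 ?_
  filter_upwards [Ioo_mem_nhdsGT (rw_pos h t)] with ν hν
  have hν0 : (ν : ℂ) ≠ 0 := by exact_mod_cast hν.1.ne'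
  rw [gt_ne h t hν0]
  have e1 : Bt W p₀ t ν / (ν : ℂ) ^ 2 = ((ν ^ 2)⁻¹ : ℝ) * Bt W p₀ t ν := by
    push_cast
    field_simp
  rw [e1, Complex.re_ofReal_mul]
  have hνt : ‖ν • t‖ < r := by
    rw [norm_smul, Real.norm_eq_abs, abs_of_pos hν.1]
    have := hν.2
    rw [lt_div_iff₀ (wt_pos t)] at this
    have h3 : ν * ‖t‖ ≤ ν * wt t := by
      apply mul_le_mul_of_nonneg_left _ hν.1.le
      unfold wt
      linarith
    linarith
  have h4 := h.hre (ν • t) hνt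
  have e2 : io (ν • t) = (ν : ℂ) • io t := by
    simp [io]
  have e3 : sq (ν • t) = ν ^ 2 * sq t := by
    simp [sq]
    ring
  rw [e2, e3] at h4
  have h5 : (Bt W p₀ t ν).re ≤ -c * (ν ^ 2 * sq t) := by
    unfold Bt
    rw [Complex.sub_re]
    linarith
  have hν2 : 0 < ν ^ 2 := by have := hν.1; positivity
  calc (ν ^ 2)⁻¹ * (Bt W p₀ t ν).re ≤ (ν ^ 2)⁻¹ * (-c * (ν ^ 2 * sq t)) :=
        mul_le_mul_of_nonneg_left h5 (by positivity)
    _ = -c * sq t := by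
        have h6 : (ν ^ 2)⁻¹ * (-c * (ν ^ 2 * sq t)) = (-c * sq t) * (ν ^ 2 * (ν ^ 2)⁻¹) := by ring
        rw [h6, mul_inv_cancel₀ hν2.ne', mul_one]

/-- the main bound for the exponent -/
lemma gt_re (h : Hyp W p₀ r B c) {κ : ℝ} (hκ1 : κ ≤ 1)
    (hκ2 : 2 * B * κ ≤ c / 2 * r ^ 2) (t : ℝ × ℝ × ℝ) {z : ℂ} (hz : ‖z‖ < κ * r / wt t) :
    (gt W p₀ t z).re ≤ -(c / 2) * sq t := by
  have hr := h.hr
  have hw := wt_pos t
  have hz' : ‖z‖ < r / wt t := by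
    refine lt_of_lt_of_le hz ?_
    apply div_le_div_of_nonneg_right _ hw.le
    nlinarith
  have h1 := gt_sub_le h t hz'
  have h2 := gt_zero_re h t
  have h3 : (gt W p₀ t z).re = (gt W p₀ t 0).re + (gt W p₀ t z - gt W p₀ t 0).re := by
    rw [Complex.sub_re]
    ring
  have h4 := Complex.re_le_norm (gt W p₀ t z - gt W p₀ t 0)
  have h5 : 2 * (B * ‖t‖ ^ 2 / r ^ 2) / (r / wt t) * ‖z‖ ≤ c / 2 * sq t := by
    have h6 : ‖z‖ / (r / wt t) ≤ κ := by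
      rw [div_le_iff₀ (by positivity)]
      have : κ * (r / wt t) = κ * r / wt t := by ring
      linarith
    have hB0 := h.hB0
    calc 2 * (B * ‖t‖ ^ 2 / r ^ 2) / (r / wt t) * ‖z‖ =
        2 * (B * ‖t‖ ^ 2 / r ^ 2) * (‖z‖ / (r / wt t)) := by ring
      _ ≤ 2 * (B * ‖t‖ ^ 2 / r ^ 2) * κ := by
          apply mul_le_mul_of_nonneg_left h6 (by positivity)
      _ = (2 * B * κ) / r ^ 2 * ‖t‖ ^ 2 := by ring
      _ ≤ (c / 2) * ‖t‖ ^ 2 := by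
          apply mul_le_mul_of_nonneg_right _ (by positivity)
          rw [div_le_iff₀ (by positivity)]
          exact hκ2
      _ ≤ c / 2 * sq t := mul_le_mul_of_nonneg_left (norm_sq_le t) (by linarith [h.hc])
  rw [h3]
  nlinarith

end Pool.Agent.W707.FE.AT
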