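import Pool.Agent.W707.FE.AT1
import Pool.Agent.W364.FE.Lap

/-! Laplace method at a critical point: the holomorphic family. -/

set_option autoImplicit false

namespace Pool.Agent.W707.FE.AT

open Filter MeasureTheory Metric Set
open scoped Real Topology Nat

variable {W : ℂ × ℂ × ℂ → ℂ} {p₀ : ℂ × ℂ × ℂ} {r B c : ℝ}

/-- the family -/
noncomputable def Ef (W : ℂ × ℂ × ℂ → ℂ) (p₀ : ℂ × ℂ × ℂ) (H : ℂ × ℂ × ℂ × ℂ → ℂ) (z : ℂ)
    (t : ℝ × ℝ × ℝ) : ℂ :=
  Complex.exp (gt W p₀ t z / (2 * π)) * H (2 * π * z ^ 2, p₀ + z • io t)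

/-- hypotheses on the amplitude and the size of the disc -/
structure HypH (p₀ : ℂ × ℂ × ℂ) (H : ℂ × ℂ × ℂ × ℂ → ℂ) (r B c BH κ : ℝ) : Prop where
  hBH : 0 ≤ BH
  hd : DifferentiableOn ℂ H (ball ((0 : ℂ), p₀) r)
  hB : ∀ q ∈ ball ((0 : ℂ), p₀) r, ‖H q‖ ≤ BH
  hκ : 0 < κ
  hκ1 : κ ≤ 1
  hκ2 : 2 * B * κ ≤ c / 2 * r ^ 2
  hκ3 : 2 * π * (κ * r) ^ 2 < r

variable {H : ℂ × ℂ × ℂ × ℂ → ℂ} {BH κ : ℝ}

lemma lt_of_kappa (hr : 0 < r) (h : HypH p₀ H r B c BH κ) {t : ℝ × ℝ × ℝ} {z : ℂ}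
    (hz : ‖z‖ < κ * r / wt t) : ‖z‖ < r / wt t := by
  refine lt_of_lt_of_le hz ?_
  apply div_le_div_of_nonneg_right _ (wt_pos t).le
  nlinarith [h.hκ1]

lemma memH (hr : 0 < r) (h : HypH p₀ H r B c BH κ) {t : ℝ × ℝ × ℝ} {z : ℂ}
    (hz : ‖z‖ < κ * r / wt t) : ((2 * π * z ^ 2, p₀ + z • io t) : ℂ × ℂ × ℂ × ℂ) ∈
      ball ((0 : ℂ), p₀) r := by
  have h1 := mem_of (p₀ := p₀) (lt_of_kappa hr h hz)
  rw [mem_ball, Prod.dist_eq, max_lt_iff]
  refine ⟨?_, by rwa [mem_ball] at h1⟩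
  have hz2 : ‖z‖ < κ * r := by
    refine lt_of_lt_of_le hz ?_
    apply div_le_self (by have := h.hκ; positivity) (one_le_wt t)
  rw [dist_eq_norm, sub_zero, norm_mul, norm_mul, Complex.norm_real, Real.norm_eq_abs,
    abs_of_pos Real.pi_pos, norm_pow, Complex.norm_ofNat]
  refine lt_of_le_of_lt ?_ h.hκ3
  have : ‖z‖ ^ 2 ≤ (κ * r) ^ 2 := pow_le_pow_left₀ (norm_nonneg _) hz2.le 2
  nlinarith [Real.pi_pos]

lemma Ef_diff (hW : Hyp W p₀ r B c) (h : HypH p₀ H r B c BH κ) (t : ℝ × ℝ × ℝ) :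
    DifferentiableOn ℂ (fun z => Ef W p₀ H z t) (ball 0 (κ * r / wt t)) := by
  unfold Ef
  have hsub : ball (0:ℂ) (κ * r / wt t) ⊆ ball 0 (r / wt t) := by
    intro z hz
    rw [mem_ball, dist_eq_norm, sub_zero] at hz ⊢
    exact lt_of_kappa hW.hr h hz
  apply DifferentiableOn.mul
  · apply DifferentiableOn.cexp
    exact ((gt_diff hW t).mono hsub).div_const _
  · refine h.hd.comp (f := fun z : ℂ => ((2 * π * z ^ 2, p₀ + z • io t) : ℂ × ℂ × ℂ × ℂ))
      (by fun_prop) ?_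
    intro z hz
    rw [mem_ball, dist_eq_norm, sub_zero] at hz
    exact memH hW.hr h hz

/-- the majorant -/
noncomputable def Df (c BH : ℝ) (t : ℝ × ℝ × ℝ) : ℝ := Real.exp (-(c / (4 * π)) * sq t) * BH

lemma Ef_le (hW : Hyp W p₀ r B c) (h : HypH p₀ H r B c BH κ) (t : ℝ × ℝ × ℝ) (z : ℂ)
    (hz : ‖z‖ < κ * r / wt t) : ‖Ef W p₀ H z t‖ ≤ Df c BH t := by
  unfold Ef Df
  rw [norm_mul]
  apply mul_le_mul _ (h.hB _ (memH hW.hr h hz)) (norm_nonneg _) (Real.exp_pos _).le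
  rw [Complex.norm_exp]
  apply Real.exp_le_exp.2
  have h1 := gt_re hW h.hκ1 h.hκ2 t hz
  have e : gt W p₀ t z / (2 * π) = (((2 * π)⁻¹ : ℝ) : ℂ) * gt W p₀ t z := by
    push_cast
    field_simp
  rw [e, Complex.re_ofReal_mul]
  have hp := Real.pi_pos
  calc (2 * π)⁻¹ * (gt W p₀ t z).re ≤ (2 * π)⁻¹ * (-(c / 2) * sq t) :=
        mul_le_mul_of_nonneg_left h1 (by positivity)
    _ = -(c / (4 * π)) * sq t := by
        field_simp
        ring

lemma pow_le_exp (J : ℕ) {b u : ℝ} (hb : 0 < b) (hu : 0 ≤ u) :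
    (1 + u) ^ J ≤ (2 ^ J * (J ! : ℝ) / b ^ J * Real.exp b) * Real.exp (b * u ^ 2) := by
  have h1 : 1 + u ≤ 2 * (1 + u ^ 2) := by nlinarith [sq_nonneg (u - 1 / 4)]
  have h2 : (b * (1 + u ^ 2)) ^ J / (J ! : ℝ) ≤ Real.exp (b * (1 + u ^ 2)) :=
    Real.pow_div_factorial_le_exp _ (by positivity) J
  rw [div_le_iff₀ (by positivity)] at h2
  calc (1 + u) ^ J ≤ (2 * (1 + u ^ 2)) ^ J := pow_le_pow_left₀ (by linarith) h1 J
    _ = 2 ^ J / b ^ J * (b * (1 + u ^ 2)) ^ J := by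
        rw [mul_pow, mul_pow]
        field_simp
    _ ≤ 2 ^ J / b ^ J * (Real.exp (b * (1 + u ^ 2)) * (J ! : ℝ)) :=
        mul_le_mul_of_nonneg_left h2 (by positivity)
    _ = _ := by
        rw [mul_add, mul_one, Real.exp_add]
        ring

lemma sq_cont : Continuous sq := by
  unfold sq
  fun_prop

lemma wt_cont : Continuous wt := by
  unfold wt
  fun_prop

lemma gauss_int {a : ℝ} (ha : 0 < a) : Integrable (fun t : ℝ × ℝ × ℝ => Real.exp (-a * sq t)) := by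
  have h1 : Integrable (fun x : ℝ => Real.exp (-a * x ^ 2)) := integrable_exp_neg_mul_sq ha
  have h2 := Integrable.mul_prod h1 (Integrable.mul_prod h1 h1)
  refine h2.congr (Eventually.of_forall fun t => ?_)
  simp only [sq]
  rw [← Real.exp_add, ← Real.exp_add]
  congr 1
  ring

lemma Df_int (hc : 0 < c) (hBH : 0 ≤ BH) (J : ℕ) :
    Integrable (fun t : ℝ × ℝ × ℝ => Df c BH t * wt t ^ J) := by
  have hp := Real.pi_pos
  set b : ℝ := c / (8 * π) with hb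
  have hb0 : 0 < b := by positivity
  have h1 := (gauss_int hb0).const_mul (BH * (2 ^ J * (J ! : ℝ) / b ^ J * Real.exp b))
  refine h1.mono' ?_ (Eventually.of_forall fun t => ?_)
  · apply Continuous.aestronglyMeasurable
    unfold Df
    have := sq_cont
    have := wt_cont
    fun_prop
  · have hw := wt_pos t
    rw [Real.norm_eq_abs, abs_of_nonneg (by unfold Df; positivity)]
    have h2 := pow_le_exp J hb0 (norm_nonneg t)
    have h3 : Real.exp (b * ‖t‖ ^ 2) ≤ Real.exp (b * sq t) :=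
      Real.exp_le_exp.2 (mul_le_mul_of_nonneg_left (norm_sq_le t) hb0.le)
    have h4 : wt t ^ J ≤ (2 ^ J * (J ! : ℝ) / b ^ J * Real.exp b) * Real.exp (b * sq t) := by
      refine le_trans h2 (mul_le_mul_of_nonneg_left h3 (by positivity))
    have e : Real.exp (-(c / (4 * π)) * sq t) * Real.exp (b * sq t) = Real.exp (-b * sq t) := by
      rw [← Real.exp_add]
      congr 1
      rw [hb]
      field_simp
      ring
    calc Df c BH t * wt t ^ J ≤
        Df c BH t * ((2 ^ J * (J ! : ℝ) / b ^ J * Real.exp b) * Real.exp (b * sq t)) :=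
          mul_le_mul_of_nonneg_left h4 (by unfold Df; positivity)
      _ = (BH * (2 ^ J * (J ! : ℝ) / b ^ J * Real.exp b)) *
          (Real.exp (-(c / (4 * π)) * sq t) * Real.exp (b * sq t)) := by
          unfold Df
          ring
      _ = _ := by rw [e]

lemma Ef_real (hW : Hyp W p₀ r B c) {ν : ℝ} (hν : 0 < ν) (t : ℝ × ℝ × ℝ) :
    Ef W p₀ H ν t = Complex.exp ((W (p₀ + (ν : ℂ) • io t) - W p₀) / (2 * π * (ν : ℂ) ^ 2)) *
      H (2 * π * (ν : ℂ) ^ 2, p₀ + (ν : ℂ) • io t) := by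
  unfold Ef
  have h0 : (ν : ℂ) ≠ 0 := by exact_mod_cast hν.ne'
  have hp : (π : ℂ) ≠ 0 := by exact_mod_cast Real.pi_ne_zero
  rw [gt_ne hW t h0]
  unfold Bt
  congr 2
  field_simp

lemma Ef_meas (hW : Hyp W p₀ r B c) (h : HypH p₀ H r B c BH κ) {ν : ℝ} (hν : 0 < ν) :
    AEStronglyMeasurable (Ef W p₀ H ν) (volume.restrict {t | ν * wt t < κ * r}) := by
  have hopen : IsOpen {t : ℝ × ℝ × ℝ | ν * wt t < κ * r} :=
    isOpen_lt (continuous_const.mul wt_cont) continuous_const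
  apply ContinuousOn.aestronglyMeasurable _ hopen.measurableSet
  have hmem : ∀ t ∈ {t : ℝ × ℝ × ℝ | ν * wt t < κ * r}, ‖(ν : ℂ)‖ < κ * r / wt t := by
    intro t ht
    rw [Complex.norm_real, Real.norm_eq_abs, abs_of_pos hν, lt_div_iff₀ (wt_pos t)]
    exact ht
  have hc : ContinuousOn (fun t : ℝ × ℝ × ℝ => p₀ + (ν : ℂ) • io t) {t | ν * wt t < κ * r} := by
    have := io_cont
    fun_prop
  have h1 : ContinuousOn (fun t : ℝ × ℝ × ℝ =>
      Complex.exp ((W (p₀ + (ν : ℂ) • io t) - W p₀) / (2 * π * (ν : ℂ) ^ 2)))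
      {t | ν * wt t < κ * r} := by
    apply ContinuousOn.cexp
    apply ContinuousOn.div_const
    apply ContinuousOn.sub _ continuousOn_const
    exact hW.hd.continuousOn.comp hc (fun t ht => mem_of (lt_of_kappa hW.hr h (hmem t ht)))
  have h2 : ContinuousOn (fun t : ℝ × ℝ × ℝ =>
      H (2 * π * (ν : ℂ) ^ 2, p₀ + (ν : ℂ) • io t)) {t | ν * wt t < κ * r} :=
    h.hd.continuousOn.comp (continuousOn_const.prodMk hc) (fun t ht => memH hW.hr h (hmem t ht))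
  refine (h1.mul h2).congr (fun t _ => ?_)
  exact Ef_real hW hν t

/-- the coefficients -/
noncomputable def cf (W : ℂ × ℂ × ℂ → ℂ) (p₀ : ℂ × ℂ × ℂ) (H : ℂ × ℂ × ℂ × ℂ → ℂ) (j : ℕ) : ℂ :=
  ∫ t, iteratedDeriv j (fun z => Ef W p₀ H z t) 0 / (j ! : ℂ)

theorem lap_apply (hL : S_LAP) (hW : Hyp W p₀ r B c) (h : HypH p₀ H r B c BH κ) {ρ : ℝ}
    (hρ : 0 < ρ) (J : ℕ) : ∃ C : ℝ, ∀ (ν : ℝ) (S : Set (ℝ × ℝ × ℝ)), 0 < ν → MeasurableSet S →
    (∀ t ∈ S, ν * wt t ≤ κ * r / 2) → (∀ t, t ∉ S → ρ ≤ ν * wt t) →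
    ‖(∫ t in S, Ef W p₀ H ν t) - ∑ j ∈ Finset.range J, (ν : ℂ) ^ j * cf W p₀ H j‖ ≤ C * ν ^ J :=
  hL (ℝ × ℝ × ℝ) volume wt (Df c BH) (Ef W p₀ H) (κ * r) ρ
    (by have := hW.hr; have := h.hκ; positivity) hρ wt_cont.measurable one_le_wt
    (Df_int hW.hc h.hBH) (fun ν hν => Ef_meas hW h hν) (Ef_diff hW h) (Ef_le hW h) J

/-! ### parity -/

lemma haar3 : (volume : Measure (ℝ × ℝ × ℝ)).IsAddHaarMeasure := by
  have h1 : (volume : Measure (ℝ × ℝ)).IsAddHaarMeasure :=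
    Measure.prod.instIsAddHaarMeasure volume volume
  exact Measure.prod.instIsAddHaarMeasure volume volume

lemma neg3 : (volume : Measure (ℝ × ℝ × ℝ)).IsNegInvariant := by
  have h2 := haar3
  infer_instance

lemma gt_neg (hW : Hyp W p₀ r B c) (t : ℝ × ℝ × ℝ) (z : ℂ) :
    gt W p₀ (-t) z = gt W p₀ t (-z) := by
  have hio : io (-t) = -io t := by simp [io]
  have key : ∀ z : ℂ, z ≠ 0 → gt W p₀ (-t) z = gt W p₀ t (-z) := by
    intro z hz
    rw [gt_ne hW _ hz, gt_ne hW _ (neg_ne_zero.2 hz)]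
    unfold Bt
    rw [hio, smul_neg, neg_smul]
    ring
  rcases eq_or_ne z 0 with h0 | h0
  · subst h0
    rw [neg_zero]
    have c1 : ContinuousAt (gt W p₀ (-t)) 0 :=
      ((gt_diff hW (-t)).differentiableAt (ball_nhds hW (-t))).continuousAt
    have c2 : ContinuousAt (gt W p₀ t) (-0) := by
      rw [neg_zero]
      exact ((gt_diff hW t).differentiableAt (ball_nhds hW t)).continuousAt
    have c3 : ContinuousAt (fun z => gt W p₀ t (-z)) 0 :=
      ContinuousAt.comp (g := gt W p₀ t) (f := fun z => -z) c2 continuousAt_neg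
    have t1 := c1.tendsto.mono_left (nhdsWithin_le_nhds (s := {0}ᶜ))
    have t2 := c3.tendsto.mono_left (nhdsWithin_le_nhds (s := {0}ᶜ))
    simp only [neg_zero] at t2
    refine tendsto_nhds_unique t1 (t2.congr' ?_)
    filter_upwards [self_mem_nhdsWithin] with z hz
    exact (key z hz).symm
  · exact key z h0

lemma Ef_neg (hW : Hyp W p₀ r B c) (t : ℝ × ℝ × ℝ) (z : ℂ) :
    Ef W p₀ H z (-t) = Ef W p₀ H (-z) t := by
  have hio : io (-t) = -io t := by simp [io]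
  unfold Ef
  rw [gt_neg hW, hio, smul_neg, neg_smul, neg_sq]

lemma cf_odd (hW : Hyp W p₀ r B c) {j : ℕ} (hj : Odd j) : cf W p₀ H j = 0 := by
  have h1 : cf W p₀ H j = -cf W p₀ H j := by
    have := neg3
    conv_lhs => rw [cf, ← integral_neg_eq_self]
    rw [cf, ← integral_neg]
    congr 1
    ext t
    have h2 : (fun z => Ef W p₀ H z (-t)) = fun z => (fun z => Ef W p₀ H z t) (-z) := by
      ext z
      exact Ef_neg hW t z
    have h4 := iteratedDeriv_comp_neg j (fun z => Ef W p₀ H z t) 0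
    rw [h2]
    refine (congrArg (· / (j ! : ℂ)) h4).trans ?_
    rw [neg_zero, hj.neg_one_pow]
    simp [neg_div]
  have h3 : (2:ℂ) * cf W p₀ H j = 0 := by linear_combination h1
  simpa using h3

lemma gt_zero_eq (hW : Hyp W p₀ r B c) (t : ℝ × ℝ × ℝ) :
    iteratedDeriv 2 (fun z : ℂ => W (p₀ + z • io t)) 0 = 2 * gt W p₀ t 0 := by
  have e1 : iteratedDeriv 2 (fun z : ℂ => W (p₀ + z • io t)) 0 = iteratedDeriv 2 (Bt W p₀ t) 0 := by
    have e0 : deriv (Bt W p₀ t) = deriv (fun z : ℂ => W (p₀ + z • io t)) := by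
      funext z
      unfold Bt
      rw [deriv_sub_const_fun]
    rw [iteratedDeriv_succ', iteratedDeriv_succ' (n := 1) (f := Bt W p₀ t), e0]
  rw [e1]
  have e2 : ∀ z, Bt W p₀ t z = z ^ 2 * gt W p₀ t z := by
    intro z
    rcases eq_or_ne z 0 with h0 | h0
    · subst h0
      rw [Bt_zero]
      ring
    · rw [gt_ne hW t h0]
      field_simp
  have e3 : Bt W p₀ t = fun z => z ^ 2 * gt W p₀ t z := funext e2
  have hev : ∀ᶠ z in 𝓝 (0:ℂ), DifferentiableAt ℂ (gt W p₀ t) z := by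
    filter_upwards [isOpen_ball.mem_nhds (mem_ball_self (rw_pos hW t))] with z hz
    exact (gt_diff hW t).differentiableAt (isOpen_ball.mem_nhds hz)
  have e4 : deriv (Bt W p₀ t) =ᶠ[𝓝 0] fun z => 2 * z * gt W p₀ t z + z ^ 2 * deriv (gt W p₀ t) z := by
    filter_upwards [hev] with z hz
    rw [e3]
    have := (hasDerivAt_pow 2 z).mul hz.hasDerivAt
    have h5 := this.deriv
    simp only [Nat.cast_ofNat, Nat.add_one_sub_one, pow_one] at h5
    exact h5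
  rw [iteratedDeriv_succ', iteratedDeriv_one, e4.deriv_eq]
  have hg0 : DifferentiableAt ℂ (gt W p₀ t) 0 := hev.self_of_nhds
  have hg1 : DifferentiableAt ℂ (deriv (gt W p₀ t)) 0 :=
    ((gt_diff hW t).deriv isOpen_ball).differentiableAt (ball_nhds hW t)
  have h6 := (((hasDerivAt_id (0:ℂ)).const_mul 2).mul hg0.hasDerivAt).add
    ((hasDerivAt_pow 2 (0:ℂ)).mul hg1.hasDerivAt)
  have h7 := h6.deriv
  simp only [id, mul_one, mul_zero, zero_mul, add_zero, Nat.cast_ofNat, ne_eq,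
    OfNat.ofNat_ne_zero, not_false_eq_true, zero_pow, Nat.add_one_sub_one, pow_one] at h7
  exact h7

lemma cf_zero (hW : Hyp W p₀ r B c) : cf W p₀ H 0 = H (0, p₀) * ∫ t,
    Complex.exp (iteratedDeriv 2 (fun z : ℂ => W (p₀ + z • io t)) 0 / (4 * π)) := by
  unfold cf
  rw [← integral_const_mul]
  congr 1
  ext t
  rw [iteratedDeriv_zero, gt_zero_eq hW t]
  unfold Ef
  simp only [ne_eq, OfNat.ofNat_ne_zero, not_false_eq_true, zero_pow, mul_zero, zero_smul,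
    add_zero, Nat.factorial_zero, Nat.cast_one, div_one]
  rw [mul_comm]
  congr 2
  have hp : (π : ℂ) ≠ 0 := by exact_mod_cast Real.pi_ne_zero
  field_simp
  ring

end Pool.Agent.W707.FE.AT
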