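import Pool.Agent.W707.FE.AT2

/-! Laplace method at a critical point: from the sum to the integral, scaling. -/

set_option autoImplicit false

namespace Pool.Agent.W707.FE.AT

open Filter MeasureTheory Metric Set
open scoped Real Topology Nat Pointwise

variable {W : ℂ × ℂ × ℂ → ℂ} {p₀ : ℂ × ℂ × ℂ} {r B c : ℝ}
variable {H : ℂ × ℂ × ℂ × ℂ → ℂ} {BH κ : ℝ}

/-- the integrand in unscaled variables -/
noncomputable def fN (W : ℂ × ℂ × ℂ → ℂ) (p₀ : ℂ × ℂ × ℂ) (H : ℂ × ℂ × ℂ × ℂ → ℂ) (N : ℕ)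
    (p : ℂ × ℂ × ℂ) : ℂ :=
  Complex.exp ((N : ℂ) / (2 * π) * (W p - W p₀)) * H (((2 * π / N : ℝ) : ℂ), p)

/-- the cube -/
def Q3 (ρ : ℝ) : Set (ℝ × ℝ × ℝ) := Icc (-ρ) ρ ×ˢ (Icc (-ρ) ρ ×ˢ Icc (-ρ) ρ)

lemma mem_Q3 {ρ : ℝ} {t : ℝ × ℝ × ℝ} : t ∈ Q3 ρ ↔ ‖t‖ ≤ ρ := by
  obtain ⟨s, x, y⟩ := t
  simp only [Q3, mem_prod, mem_Icc, Prod.norm_def, Real.norm_eq_abs, max_le_iff, abs_le]

lemma Q3_compact (ρ : ℝ) : IsCompact (Q3 ρ) :=
  isCompact_Icc.prod (isCompact_Icc.prod isCompact_Icc)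

lemma io_smul (ν : ℝ) (t : ℝ × ℝ × ℝ) : io (ν • t) = (ν : ℂ) • io t := by
  simp [io]

/-- scaling -/
lemma scale {N : ℕ} (hN : 0 < N) (hW : Hyp W p₀ r B c) (ρ : ℝ) :
    ∫ t in Q3 ρ, fN W p₀ H N (p₀ + io t) =
      (((Real.sqrt N)⁻¹ ^ 3 : ℝ) : ℂ) *
        ∫ t in (((Real.sqrt N)⁻¹)⁻¹ • Q3 ρ), Ef W p₀ H (((Real.sqrt N)⁻¹ : ℝ) : ℂ) t := by
  have := haar3
  have hNp : (0 : ℝ) < N := by exact_mod_cast hN
  have hs : 0 < Real.sqrt N := Real.sqrt_pos.2 hNp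
  set ν : ℝ := (Real.sqrt N)⁻¹ with hν
  have hν0 : 0 < ν := by positivity
  have hν2 : ν ^ 2 = (N : ℝ)⁻¹ := by
    rw [hν, inv_pow, Real.sq_sqrt hNp.le]
  have h1 := Measure.setIntegral_comp_smul_of_pos (μ := (volume : Measure (ℝ × ℝ × ℝ)))
    (fun t => fN W p₀ H N (p₀ + io t)) (ν⁻¹ • Q3 ρ) hν0
  rw [smul_inv_smul₀ hν0.ne'] at h1
  have hfin : Module.finrank ℝ (ℝ × ℝ × ℝ) = 3 := by simp
  rw [hfin] at h1
  have h2 : ∀ t, fN W p₀ H N (p₀ + io (ν • t)) = Ef W p₀ H (ν : ℂ) t := by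
    intro t
    rw [Ef_real hW hν0, io_smul]
    have hN' : (N : ℂ) ≠ 0 := by exact_mod_cast hN.ne'
    have hp : (π : ℂ) ≠ 0 := by exact_mod_cast Real.pi_ne_zero
    have hc2 : (ν : ℂ) ^ 2 = (N : ℂ)⁻¹ := by
      rw [← Complex.ofReal_pow, hν2]
      push_cast
      rfl
    unfold fN
    rw [hc2]
    congr 2
    · field_simp
    · congr 1
      push_cast
      rw [div_eq_mul_inv]
  simp only [h2] at h1
  rw [h1, Complex.real_smul, ← mul_assoc]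
  push_cast
  rw [mul_inv_cancel₀, one_mul]
  exact pow_ne_zero 3 (by exact_mod_cast hν0.ne')

lemma smul_mem {ν ρ : ℝ} (hν : 0 < ν) {t : ℝ × ℝ × ℝ} : t ∈ ν⁻¹ • Q3 ρ ↔ ν * ‖t‖ ≤ ρ := by
  rw [mem_inv_smul_set_iff₀ hν.ne', mem_Q3, norm_smul, Real.norm_eq_abs, abs_of_pos hν]

/-- the local integral, scaled -/
theorem loc_int (hL : S_LAP) (hW : Hyp W p₀ r B c) (h : HypH p₀ H r B c BH κ) {ρ : ℝ}
    (hρ : 0 < ρ) (hρ' : ρ ≤ κ * r / 4) (J : ℕ) : ∃ C : ℝ, ∀ᶠ N : ℕ in atTop,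
    ‖(N : ℂ) / (2 * π) * (∫ t in Q3 ρ, fN W p₀ H N (p₀ + io t)) -
      ((Real.sqrt N : ℝ) : ℂ)⁻¹ * ∑ j ∈ Finset.range J,
        (cf W p₀ H (2 * j) / (2 * π)) * ((N : ℂ)⁻¹) ^ j‖ ≤
      C * (Real.sqrt N)⁻¹ * ((N : ℝ)⁻¹) ^ J := by
  obtain ⟨C, hC⟩ := lap_apply hL hW h hρ (2 * J)
  refine ⟨C / (2 * π), ?_⟩
  have hr := hW.hr
  have hκ := h.hκ
  have hp := Real.pi_pos
  have e1 : ∀ᶠ N : ℕ in atTop, (Real.sqrt N)⁻¹ ≤ κ * r / 4 := by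
    have : Tendsto (fun N : ℕ => (Real.sqrt N)⁻¹) atTop (𝓝 0) :=
      tendsto_inv_atTop_zero.comp (Real.tendsto_sqrt_atTop.comp tendsto_natCast_atTop_atTop)
    exact (this.eventually_lt_const (by positivity)).mono (fun N hN => hN.le)
  filter_upwards [e1, eventually_gt_atTop 0] with N h1 hN
  have hNp : (0 : ℝ) < N := by exact_mod_cast hN
  have hs : 0 < Real.sqrt N := Real.sqrt_pos.2 hNp
  rw [scale hN hW ρ]
  set ν : ℝ := (Real.sqrt N)⁻¹ with hν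
  have hν0 : 0 < ν := by positivity
  have hν2 : ν ^ 2 = (N : ℝ)⁻¹ := by
    rw [hν, inv_pow, Real.sq_sqrt hNp.le]
  have hc2 : (ν : ℂ) ^ 2 = (N : ℂ)⁻¹ := by
      rw [← Complex.ofReal_pow, hν2]
      push_cast
      rfl
  have hN' : (N : ℂ) ≠ 0 := by exact_mod_cast hN.ne'
  have hνc : (ν : ℂ) ≠ 0 := by exact_mod_cast hν0.ne'
  have hpc : (π : ℂ) ≠ 0 := by exact_mod_cast Real.pi_ne_zero
  have h2 := hC ν (ν⁻¹ • Q3 ρ) hν0 ((Q3_compact ρ).smul ν⁻¹).isClosed.measurableSet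
    (fun t ht => by
      rw [smul_mem hν0] at ht
      unfold wt
      linarith)
    (fun t ht => by
      rw [smul_mem hν0, not_le] at ht
      unfold wt
      linarith)
  have h3 : ∑ j ∈ Finset.range (2 * J), (ν : ℂ) ^ j * cf W p₀ H j =
      ∑ j ∈ Finset.range J, cf W p₀ H (2 * j) * ((N : ℂ)⁻¹) ^ j := by
    clear h2 hC
    induction J with
    | zero => simp
    | succ J ih =>
      rw [show 2 * (J + 1) = 2 * J + 1 + 1 by ring, Finset.sum_range_succ, Finset.sum_range_succ,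
        Finset.sum_range_succ, ih, cf_odd hW (odd_two_mul_add_one J), mul_zero, add_zero, pow_mul,
        hc2]
      ring
  rw [h3] at h2
  set I := ∫ t in ν⁻¹ • Q3 ρ, Ef W p₀ H (ν : ℂ) t
  have h4 : (N : ℂ) / (2 * π) * ((((ν ^ 3 : ℝ)) : ℂ) * I) -
      ((Real.sqrt N : ℝ) : ℂ)⁻¹ * ∑ j ∈ Finset.range J,
        (cf W p₀ H (2 * j) / (2 * π)) * ((N : ℂ)⁻¹) ^ j =
      (ν : ℂ) / (2 * π) * (I - ∑ j ∈ Finset.range J, cf W p₀ H (2 * j) * ((N : ℂ)⁻¹) ^ j) := by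
    have e2 : ((Real.sqrt N : ℝ) : ℂ)⁻¹ = (ν : ℂ) := by rw [hν]; push_cast; rfl
    have e3 : (((ν ^ 3 : ℝ)) : ℂ) = (N : ℂ)⁻¹ * ν := by
      push_cast
      rw [← hc2]
      ring
    have e4 : ∑ j ∈ Finset.range J, (cf W p₀ H (2 * j) / (2 * π)) * ((N : ℂ)⁻¹) ^ j =
        (2 * π : ℂ)⁻¹ * ∑ j ∈ Finset.range J, cf W p₀ H (2 * j) * ((N : ℂ)⁻¹) ^ j := by
      rw [Finset.mul_sum]
      apply Finset.sum_congr rfl
      intro j _
      ring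
    rw [e2, e3, e4]
    field_simp
  rw [h4, norm_mul, norm_div, norm_mul, Complex.norm_real, Complex.norm_real, Complex.norm_ofNat,
    Real.norm_eq_abs, Real.norm_eq_abs, abs_of_pos hν0, abs_of_pos hp]
  calc ν / (2 * π) * ‖I - ∑ j ∈ Finset.range J, cf W p₀ H (2 * j) * ((N : ℂ)⁻¹) ^ j‖ ≤
      ν / (2 * π) * (C * ν ^ (2 * J)) := mul_le_mul_of_nonneg_left h2 (by positivity)
    _ = C / (2 * π) * ν * ((N : ℝ)⁻¹) ^ J := by
        rw [pow_mul, hν2]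
        ring

/-! ### the sum -/

lemma mem_real {ρ : ℝ} (hρ : 4 * ρ < r) {t : ℝ × ℝ × ℝ} (ht : ‖t‖ ≤ 2 * ρ) {b : ℝ}
    (hb : |b| < r / 4) : p₀ + io t + ((b : ℂ) * Complex.I) • ((1, 0, 0) : ℂ × ℂ × ℂ) ∈ ball p₀ r := by
  rw [mem_ball, dist_eq_norm]
  have e : p₀ + io t + ((b : ℂ) * Complex.I) • ((1, 0, 0) : ℂ × ℂ × ℂ) - p₀ =
      io t + ((b : ℂ) * Complex.I) • ((1, 0, 0) : ℂ × ℂ × ℂ) := by abel
  rw [e]
  have h1 : ‖((1, 0, 0) : ℂ × ℂ × ℂ)‖ = 1 := by simp [Prod.norm_def]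
  have h2 := norm_add_le (io t) (((b : ℂ) * Complex.I) • ((1, 0, 0) : ℂ × ℂ × ℂ))
  rw [norm_io, norm_smul, h1, mul_one, norm_mul, Complex.norm_I, mul_one, Complex.norm_real,
    Real.norm_eq_abs] at h2
  linarith [norm_nonneg t]

lemma norm_e1 : ‖((1, 0, 0) : ℂ × ℂ × ℂ)‖ ≤ 1 := by simp [Prod.norm_def]

/-- bound in the strip -/
lemma strip_bound (hW : Hyp W p₀ r B c) {N : ℕ} (hN : 0 < N)
    {t : ℝ × ℝ × ℝ} (ht : ‖t‖ < r / 4) {b : ℝ} (hb : |b| < Real.sqrt (2 * π / N))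
    (hN2 : Real.sqrt (2 * π / N) ≤ r / 4) :
    ((N : ℂ) / (2 * π) * (W (p₀ + io t + ((b : ℂ) * Complex.I) • ((1, 0, 0) : ℂ × ℂ × ℂ)) -
      W p₀)).re ≤ -(c / 2) * t.1 ^ 2 / (2 * π / N) +
        ((32 * B / r ^ 2) ^ 2 / (2 * c) + 32 * B / r ^ 2) := by
  have hp := Real.pi_pos
  have hNp : (0 : ℝ) < N := by exact_mod_cast hN
  have hr := hW.hr
  have hc := hW.hc
  set ε : ℝ := 2 * π / N with hε
  have hε0 : 0 < ε := by positivity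
  have hsε : 0 < Real.sqrt ε := Real.sqrt_pos.2 hε0
  have hsq : Real.sqrt ε ^ 2 = ε := Real.sq_sqrt hε0.le
  set K : ℝ := 32 * B / r ^ 2 with hK
  have hK0 : 0 ≤ K := by have := hW.hB0; positivity
  have h1 := strip (W := W) (p₀ := p₀) (e := (1, 0, 0)) (r := r) (B := B) norm_e1 hW.hB0 hW.hd hW.hB
    hW.h0 (p := p₀ + io t) (ζ := (b : ℂ) * Complex.I)
    (by
      have : p₀ + io t - p₀ = io t := by abel
      rw [this, norm_io]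
      exact ht)
    (by
      rw [norm_mul, Complex.norm_I, mul_one, Complex.norm_real, Real.norm_eq_abs]
      linarith)
  have e1 : p₀ + io t - p₀ = io t := by abel
  rw [e1, norm_io, norm_mul, Complex.norm_I, mul_one, Complex.norm_real, Real.norm_eq_abs] at h1
  have h2 := hW.hre t (by linarith)
  have h3 := Complex.re_le_norm (W (p₀ + io t + ((b : ℂ) * Complex.I) • ((1, 0, 0) : ℂ × ℂ × ℂ)) -
    W (p₀ + io t))
  have h4 : (W (p₀ + io t + ((b : ℂ) * Complex.I) • ((1, 0, 0) : ℂ × ℂ × ℂ)) - W p₀).re ≤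
      -c * sq t + K * |b| * (‖t‖ + |b|) := by
    have : (W (p₀ + io t + ((b : ℂ) * Complex.I) • ((1, 0, 0) : ℂ × ℂ × ℂ)) - W p₀).re =
        (W (p₀ + io t + ((b : ℂ) * Complex.I) • ((1, 0, 0) : ℂ × ℂ × ℂ)) - W (p₀ + io t)).re +
        ((W (p₀ + io t)).re - (W p₀).re) := by
      simp only [Complex.sub_re]
      ring
    rw [this]
    linarith
  have h5 : K * |b| * (‖t‖ + |b|) ≤ c / 2 * sq t + (K ^ 2 / (2 * c) + K) * ε := by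
    have g1 : K * |b| * (‖t‖ + |b|) ≤ K * Real.sqrt ε * (‖t‖ + Real.sqrt ε) := by
      apply mul_le_mul
      · exact mul_le_mul_of_nonneg_left hb.le hK0
      · linarith
      · positivity
      · positivity
    have g2 : K * Real.sqrt ε * ‖t‖ ≤ c / 2 * ‖t‖ ^ 2 + K ^ 2 / (2 * c) * ε := by
      have g3 : 0 ≤ (c * ‖t‖ - K * Real.sqrt ε) ^ 2 / (2 * c) := by positivity
      have g4 : (c * ‖t‖ - K * Real.sqrt ε) ^ 2 / (2 * c) =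
          c / 2 * ‖t‖ ^ 2 + K ^ 2 / (2 * c) * Real.sqrt ε ^ 2 - K * Real.sqrt ε * ‖t‖ := by
        field_simp
        ring
      rw [hsq] at g4
      linarith
    have g5 := mul_le_mul_of_nonneg_left (norm_sq_le t) (show 0 ≤ c / 2 by positivity)
    have g6 : K * Real.sqrt ε * (‖t‖ + Real.sqrt ε) =
        K * Real.sqrt ε * ‖t‖ + K * Real.sqrt ε ^ 2 := by ring
    rw [hsq] at g6
    linarith
  have h6 : t.1 ^ 2 ≤ sq t := by
    unfold sq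
    nlinarith [sq_nonneg t.2.1, sq_nonneg t.2.2]
  have e2 : (N : ℂ) / (2 * π) = ((ε⁻¹ : ℝ) : ℂ) := by
    rw [hε]
    push_cast
    rw [inv_div]
  rw [e2, Complex.re_ofReal_mul]
  have h7 : (W (p₀ + io t + ((b : ℂ) * Complex.I) • ((1, 0, 0) : ℂ × ℂ × ℂ)) - W p₀).re ≤
      -(c / 2) * t.1 ^ 2 + (K ^ 2 / (2 * c) + K) * ε := by
    have := mul_le_mul_of_nonneg_left h6 (show 0 ≤ c / 2 by positivity)
    linarith
  calc ε⁻¹ * (W (p₀ + io t + ((b : ℂ) * Complex.I) • ((1, 0, 0) : ℂ × ℂ × ℂ)) - W p₀).re ≤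
      ε⁻¹ * (-(c / 2) * t.1 ^ 2 + (K ^ 2 / (2 * c) + K) * ε) :=
        mul_le_mul_of_nonneg_left h7 (by positivity)
    _ = _ := by
        field_simp

end Pool.Agent.W707.FE.AT
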