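import Pool.Agent.W707.FE.AT3

/-! Laplace method at a critical point: the theorem. -/

set_option autoImplicit false

namespace Pool.Agent.W707.FE.AT

open Filter MeasureTheory Metric Set
open scoped Real Topology Nat Pointwise

variable {W : ℂ × ℂ × ℂ → ℂ} {p₀ : ℂ × ℂ × ℂ} {r B c : ℝ}
variable {H : ℂ × ℂ × ℂ × ℂ → ℂ} {BH κ : ℝ}

/-- `fN` is continuous on the ball and bounded in the strip -/
lemma fN_diffAt (hW : Hyp W p₀ r B c) (h : HypH p₀ H r B c BH κ) {N : ℕ}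
    (hN : 2 * π / N < r) (hN0 : 0 < N) {p : ℂ × ℂ × ℂ} (hp : p ∈ ball p₀ r) :
    DifferentiableAt ℂ (fN W p₀ H N) p := by
  have hmem : (((2 * π / N : ℝ) : ℂ), p) ∈ ball ((0 : ℂ), p₀) r := by
    rw [mem_ball, Prod.dist_eq, max_lt_iff]
    refine ⟨?_, by simpa [mem_ball] using hp⟩
    have : (0:ℝ) < N := by exact_mod_cast hN0
    rw [dist_eq_norm, sub_zero, Complex.norm_real, Real.norm_eq_abs,
      abs_of_nonneg (by have := Real.pi_pos; positivity)]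
    exact hN
  unfold fN
  have h1 : DifferentiableAt ℂ W p := hW.hd.differentiableAt (isOpen_ball.mem_nhds hp)
  have h2 : DifferentiableAt ℂ H (((2 * π / N : ℝ) : ℂ), p) :=
    h.hd.differentiableAt (isOpen_ball.mem_nhds hmem)
  have h3 : DifferentiableAt ℂ (fun p : ℂ × ℂ × ℂ => H (((2 * π / N : ℝ) : ℂ), p)) p :=
    DifferentiableAt.comp (g := H) (f := fun p : ℂ × ℂ × ℂ => (((2 * π / N : ℝ) : ℂ), p)) p h2
      (by fun_prop)
  exact ((h1.sub_const _).const_mul _).cexp.mul h3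

lemma fN_norm (h : HypH p₀ H r B c BH κ) {N : ℕ}
    (hN : 2 * π / N < r) (hN0 : 0 < N) {p : ℂ × ℂ × ℂ} (hp : p ∈ ball p₀ r) :
    ‖fN W p₀ H N p‖ ≤ Real.exp ((N : ℂ) / (2 * π) * (W p - W p₀)).re * BH := by
  have hmem : (((2 * π / N : ℝ) : ℂ), p) ∈ ball ((0 : ℂ), p₀) r := by
    rw [mem_ball, Prod.dist_eq, max_lt_iff]
    refine ⟨?_, by simpa [mem_ball] using hp⟩
    have : (0:ℝ) < N := by exact_mod_cast hN0
    rw [dist_eq_norm, sub_zero, Complex.norm_real, Real.norm_eq_abs,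
      abs_of_nonneg (by have := Real.pi_pos; positivity)]
    exact hN
  unfold fN
  rw [norm_mul, Complex.norm_exp]
  exact mul_le_mul_of_nonneg_left (h.hB _ hmem) (Real.exp_pos _).le

/-- the index set -/
noncomputable def idx (α₀ ρ : ℝ) (N : ℕ) : Finset ℕ :=
  (Finset.range N).filter (fun d : ℕ => |2 * π * d / N - α₀| ≤ ρ)

lemma mem_idx {α₀ ρ : ℝ} {N : ℕ} (hN : 0 < N) (h : α₀ + ρ < 2 * π) (d : ℕ) :
    d ∈ idx α₀ ρ N ↔ |2 * π / N * d - α₀| ≤ ρ := by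
  have hp := Real.pi_pos
  have hNp : (0 : ℝ) < N := by exact_mod_cast hN
  unfold idx
  have e : 2 * π / N * d = 2 * π * d / N := by ring
  rw [Finset.mem_filter, Finset.mem_range, e]
  refine ⟨fun h => h.2, fun h1 => ⟨?_, h1⟩⟩
  have h2 := (abs_le.1 h1).2
  have h3 : 2 * π * d / N < 2 * π := by linarith
  rw [div_lt_iff₀ hNp] at h3
  have h4 : (d : ℝ) < N := by nlinarith
  exact_mod_cast h4

/-- the sum over the lattice against the integral, pointwise in the other variables -/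
theorem lat_apply (hLat : S_LAT) {α₀ : ℝ} {ψ₀ χ₀ : ℂ} (hα : r ≤ α₀) (hα2 : α₀ + r ≤ π)
    (hW : Hyp W ((α₀ : ℂ), ψ₀, χ₀) r B c) (h : HypH ((α₀ : ℂ), ψ₀, χ₀) H r B c BH κ) {ρ : ℝ}
    (hρ : 0 < ρ) (hρ' : 16 * ρ ≤ r) (K : ℕ) : ∃ C : ℝ, ∀ᶠ N : ℕ in atTop, ∀ u : ℝ × ℝ,
    u ∈ Icc (-ρ) ρ ×ˢ Icc (-ρ) ρ →
    ‖(∑ d ∈ idx α₀ ρ N, fN W ((α₀ : ℂ), ψ₀, χ₀) H N
        (((2 * π * d / N : ℝ) : ℂ), ψ₀ + u.1, χ₀ + u.2)) -
      (N : ℂ) / (2 * π) * ∫ s in Icc (-ρ) ρ, fN W ((α₀ : ℂ), ψ₀, χ₀) H N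
        (((α₀ : ℂ), ψ₀, χ₀) + io (s, u))‖ ≤ C * ((N : ℝ)⁻¹) ^ K := by
  have hp := Real.pi_pos
  have hr := hW.hr
  have hc := hW.hc
  obtain ⟨C, ε₀, hε₀, hC⟩ := hLat α₀ ρ (c / 2) hρ (by linarith) (by positivity) K
  set K' := (32 * B / r ^ 2) ^ 2 / (2 * c) + 32 * B / r ^ 2 with hK'
  refine ⟨C * (Real.exp K' * BH) * (2 * π) ^ K, ?_⟩
  have t1 : Tendsto (fun N : ℕ => 2 * π / (N : ℝ)) atTop (𝓝 0) :=
    tendsto_const_div_atTop_nhds_zero_nat _
  have e1 : ∀ᶠ N : ℕ in atTop, 2 * π / (N : ℝ) < ε₀ := t1.eventually_lt_const hε₀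
  have e2 : ∀ᶠ N : ℕ in atTop, 2 * π / (N : ℝ) < r := t1.eventually_lt_const hr
  have e3 : ∀ᶠ N : ℕ in atTop, Real.sqrt (2 * π / (N : ℝ)) < r / 4 := by
    have : Tendsto (fun N : ℕ => Real.sqrt (2 * π / (N : ℝ))) atTop (𝓝 0) := by
      have := (Real.continuous_sqrt.tendsto 0).comp t1
      rw [Real.sqrt_zero] at this
      exact this
    exact this.eventually_lt_const (by positivity)
  filter_upwards [e1, e2, e3, eventually_gt_atTop 0] with N h1 h2 h3 hN u hu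
  have hNp : (0 : ℝ) < N := by exact_mod_cast hN
  have hu1 : |u.1| ≤ ρ := abs_le.2 hu.1
  have hu2 : |u.2| ≤ ρ := abs_le.2 hu.2
  set F : ℂ → ℂ := fun a => fN W ((α₀ : ℂ), ψ₀, χ₀) H N (a, ψ₀ + u.1, χ₀ + u.2) with hF
  have key := hC F (2 * π / N) (Real.exp K' * BH) (idx α₀ ρ N) (by positivity) h1.le
    (mul_nonneg (Real.exp_pos _).le h.hBH) (mem_idx hN (by linarith)) ?_
  · have a1 : ∑ d ∈ idx α₀ ρ N, F ((2 * π / N * d : ℝ) : ℂ) =
        ∑ d ∈ idx α₀ ρ N, fN W ((α₀ : ℂ), ψ₀, χ₀) H N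
          (((2 * π * d / N : ℝ) : ℂ), ψ₀ + u.1, χ₀ + u.2) := by
      apply Finset.sum_congr rfl
      intro d _
      have : 2 * π / N * d = 2 * π * d / N := by ring
      rw [this]
    have a2 : (((2 * π / N : ℝ)) : ℂ)⁻¹ = (N : ℂ) / (2 * π) := by
      push_cast
      rw [inv_div]
    have a3 : ∫ x in (α₀ - ρ)..(α₀ + ρ), F x = ∫ s in Icc (-ρ) ρ, fN W ((α₀ : ℂ), ψ₀, χ₀) H N
        (((α₀ : ℂ), ψ₀, χ₀) + io (s, u)) := by
      rw [integral_Icc_eq_integral_Ioc, ← intervalIntegral.integral_of_le (by linarith)]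
      have b1 := intervalIntegral.integral_comp_add_left (fun x : ℝ => F x) α₀ (a := -ρ) (b := ρ)
      have b2 : α₀ + -ρ = α₀ - ρ := by ring
      rw [b2] at b1
      rw [← b1]
      apply intervalIntegral.integral_congr
      intro s _
      simp only [hF, io, Prod.mk_add_mk]
      push_cast
      rfl
    rw [a1, a2, a3] at key
    refine key.trans (le_of_eq ?_)
    rw [div_eq_mul_inv, mul_pow]
    ring
  · intro x y hx hy
    set t : ℝ × ℝ × ℝ := (x - α₀, u) with ht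
    have hnt : ‖t‖ ≤ 2 * ρ := by
      rw [ht, Prod.norm_def, Prod.norm_def]
      simp only [Real.norm_eq_abs]
      exact max_le hx.le (max_le (by linarith) (by linarith))
    have hpt : ((α₀ : ℂ), ψ₀, χ₀) + io t + ((y : ℂ) * Complex.I) • ((1, 0, 0) : ℂ × ℂ × ℂ) =
        ((x : ℂ) + y * Complex.I, ψ₀ + u.1, χ₀ + u.2) := by
      simp only [ht, io, Prod.mk_add_mk, Prod.smul_mk, smul_eq_mul, mul_one, mul_zero, add_zero]
      push_cast
      congr 1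
      ring
    have hmem : ((x : ℂ) + y * Complex.I, ψ₀ + (u.1 : ℂ), χ₀ + (u.2 : ℂ)) ∈
        ball ((α₀ : ℂ), ψ₀, χ₀) r := by
      rw [← hpt]
      exact mem_real (by linarith) hnt (by linarith)
    constructor
    · have h5 := fN_diffAt (H := H) hW h h2 hN hmem
      exact DifferentiableAt.comp (g := fN W ((α₀ : ℂ), ψ₀, χ₀) H N)
        (f := fun a : ℂ => (a, ψ₀ + (u.1 : ℂ), χ₀ + (u.2 : ℂ))) ((x : ℂ) + y * Complex.I) h5
        (by fun_prop)
    · have h5 := fN_norm (W := W) (H := H) h h2 hN hmem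
      refine le_trans h5 ?_
      have h6 := strip_bound hW hN (t := t) (by linarith) hy h3.le
      rw [hpt] at h6
      have h7 : Real.exp ((N : ℂ) / (2 * π) * (W ((x : ℂ) + y * Complex.I, ψ₀ + (u.1 : ℂ),
          χ₀ + (u.2 : ℂ)) - W ((α₀ : ℂ), ψ₀, χ₀))).re ≤
          Real.exp K' * Real.exp (-(c / 2) * (x - α₀) ^ 2 / (2 * π / N)) := by
        rw [← Real.exp_add]
        apply Real.exp_le_exp.2
        have : t.1 = x - α₀ := rfl
        rw [this] at h6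
        linarith
      calc _ ≤ Real.exp K' * Real.exp (-(c / 2) * (x - α₀) ^ 2 / (2 * π / N)) * BH :=
            mul_le_mul_of_nonneg_right h7 h.hBH
        _ = _ := by ring

/-- iterated interval integrals over a square -/
lemma ii_eq {f : ℝ → ℝ → ℂ} {ρ : ℝ} (hρ : 0 < ρ)
    (hf : ContinuousOn (fun u : ℝ × ℝ => f u.1 u.2) (Icc (-ρ) ρ ×ˢ Icc (-ρ) ρ)) :
    ∫ x in (-ρ)..ρ, ∫ y in (-ρ)..ρ, f x y =
      ∫ u in Icc (-ρ) ρ ×ˢ Icc (-ρ) ρ, f u.1 u.2 := by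
  have hi : IntegrableOn (fun u : ℝ × ℝ => f u.1 u.2) (Icc (-ρ) ρ ×ˢ Icc (-ρ) ρ) :=
    hf.integrableOn_compact (isCompact_Icc.prod isCompact_Icc)
  rw [show (volume : Measure (ℝ × ℝ)) = (volume : Measure ℝ).prod volume from rfl] at hi ⊢
  rw [setIntegral_prod _ hi, intervalIntegral.integral_of_le (by linarith),
    ← integral_Icc_eq_integral_Ioc]
  apply setIntegral_congr_fun measurableSet_Icc
  intro x _
  simp only
  rw [intervalIntegral.integral_of_le (by linarith), ← integral_Icc_eq_integral_Ioc]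

/-- Fubini on the cube -/
lemma cube_eq {f : ℝ × ℝ × ℝ → ℂ} {ρ : ℝ} (hf : ContinuousOn f (Q3 ρ)) :
    ∫ t in Q3 ρ, f t = ∫ u in Icc (-ρ) ρ ×ˢ Icc (-ρ) ρ, ∫ s in Icc (-ρ) ρ, f (s, u) := by
  have hi : IntegrableOn f (Q3 ρ) := hf.integrableOn_compact (Q3_compact ρ)
  unfold Q3 at hi ⊢
  rw [show (volume : Measure (ℝ × ℝ × ℝ)) = (volume : Measure ℝ).prod volume from rfl] at hi ⊢
  rw [IntegrableOn, ← Measure.prod_restrict] at hi
  rw [← Measure.prod_restrict, integral_prod_symm _ hi]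

theorem at_main (hLat : S_LAT) (hLap : S_LAP) : S_AT := by
  intro W α₀ ψ₀ χ₀ r c hr hα hα2 hc hd h0 hre
  have hp := Real.pi_pos
  set p₀ : ℂ × ℂ × ℂ := ((α₀ : ℂ), ψ₀, χ₀) with hp₀
  -- a bound for `W`
  obtain ⟨B, hB⟩ : ∃ B, ∀ q ∈ closedBall p₀ (r / 2), ‖W q - W p₀‖ ≤ B := by
    have hsub : closedBall p₀ (r / 2) ⊆ ball p₀ r := closedBall_subset_ball (by linarith)
    exact (isCompact_closedBall p₀ (r / 2)).exists_bound_of_continuousOn
      ((hd.continuousOn.mono hsub).sub continuousOn_const)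
  have hB0 : 0 ≤ B := le_trans (norm_nonneg _) (hB p₀ (mem_closedBall_self (by linarith)))
  have hW : Hyp W p₀ (r / 2) B c :=
    { hr := by linarith
      hB0 := hB0
      hc := hc
      hd := hd.mono (ball_subset_ball (by linarith))
      hB := fun q hq => hB q (ball_subset_closedBall hq)
      h0 := h0
      hre := by
        intro t ht
        have h1 : |t.1| ≤ ‖t‖ := norm_fst_le t
        have h2 : ‖t.2‖ ≤ ‖t‖ := norm_snd_le t
        have h3 : |t.2.1| ≤ ‖t.2‖ := norm_fst_le t.2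
        have h4 : |t.2.2| ≤ ‖t.2‖ := norm_snd_le t.2
        have := hre t.1 t.2.1 t.2.2 (by linarith) (by linarith) (by linarith)
        exact this }
  -- the size of the disc
  obtain ⟨κ, hκ, hκ1, hκ2, hκ3⟩ : ∃ κ : ℝ, 0 < κ ∧ κ ≤ 1 ∧ 2 * B * κ ≤ c / 2 * (r / 2) ^ 2 ∧
      2 * π * (κ * (r / 2)) ^ 2 < r / 2 := by
    refine ⟨min 1 (min (c * (r / 2) ^ 2 / (4 * (B + 1))) (1 / (2 * π * (r / 2) + 1))),
      lt_min one_pos (lt_min (by positivity) (by positivity)), min_le_left _ _, ?_, ?_⟩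
    · have h1 : min 1 (min (c * (r / 2) ^ 2 / (4 * (B + 1))) (1 / (2 * π * (r / 2) + 1))) ≤
        c * (r / 2) ^ 2 / (4 * (B + 1)) := le_trans (min_le_right _ _) (min_le_left _ _)
      calc _ ≤ 2 * B * (c * (r / 2) ^ 2 / (4 * (B + 1))) :=
            mul_le_mul_of_nonneg_left h1 (by positivity)
        _ = c / 2 * (r / 2) ^ 2 * (B / (B + 1)) := by
            field_simp
            ring
        _ ≤ c / 2 * (r / 2) ^ 2 * 1 := by
            apply mul_le_mul_of_nonneg_left _ (by positivity)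
            rw [div_le_one (by positivity)]
            linarith
        _ = _ := by ring
    · set κ := min 1 (min (c * (r / 2) ^ 2 / (4 * (B + 1))) (1 / (2 * π * (r / 2) + 1))) with hk
      have hk0 : 0 < κ := lt_min one_pos (lt_min (by positivity) (by positivity))
      have h1 : κ ≤ 1 / (2 * π * (r / 2) + 1) := le_trans (min_le_right _ _) (min_le_right _ _)
      have h2 : κ ≤ 1 := min_le_left _ _
      have h3 : κ ^ 2 ≤ κ := by nlinarith
      rw [le_div_iff₀ (by positivity)] at h1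
      have h4 : κ * (2 * π * (r / 2)) < 1 := by linarith
      calc 2 * π * (κ * (r / 2)) ^ 2 = κ ^ 2 * (2 * π * (r / 2)) * (r / 2) := by ring
        _ ≤ κ * (2 * π * (r / 2)) * (r / 2) := by
            apply mul_le_mul_of_nonneg_right _ (by linarith)
            apply mul_le_mul_of_nonneg_right h3 (by positivity)
        _ < 1 * (r / 2) := mul_lt_mul_of_pos_right h4 (by linarith)
        _ = r / 2 := one_mul _
  refine ⟨κ * (r / 2) / 16, by positivity, ?_⟩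
  intro ρ hρ hρ' H hHd hHB
  obtain ⟨BH, hBH⟩ := hHB
  have hBH0 : 0 ≤ BH := le_trans (norm_nonneg _) (hBH _ (mem_ball_self hr))
  have hsubH : ball ((0 : ℂ), p₀) (r / 2) ⊆ ball ((0 : ℂ), p₀) r := ball_subset_ball (by linarith)
  have hH : HypH p₀ H (r / 2) B c BH κ :=
    { hBH := hBH0
      hd := hHd.mono hsubH
      hB := fun q hq => hBH q (hsubH hq)
      hκ := hκ
      hκ1 := hκ1
      hκ2 := hκ2
      hκ3 := hκ3 }
  have hρr : 16 * ρ ≤ r / 2 := by nlinarith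
  have hρκ : ρ ≤ κ * (r / 2) / 4 := by
    have : 0 < κ * (r / 2) := by positivity
    linarith
  refine ⟨fun j => cf W p₀ H (2 * j) / (2 * π), ?_, ?_⟩
  · show cf W p₀ H (2 * 0) / (2 * π) = _
    rw [mul_zero, cf_zero hW]
    have e : ∀ (t : ℝ × ℝ × ℝ) (z : ℂ), W (p₀ + z • io t) =
        W ((α₀ : ℂ) + z * t.1, ψ₀ + z * t.2.1, χ₀ + z * t.2.2) := by
      intro t z
      rfl
    simp only [e]
    ring
  · intro J
    obtain ⟨C1, h1⟩ := loc_int hLap hW hH hρ hρκ J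
    obtain ⟨C2, h2⟩ := lat_apply hLat (by linarith) (by linarith) hW hH hρ hρr (J + 1)
    refine ⟨C1 + C2 * (2 * ρ) ^ 2, ?_⟩
    have t1 : Tendsto (fun N : ℕ => 2 * π / (N : ℝ)) atTop (𝓝 0) :=
      tendsto_const_div_atTop_nhds_zero_nat _
    have e2 : ∀ᶠ N : ℕ in atTop, 2 * π / (N : ℝ) < r / 2 :=
      t1.eventually_lt_const (by linarith)
    filter_upwards [h1, h2, e2, eventually_gt_atTop 0] with N h1 h2 h3 hN
    have hNp : (0 : ℝ) < N := by exact_mod_cast hN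
    have hN1 : (1 : ℝ) ≤ N := by exact_mod_cast hN
    -- continuity
    have hcont3 : ContinuousOn (fun t : ℝ × ℝ × ℝ => fN W p₀ H N (p₀ + io t)) (Q3 ρ) := by
      intro t ht
      rw [mem_Q3] at ht
      have hm : p₀ + io t ∈ ball p₀ (r / 2) := by
        rw [mem_ball, dist_eq_norm]
        have : p₀ + io t - p₀ = io t := by abel
        rw [this, norm_io]
        linarith
      have := (fN_diffAt (H := H) hW hH h3 hN hm).continuousAt
      have hc : ContinuousAt (fun t : ℝ × ℝ × ℝ => p₀ + io t) t :=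
        (continuous_const.add io_cont).continuousAt
      exact (ContinuousAt.comp (g := fN W p₀ H N) (f := fun t : ℝ × ℝ × ℝ => p₀ + io t) this
        hc).continuousWithinAt
    have hcont2 : ∀ d ∈ idx α₀ ρ N, ContinuousOn (fun u : ℝ × ℝ => fN W p₀ H N
        (((2 * π * d / N : ℝ) : ℂ), ψ₀ + u.1, χ₀ + u.2)) (Icc (-ρ) ρ ×ˢ Icc (-ρ) ρ) := by
      intro d hd u hu
      have hd2 := (Finset.mem_filter.1 hd).2
      set t : ℝ × ℝ × ℝ := (2 * π * d / N - α₀, u) with ht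
      have hnt : ‖t‖ ≤ ρ := by
        rw [ht, Prod.norm_def, Prod.norm_def]
        simp only [Real.norm_eq_abs]
        exact max_le hd2 (max_le (abs_le.2 hu.1) (abs_le.2 hu.2))
      have hpt : p₀ + io t = (((2 * π * d / N : ℝ) : ℂ), ψ₀ + (u.1 : ℂ), χ₀ + (u.2 : ℂ)) := by
        simp only [hp₀, ht, io, Prod.mk_add_mk]
        congr 1
        push_cast
        ring
      have hm : (((2 * π * d / N : ℝ) : ℂ), ψ₀ + (u.1 : ℂ), χ₀ + (u.2 : ℂ)) ∈ ball p₀ (r / 2) := by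
        rw [← hpt, mem_ball, dist_eq_norm]
        have : p₀ + io t - p₀ = io t := by abel
        rw [this, norm_io]
        linarith
      have := (fN_diffAt (H := H) hW hH h3 hN hm).continuousAt
      have hc : ContinuousAt (fun u : ℝ × ℝ =>
          ((((2 * π * d / N : ℝ) : ℂ), ψ₀ + (u.1 : ℂ), χ₀ + (u.2 : ℂ)) : ℂ × ℂ × ℂ)) u := by
        apply Continuous.continuousAt
        fun_prop
      exact (ContinuousAt.comp (g := fN W p₀ H N) (f := fun u : ℝ × ℝ =>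
          ((((2 * π * d / N : ℝ) : ℂ), ψ₀ + (u.1 : ℂ), χ₀ + (u.2 : ℂ)) : ℂ × ℂ × ℂ)) this
        hc).continuousWithinAt
    have hsq : IsCompact (Icc (-ρ) ρ ×ˢ Icc (-ρ) ρ : Set (ℝ × ℝ)) :=
      isCompact_Icc.prod isCompact_Icc
    -- the sum as an integral over the square
    have hsum : (∑ d ∈ (Finset.range N).filter (fun d : ℕ => |2 * π * d / N - α₀| ≤ ρ),
        ∫ x in (-ρ)..ρ, ∫ y in (-ρ)..ρ,
          Complex.exp ((N : ℂ) / (2 * π) * (W (((2 * π * d / N : ℝ) : ℂ), ψ₀ + x, χ₀ + y) -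
            W p₀)) *
          H (((2 * π / N : ℝ) : ℂ), ((2 * π * d / N : ℝ) : ℂ), ψ₀ + x, χ₀ + y)) =
        ∫ u in Icc (-ρ) ρ ×ˢ Icc (-ρ) ρ, ∑ d ∈ idx α₀ ρ N, fN W p₀ H N
          (((2 * π * d / N : ℝ) : ℂ), ψ₀ + u.1, χ₀ + u.2) := by
      rw [integral_finsetSum]
      · apply Finset.sum_congr rfl
        intro d hd
        exact ii_eq (f := fun x y => fN W p₀ H N (((2 * π * d / N : ℝ) : ℂ), ψ₀ + x, χ₀ + y)) hρ
          (hcont2 d hd)
      · intro d hd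
        exact (hcont2 d hd).integrableOn_compact hsq
    rw [hsum]
    rw [cube_eq hcont3] at h1
    have hI1 : IntegrableOn (fun u : ℝ × ℝ => ∑ d ∈ idx α₀ ρ N, fN W p₀ H N
          (((2 * π * d / N : ℝ) : ℂ), ψ₀ + u.1, χ₀ + u.2)) (Icc (-ρ) ρ ×ˢ Icc (-ρ) ρ) := by
      apply integrable_finsetSum
      intro d hd
      exact (hcont2 d hd).integrableOn_compact hsq
    have hI2 : IntegrableOn (fun u : ℝ × ℝ => (N : ℂ) / (2 * π) *
        ∫ s in Icc (-ρ) ρ, fN W p₀ H N (p₀ + io (s, u))) (Icc (-ρ) ρ ×ˢ Icc (-ρ) ρ) := by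
      have hi : IntegrableOn (fun t : ℝ × ℝ × ℝ => fN W p₀ H N (p₀ + io t)) (Q3 ρ) :=
        hcont3.integrableOn_compact (Q3_compact ρ)
      unfold Q3 at hi
      rw [show (volume : Measure (ℝ × ℝ × ℝ)) = (volume : Measure ℝ).prod volume from rfl] at hi
      rw [IntegrableOn, ← Measure.prod_restrict] at hi
      exact hi.integral_prod_right.const_mul _
    have hdiff : ‖(∫ u in Icc (-ρ) ρ ×ˢ Icc (-ρ) ρ, ∑ d ∈ idx α₀ ρ N, fN W p₀ H N
          (((2 * π * d / N : ℝ) : ℂ), ψ₀ + u.1, χ₀ + u.2)) -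
        (N : ℂ) / (2 * π) * ∫ u in Icc (-ρ) ρ ×ˢ Icc (-ρ) ρ,
          ∫ s in Icc (-ρ) ρ, fN W p₀ H N (p₀ + io (s, u))‖ ≤
        C2 * ((N : ℝ)⁻¹) ^ (J + 1) * (2 * ρ) ^ 2 := by
      rw [← integral_const_mul, ← integral_sub hI1 hI2]
      have hfin : volume (Icc (-ρ) ρ ×ˢ Icc (-ρ) ρ : Set (ℝ × ℝ)) < ⊤ := hsq.measure_lt_top
      have := norm_setIntegral_le_of_norm_le_const (μ := (volume : Measure (ℝ × ℝ))) hfin
        (fun u hu => h2 u hu)
      refine this.trans (le_of_eq ?_)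
      congr 1
      rw [measureReal_def, show (volume : Measure (ℝ × ℝ)) = (volume : Measure ℝ).prod volume from rfl,
        Measure.prod_prod, Real.volume_Icc, ← ENNReal.ofReal_mul (by linarith),
        ENNReal.toReal_ofReal (by nlinarith)]
      ring
    set T := ∫ u in Icc (-ρ) ρ ×ˢ Icc (-ρ) ρ, ∑ d ∈ idx α₀ ρ N, fN W p₀ H N
          (((2 * π * d / N : ℝ) : ℂ), ψ₀ + u.1, χ₀ + u.2)
    set U := ∫ u in Icc (-ρ) ρ ×ˢ Icc (-ρ) ρ, ∫ s in Icc (-ρ) ρ, fN W p₀ H N (p₀ + io (s, u))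
    set V := ((Real.sqrt N : ℝ) : ℂ)⁻¹ * ∑ j ∈ Finset.range J,
        (cf W p₀ H (2 * j) / (2 * π)) * ((N : ℂ)⁻¹) ^ j
    have htri : T - V = (T - (N : ℂ) / (2 * π) * U) + ((N : ℂ) / (2 * π) * U - V) := by ring
    rw [htri]
    refine (norm_add_le _ _).trans ?_
    have hC2 : 0 ≤ C2 * ((N : ℝ)⁻¹) ^ (J + 1) := by
      have := h2 (0, 0) ⟨⟨by linarith, hρ.le⟩, ⟨by linarith, hρ.le⟩⟩
      exact le_trans (norm_nonneg _) this
    have hC2' : 0 ≤ C2 := by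
      have : 0 < ((N : ℝ)⁻¹) ^ (J + 1) := by positivity
      by_contra hneg
      push Not at hneg
      nlinarith
    have hsN : (N : ℝ)⁻¹ ≤ (Real.sqrt N)⁻¹ := by
      apply inv_anti₀ (Real.sqrt_pos.2 hNp)
      rw [Real.sqrt_le_left hNp.le]
      nlinarith
    have h5 : C2 * ((N : ℝ)⁻¹) ^ (J + 1) * (2 * ρ) ^ 2 ≤
        C2 * (2 * ρ) ^ 2 * (Real.sqrt N)⁻¹ * ((N : ℝ)⁻¹) ^ J := by
      have e : C2 * ((N : ℝ)⁻¹) ^ (J + 1) * (2 * ρ) ^ 2 =
          C2 * (2 * ρ) ^ 2 * (N : ℝ)⁻¹ * ((N : ℝ)⁻¹) ^ J := by ring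
      rw [e]
      apply mul_le_mul_of_nonneg_right _ (by positivity)
      apply mul_le_mul_of_nonneg_left hsN (by positivity)
    calc _ ≤ C2 * ((N : ℝ)⁻¹) ^ (J + 1) * (2 * ρ) ^ 2 +
          C1 * (Real.sqrt N)⁻¹ * ((N : ℝ)⁻¹) ^ J := add_le_add hdiff h1
      _ ≤ C2 * (2 * ρ) ^ 2 * (Real.sqrt N)⁻¹ * ((N : ℝ)⁻¹) ^ J +
          C1 * (Real.sqrt N)⁻¹ * ((N : ℝ)⁻¹) ^ J := by linarith
      _ = _ := by ring

end Pool.Agent.W707.FE.AT
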