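import Pool.Agent.W707.FE.Main

/-! Consequences of the expansion: logarithm and ratios. -/

set_option autoImplicit false

namespace Pool.Agent.W707.FE.Cor

open Filter Finset EvenVol Pool.Agent.H112R4.VL Pool.Agent.W709.VC Pool.Agent.W707.FE
open scoped Real Topology

/-- the logarithm of the invariant up to `O(1/N^2)` -/
theorem log_expansion {A : ℕ} {α₀ b₀ η : ℝ} (hA : 4 ≤ A) (hC : Crit ((A : ℝ) / 2) α₀ b₀ η) :
    ∃ c₀ c₁ C : ℝ, 0 ≤ C ∧ ∀ᶠ N : ℕ in atTop, 0 < kap A N ∧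
      |Real.log (kap A N) - (pot ((A : ℝ) / 2) α₀ b₀ η / (2 * π) * N + 3 / 2 * Real.log N + c₀ +
        c₁ / N)| ≤ C / (N : ℝ) ^ 2 := by
  have hp := Real.pi_pos
  obtain ⟨a, ha0, ha⟩ := Fin.expansion hA hC
  obtain ⟨C, hC2⟩ := ha 2
  set V := pot ((A : ℝ) / 2) α₀ b₀ η with hV
  set K : ℝ := (|a 1| + |C|) / a 0 with hK
  have hK0 : 0 ≤ K := by positivity
  have e1 : ∀ᶠ N : ℕ in atTop, K / N < 1 / 2 := by
    have : Tendsto (fun N : ℕ => K / (N : ℝ)) atTop (𝓝 0) := tendsto_const_div_atTop_nhds_zero_nat _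
    exact this.eventually_lt_const (by norm_num)
  refine ⟨Real.log (a 0), a 1 / a 0, |C| / a 0 + 2 * K ^ 2, by positivity, ?_⟩
  filter_upwards [hC2, e1, eventually_gt_atTop 0] with N hN h1 hN0
  have hNp : (0 : ℝ) < N := by exact_mod_cast hN0
  have hN1 : (1 : ℝ) ≤ N := by exact_mod_cast hN0
  have hs : 0 < Real.sqrt N := Real.sqrt_pos.2 hNp
  set D : ℝ := N * Real.sqrt N * Real.exp ((N : ℝ) / (2 * π) * V) with hD
  have hD0 : 0 < D := by positivity
  rw [Finset.sum_range_succ, Finset.sum_range_one, pow_zero, mul_one, pow_one] at hN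
  set f := Fin.fNorm A V N with hf
  set u : ℝ := f / a 0 - 1 with hu
  have hu1 : |u - a 1 / a 0 / N| ≤ |C| / a 0 / (N : ℝ) ^ 2 := by
    have e : u - a 1 / a 0 / N = (f - (a 0 + a 1 * (N : ℝ)⁻¹)) / a 0 := by
      rw [hu]
      field_simp
      ring
    rw [e, abs_div, abs_of_pos ha0]
    rw [div_le_iff₀ ha0]
    refine hN.trans ?_
    have : C * ((N : ℝ)⁻¹) ^ 2 ≤ |C| * ((N : ℝ)⁻¹) ^ 2 :=
      mul_le_mul_of_nonneg_right (le_abs_self C) (by positivity)
    refine this.trans (le_of_eq ?_)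
    field_simp
  have hu2 : |u| ≤ K / N := by
    have h2 : |u| ≤ |u - a 1 / a 0 / N| + |a 1 / a 0 / N| := by
      have := abs_add_le (u - a 1 / a 0 / N) (a 1 / a 0 / N)
      simpa using this
    have h3 : |a 1 / a 0 / N| = |a 1| / a 0 / N := by
      rw [abs_div, abs_div, abs_of_pos ha0, abs_of_pos hNp]
    have h4 : |C| / a 0 / (N : ℝ) ^ 2 ≤ |C| / a 0 / N := by
      apply div_le_div_of_nonneg_left (by positivity) hNp
      nlinarith
    have h5 : K / N = |C| / a 0 / N + |a 1| / a 0 / N := by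
      rw [hK]
      ring
    rw [h5]
    linarith
  have hu3 : |u| < 1 / 2 := lt_of_le_of_lt hu2 h1
  have hfpos : 0 < f := by
    have h2 := (abs_lt.1 hu3).1
    have h3 : 0 < f / a 0 := by linarith
    exact (div_pos_iff_of_pos_right ha0).1 h3
  have hkap : kap A N = f * D := by
    rw [hf]
    unfold Fin.fNorm
    rw [← hD]
    field_simp
  have hlogD : Real.log D = V / (2 * π) * N + 3 / 2 * Real.log N := by
    rw [hD, Real.log_mul (by positivity) (Real.exp_ne_zero _), Real.log_mul (by positivity)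
      (by positivity), Real.log_exp, Real.log_sqrt hNp.le]
    ring
  refine ⟨by rw [hkap]; positivity, ?_⟩
  have hlogf : Real.log f = Real.log (a 0) + Real.log (1 + u) := by
    have : f = a 0 * (1 + u) := by
      rw [hu]
      field_simp
      ring
    rw [this, Real.log_mul ha0.ne' (by linarith [(abs_lt.1 hu3).1])]
  rw [hkap, Real.log_mul hfpos.ne' hD0.ne', hlogD, hlogf]
  have h6 : |Real.log (1 + u) - u| ≤ 2 * K ^ 2 / (N : ℝ) ^ 2 := by
    have h7 := Real.abs_log_sub_add_sum_range_le (x := -u) (by rw [abs_neg]; linarith) 1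
    rw [Finset.sum_range_one] at h7
    simp only [zero_add, pow_one, Nat.cast_zero, div_one, sub_neg_eq_add, abs_neg] at h7
    have h8 : |Real.log (1 + u) - u| = |-u + Real.log (1 + u)| := by
      congr 1
      ring
    rw [h8]
    refine h7.trans ?_
    have h9 : |u| ^ (1 + 1) / (1 - |u|) ≤ 2 * |u| ^ 2 := by
      rw [div_le_iff₀ (by linarith)]
      have h12 : 0 ≤ |u| ^ 2 := by positivity
      have h13 : |u| ^ (1 + 1) = |u| ^ 2 := by norm_num
      rw [h13]
      nlinarith [mul_nonneg h12 (show 0 ≤ 1 / 2 - |u| by linarith)]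
    refine h9.trans ?_
    have h10 : |u| ^ 2 ≤ (K / N) ^ 2 := pow_le_pow_left₀ (abs_nonneg u) hu2 2
    calc 2 * |u| ^ 2 ≤ 2 * (K / N) ^ 2 := by linarith
      _ = 2 * K ^ 2 / (N : ℝ) ^ 2 := by ring
  have e2 : Real.log (a 0) + Real.log (1 + u) + (V / (2 * π) * N + 3 / 2 * Real.log N) -
      (V / (2 * π) * N + 3 / 2 * Real.log N + Real.log (a 0) + a 1 / a 0 / N) =
      (Real.log (1 + u) - u) + (u - a 1 / a 0 / N) := by ring
  rw [e2]
  refine (abs_add_le _ _).trans ?_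
  calc _ ≤ 2 * K ^ 2 / (N : ℝ) ^ 2 + |C| / a 0 / (N : ℝ) ^ 2 := add_le_add h6 hu1
    _ = _ := by ring

/-- ratios -/
theorem ratio_expansion {A : ℕ} {α₀ b₀ η : ℝ} (hA : 4 ≤ A) (hC : Crit ((A : ℝ) / 2) α₀ b₀ η)
    (k : ℕ) : ∃ C : ℝ, ∀ᶠ N : ℕ in atTop, 0 < kap A N ∧
      |Real.log (kap A (N + k) / kap A N) - (k * (pot ((A : ℝ) / 2) α₀ b₀ η / (2 * π)) +
        3 * k / (2 * N))| ≤ C / (N : ℝ) ^ 2 := by
  have hp := Real.pi_pos
  obtain ⟨c₀, c₁, C, hC0, h⟩ := log_expansion hA hC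
  set V := pot ((A : ℝ) / 2) α₀ b₀ η with hV
  refine ⟨2 * C + |c₁| * k + 3 / 2 * (2 * k ^ 2), ?_⟩
  have hk : ∀ᶠ N : ℕ in atTop, (k : ℝ) / N < 1 / 2 := by
    have : Tendsto (fun N : ℕ => (k : ℝ) / (N : ℝ)) atTop (𝓝 0) :=
      tendsto_const_div_atTop_nhds_zero_nat _
    exact this.eventually_lt_const (by norm_num)
  filter_upwards [h, (tendsto_add_atTop_nat k).eventually h, hk, eventually_gt_atTop 0] with
    N h1 h2 h3 hN0
  have hNp : (0 : ℝ) < N := by exact_mod_cast hN0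
  have hk0 : (0 : ℝ) ≤ k := Nat.cast_nonneg k
  refine ⟨h1.1, ?_⟩
  rw [Real.log_div h2.1.ne' h1.1.ne']
  have h4 := h1.2
  have h5 := h2.2
  push_cast at h5
  have hNk : (0 : ℝ) < (N : ℝ) + k := by linarith
  have h6 : C / ((N : ℝ) + k) ^ 2 ≤ C / (N : ℝ) ^ 2 := by
    apply div_le_div_of_nonneg_left hC0 (by positivity)
    exact pow_le_pow_left₀ hNp.le (by linarith) 2
  have h7 : |c₁ / ((N : ℝ) + k) - c₁ / N| ≤ |c₁| * k / (N : ℝ) ^ 2 := by
    have e : c₁ / ((N : ℝ) + k) - c₁ / N = -(c₁ * k) / (N * (N + k)) := by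
      field_simp
      ring
    rw [e, abs_div, abs_neg, abs_mul, abs_of_nonneg hk0, abs_of_pos (show (0:ℝ) < N * (N + k) by
      positivity)]
    apply div_le_div_of_nonneg_left (by positivity) (by positivity)
    nlinarith
  have h8 : |Real.log ((N : ℝ) + k) - Real.log N - k / N| ≤ 2 * k ^ 2 / (N : ℝ) ^ 2 := by
    set u : ℝ := (k : ℝ) / N with hu
    have hu0 : 0 ≤ u := by positivity
    have e : Real.log ((N : ℝ) + k) - Real.log N = Real.log (1 + u) := by
      rw [← Real.log_div hNk.ne' hNp.ne']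
      congr 1
      rw [hu]
      field_simp
    rw [e]
    have h7 := Real.abs_log_sub_add_sum_range_le (x := -u)
      (by rw [abs_neg, abs_of_nonneg hu0]; linarith) 1
    rw [Finset.sum_range_one] at h7
    simp only [zero_add, pow_one, Nat.cast_zero, div_one, sub_neg_eq_add, abs_neg] at h7
    have h8 : |Real.log (1 + u) - u| = |-u + Real.log (1 + u)| := by
      congr 1
      ring
    rw [h8]
    refine h7.trans ?_
    rw [abs_of_nonneg hu0]
    have h9 : u ^ (1 + 1) / (1 - u) ≤ 2 * u ^ 2 := by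
      rw [div_le_iff₀ (by linarith)]
      have h12 : 0 ≤ u ^ 2 := by positivity
      have h13 : u ^ (1 + 1) = u ^ 2 := by norm_num
      rw [h13]
      nlinarith [mul_nonneg h12 (show 0 ≤ 1 / 2 - u by linarith)]
    refine h9.trans (le_of_eq ?_)
    rw [hu]
    ring
  have e3 : Real.log (kap A (N + k)) - Real.log (kap A N) - (k * (V / (2 * π)) + 3 * k / (2 * N)) =
      (Real.log (kap A (N + k)) - (V / (2 * π) * (N + k) + 3 / 2 * Real.log (N + k) + c₀ +
        c₁ / (N + k))) -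
      (Real.log (kap A N) - (V / (2 * π) * N + 3 / 2 * Real.log N + c₀ + c₁ / N)) +
      (c₁ / ((N : ℝ) + k) - c₁ / N) +
      3 / 2 * (Real.log ((N : ℝ) + k) - Real.log N - k / N) := by
    field_simp
    ring
  rw [e3]
  have t1 := abs_add_le ((Real.log (kap A (N + k)) - (V / (2 * π) * (N + k) +
    3 / 2 * Real.log (N + k) + c₀ + c₁ / (N + k))) -
      (Real.log (kap A N) - (V / (2 * π) * N + 3 / 2 * Real.log N + c₀ + c₁ / N)) +
      (c₁ / ((N : ℝ) + k) - c₁ / N)) (3 / 2 * (Real.log ((N : ℝ) + k) - Real.log N - k / N))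
  have t2 := abs_add_le ((Real.log (kap A (N + k)) - (V / (2 * π) * (N + k) +
    3 / 2 * Real.log (N + k) + c₀ + c₁ / (N + k))) -
      (Real.log (kap A N) - (V / (2 * π) * N + 3 / 2 * Real.log N + c₀ + c₁ / N)))
      (c₁ / ((N : ℝ) + k) - c₁ / N)
  have t3 := abs_sub (Real.log (kap A (N + k)) - (V / (2 * π) * (N + k) +
    3 / 2 * Real.log (N + k) + c₀ + c₁ / (N + k)))
      (Real.log (kap A N) - (V / (2 * π) * N + 3 / 2 * Real.log N + c₀ + c₁ / N))
  have t4 : |3 / 2 * (Real.log ((N : ℝ) + k) - Real.log N - k / N)| ≤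
      3 / 2 * (2 * k ^ 2 / (N : ℝ) ^ 2) := by
    rw [abs_mul, abs_of_pos (show (0:ℝ) < 3 / 2 by norm_num)]
    exact mul_le_mul_of_nonneg_left h8 (by norm_num)
  calc _ ≤ C / (N : ℝ) ^ 2 + C / (N : ℝ) ^ 2 + |c₁| * k / (N : ℝ) ^ 2 +
        3 / 2 * (2 * k ^ 2 / (N : ℝ) ^ 2) := by linarith
    _ = _ := by ring

end Pool.Agent.W707.FE.Cor
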