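import Pool.Agent.W707.FE.Q
import Pool.Agent.W466.FE.Loc
import Pool.Agent.W571.FE.EM
import Pool.Agent.W366.FELat
import Pool.Agent.W364.FE.Lap
import Pool.Agent.W709.VC.Low

/-! Assembly of the full asymptotic expansion. -/

set_option autoImplicit false

namespace Pool.Agent.W707.FE.Fin

open Filter MeasureTheory Metric Set Pool.Agent.W707.FE Pool.Agent.W707.FE.AT
open Pool.Agent.W709.VC
open scoped Real Topology Nat

theorem s_at : S_AT := at_main (Pool.Agent.W366.FELat.lat Pool.Agent.W571.FE.em)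
  Pool.Agent.W364.FE.lap

theorem s_loc : S_LOC := Pool.Agent.W466.FE.loc Pool.Agent.W571.FE.em Pool.Agent.W571.FE.gp

lemma cont2 {W : ℂ × ℂ × ℂ → ℂ} {α₀ : ℝ} {ψ₀ χ₀ : ℂ} {H : ℂ × ℂ × ℂ × ℂ → ℂ} {r ρ : ℝ}
    (hW : DifferentiableOn ℂ W (ball ((α₀ : ℂ), ψ₀, χ₀) r))
    (hH : DifferentiableOn ℂ H (ball ((0 : ℂ), (α₀ : ℂ), ψ₀, χ₀) r)) (hρ : ρ < r) {N : ℕ}
    (hN0 : 0 < N) (hN : 2 * π / N < r) {α : ℝ} (hα : |α - α₀| ≤ ρ) :
    ContinuousOn (fun u : ℝ × ℝ => fN W ((α₀ : ℂ), ψ₀, χ₀) H N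
        ((α : ℂ), ψ₀ + u.1, χ₀ + u.2)) (Icc (-ρ) ρ ×ˢ Icc (-ρ) ρ) := by
  intro u hu
  set t : ℝ × ℝ × ℝ := (α - α₀, u) with ht
  have hnt : ‖t‖ ≤ ρ := by
    rw [ht, Prod.norm_def, Prod.norm_def]
    simp only [Real.norm_eq_abs]
    exact max_le hα (max_le (abs_le.2 hu.1) (abs_le.2 hu.2))
  have hpt : ((α₀ : ℂ), ψ₀, χ₀) + io t = ((α : ℂ), ψ₀ + (u.1 : ℂ), χ₀ + (u.2 : ℂ)) := by
    simp only [ht, io, Prod.mk_add_mk]
    congr 1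
    push_cast
    ring
  have hm : ((α : ℂ), ψ₀ + (u.1 : ℂ), χ₀ + (u.2 : ℂ)) ∈ ball ((α₀ : ℂ), ψ₀, χ₀) r := by
    rw [← hpt, mem_ball, dist_eq_norm]
    have : ((α₀ : ℂ), ψ₀, χ₀) + io t - ((α₀ : ℂ), ψ₀, χ₀) = io t := by abel
    rw [this, norm_io]
    linarith
  have hmem : (((2 * π / N : ℝ) : ℂ), (α : ℂ), ψ₀ + (u.1 : ℂ), χ₀ + (u.2 : ℂ)) ∈
      ball ((0 : ℂ), (α₀ : ℂ), ψ₀, χ₀) r := by
    rw [mem_ball, Prod.dist_eq, max_lt_iff]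
    refine ⟨?_, by simpa [mem_ball] using hm⟩
    have : (0:ℝ) < N := by exact_mod_cast hN0
    rw [dist_eq_norm, sub_zero, Complex.norm_real, Real.norm_eq_abs,
      abs_of_nonneg (by have := Real.pi_pos; positivity)]
    exact hN
  unfold fN
  have h1 : ContinuousAt W ((α : ℂ), ψ₀ + (u.1 : ℂ), χ₀ + (u.2 : ℂ)) :=
    (hW.differentiableAt (isOpen_ball.mem_nhds hm)).continuousAt
  have h2 : ContinuousAt H (((2 * π / N : ℝ) : ℂ), (α : ℂ), ψ₀ + (u.1 : ℂ), χ₀ + (u.2 : ℂ)) :=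
    (hH.differentiableAt (isOpen_ball.mem_nhds hmem)).continuousAt
  have c1 : ContinuousAt (fun u : ℝ × ℝ => W ((α : ℂ), ψ₀ + (u.1 : ℂ), χ₀ + (u.2 : ℂ))) u :=
    ContinuousAt.comp (g := W)
      (f := fun u : ℝ × ℝ => (((α : ℂ), ψ₀ + (u.1 : ℂ), χ₀ + (u.2 : ℂ)) : ℂ × ℂ × ℂ)) h1
      (by apply Continuous.continuousAt; fun_prop)
  have c2 : ContinuousAt (fun u : ℝ × ℝ =>
      H (((2 * π / N : ℝ) : ℂ), (α : ℂ), ψ₀ + (u.1 : ℂ), χ₀ + (u.2 : ℂ))) u :=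
    ContinuousAt.comp (g := H)
      (f := fun u : ℝ × ℝ => ((((2 * π / N : ℝ) : ℂ), (α : ℂ), ψ₀ + (u.1 : ℂ), χ₀ + (u.2 : ℂ)) :
        ℂ × ℂ × ℂ × ℂ)) h2
      (by apply Continuous.continuousAt; fun_prop)
  exact (((c1.sub continuousAt_const).const_mul _).cexp.mul c2).continuousWithinAt

/-- the square of the norm of an integral as a double integral -/
lemma sq_int {f : ℝ → ℂ} {ρ : ℝ} (k : ℝ) :
    ((k * ‖∫ x in (-ρ)..ρ, f x‖ ^ 2 : ℝ) : ℂ) =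
      ∫ x in (-ρ)..ρ, ∫ y in (-ρ)..ρ, (k : ℂ) * (f x * (starRingEnd ℂ) (f (-y))) := by
  have h1 : ∫ y in (-ρ)..ρ, (starRingEnd ℂ) (f (-y)) = (starRingEnd ℂ) (∫ x in (-ρ)..ρ, f x) := by
    have h2 := intervalIntegral.integral_comp_neg (fun y => (starRingEnd ℂ) (f y)) (a := -ρ) (b := ρ)
    rw [neg_neg] at h2
    rw [h2]
    exact intervalIntegral.intervalIntegral_conj
  simp only [intervalIntegral.integral_const_mul, h1, intervalIntegral.integral_mul_const]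
  rw [Complex.mul_conj, Complex.normSq_eq_norm_sq]
  push_cast
  ring

end Pool.Agent.W707.FE.Fin
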