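import Pool.Agent.W707.FE.Fin1
import Pool.Agent.W505.FE.Glob

/-! The full asymptotic expansion of `kap A N`. -/

set_option autoImplicit false
set_option maxHeartbeats 1000000

namespace Pool.Agent.W707.FE.Fin

open Filter MeasureTheory Metric Set Pool.Agent.W707.FE Pool.Agent.W707.FE.AT
open Pool.Agent.W709.VC
open scoped Real Topology Nat

theorem s_glob : S_GLOB := Pool.Agent.W505.FE.glob Pool.Agent.W505.FE.maxq

/-- the local sum against the model sum -/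
theorem local_model {A : ℕ} {α₀ b₀ η : ℝ} (hA : 4 ≤ A) (hC : Crit ((A : ℝ) / 2) α₀ b₀ η) :
    ∃ (b₁ b₂ : ℕ → ℝ) (ρ₀ : ℝ), 0 < ρ₀ ∧ ∀ ρ : ℝ, 0 < ρ → ρ ≤ ρ₀ → ∀ K : ℕ, ∃ C : ℝ, 0 ≤ C ∧
      ∀ᶠ N : ℕ in atTop,
      ‖((∑ d ∈ (Finset.range N).filter (fun d : ℕ => |2 * π * d / N - α₀| ≤ ρ),
          kk N d ^ 2 / (4 * π ^ 2) *
            ‖∫ x in (-ρ)..ρ, Fint A N d (-b₀ + x + η * Complex.I)‖ ^ 2 : ℝ) : ℂ) -
        ((N : ℂ) / (2 * π)) ^ 2 *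
        ((Real.exp ((N : ℝ) / (2 * π) * pot ((A : ℝ) / 2) α₀ b₀ η) : ℝ) : ℂ) *
        (∑ d ∈ (Finset.range N).filter (fun d : ℕ => |2 * π * d / N - α₀| ≤ ρ),
          ∫ x in (-ρ)..ρ, ∫ y in (-ρ)..ρ,
            Complex.exp ((N : ℂ) / (2 * π) * (Wf A (((2 * π * d / N : ℝ) : ℂ),
              -(b₀ : ℂ) + η * Complex.I + x, (b₀ : ℂ) + η * Complex.I + y) -
              Wf A ((α₀ : ℂ), -(b₀ : ℂ) + η * Complex.I, (b₀ : ℂ) + η * Complex.I))) *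
            HK b₁ b₂ K (((2 * π / N : ℝ) : ℂ), ((2 * π * d / N : ℝ) : ℂ),
              -(b₀ : ℂ) + η * Complex.I + x, (b₀ : ℂ) + η * Complex.I + y))‖ ≤
      C * N ^ 3 * ((N : ℝ)⁻¹) ^ K * Real.exp ((N : ℝ) / (2 * π) * pot ((A : ℝ) / 2) α₀ b₀ η) := by
  have hp := Real.pi_pos
  obtain ⟨b₁, b₂, ρ₂, hρ₂, hloc⟩ := s_loc A α₀ b₀ η hA hC
  obtain ⟨r, c, hr, hc, hrα, hrπ, hd, hHK, h0, hre⟩ := Pool.Agent.W707.FE.Q.Wf_re hA hC
  have hW0 : Wf A ((α₀ : ℂ), -(b₀ : ℂ) + η * Complex.I, (b₀ : ℂ) + η * Complex.I) =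
      ((pot ((A : ℝ) / 2) α₀ b₀ η : ℝ) : ℂ) :=
    (Pool.Agent.W358.FE.wf Pool.Agent.W571.FE.gp A α₀ b₀ η hA hC).2.2.2.2
  refine ⟨b₁, b₂, min ρ₂ (r / 2), lt_min hρ₂ (by linarith), ?_⟩
  intro ρ hρ hρ' K
  have hρ1 : ρ ≤ ρ₂ := le_trans hρ' (min_le_left _ _)
  have hρ2 : ρ < r := by
    have := le_trans hρ' (min_le_right _ _)
    linarith
  obtain ⟨C, hC1⟩ := hloc K
  refine ⟨|C| * (2 * ρ) ^ 2, by positivity, ?_⟩
  have t1 : Tendsto (fun N : ℕ => 2 * π / (N : ℝ)) atTop (𝓝 0) :=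
    tendsto_const_div_atTop_nhds_zero_nat _
  have e2 : ∀ᶠ N : ℕ in atTop, 2 * π / (N : ℝ) < r := t1.eventually_lt_const hr
  filter_upwards [hC1, e2, eventually_gt_atTop 0] with N h1 h2 hN
  have hNp : (0 : ℝ) < N := by exact_mod_cast hN
  set ψ₀ : ℂ := -(b₀ : ℂ) + η * Complex.I with hψ
  set χ₀ : ℂ := (b₀ : ℂ) + η * Complex.I with hχ
  set V := pot ((A : ℝ) / 2) α₀ b₀ η with hV
  set E : ℝ := Real.exp ((N : ℝ) / (2 * π) * V) with hE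
  have hE0 : 0 < E := Real.exp_pos _
  set I := (Finset.range N).filter (fun d : ℕ => |2 * π * d / N - α₀| ≤ ρ) with hI
  have hsq : IsCompact (Icc (-ρ) ρ ×ˢ Icc (-ρ) ρ : Set (ℝ × ℝ)) := isCompact_Icc.prod isCompact_Icc
  -- each term
  have hterm : ∀ d ∈ I, ‖((kk N d ^ 2 / (4 * π ^ 2) *
            ‖∫ x in (-ρ)..ρ, Fint A N d (-b₀ + x + η * Complex.I)‖ ^ 2 : ℝ) : ℂ) -
        ((N : ℂ) / (2 * π)) ^ 2 * (E : ℂ) * (∫ x in (-ρ)..ρ, ∫ y in (-ρ)..ρ,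
            Complex.exp ((N : ℂ) / (2 * π) * (Wf A (((2 * π * d / N : ℝ) : ℂ), ψ₀ + x, χ₀ + y) -
              Wf A ((α₀ : ℂ), ψ₀, χ₀))) *
            HK b₁ b₂ K (((2 * π / N : ℝ) : ℂ), ((2 * π * d / N : ℝ) : ℂ), ψ₀ + x, χ₀ + y))‖ ≤
        |C| * N ^ 2 * ((N : ℝ)⁻¹) ^ K * E * (2 * ρ) ^ 2 := by
    intro d hdI
    have hd2 : |2 * π * d / N - α₀| ≤ ρ := (Finset.mem_filter.1 hdI).2
    rw [sq_int]
    -- continuity of the first integrand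
    have cF : Continuous (fun x : ℝ => Fint A N d (-b₀ + x + η * Complex.I)) := by
      have h3 := Fint_contAt A (N := N) (d := d) hN hC.hη
      have h4 : (fun x : ℝ => Fint A N d (-b₀ + x + η * Complex.I)) =
          (fun x : ℝ => Fint A N d (x + η * Complex.I)) ∘ (fun x : ℝ => -b₀ + x) := by
        funext x
        simp
      rw [h4]
      exact h3.comp (by fun_prop)
    have cX : ContinuousOn (fun u : ℝ × ℝ => ((kk N d ^ 2 / (4 * π ^ 2) : ℝ) : ℂ) *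
        (Fint A N d (-b₀ + u.1 + η * Complex.I) *
          (starRingEnd ℂ) (Fint A N d (-b₀ + ((-u.2 : ℝ) : ℂ) + η * Complex.I))))
        (Icc (-ρ) ρ ×ˢ Icc (-ρ) ρ) := by
      apply Continuous.continuousOn
      have g1 : Continuous (fun u : ℝ × ℝ => Fint A N d (-b₀ + u.1 + η * Complex.I)) :=
        cF.comp continuous_fst
      have g2 : Continuous (fun u : ℝ × ℝ => (starRingEnd ℂ)
          (Fint A N d (-b₀ + ((-u.2 : ℝ) : ℂ) + η * Complex.I))) :=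
        Complex.continuous_conj.comp (cF.comp (continuous_snd.neg))
      exact continuous_const.mul (g1.mul g2)
    have cY := cont2 (r := r) hd (hHK b₁ b₂ K).1 hρ2 hN h2 hd2
    have i1 := ii_eq (f := fun x y : ℝ => ((kk N d ^ 2 / (4 * π ^ 2) : ℝ) : ℂ) *
        (Fint A N d (-b₀ + x + η * Complex.I) *
          (starRingEnd ℂ) (Fint A N d (-b₀ + ((-y : ℝ) : ℂ) + η * Complex.I)))) hρ cX
    have i2 := ii_eq (f := fun x y : ℝ => fN (Wf A) ((α₀ : ℂ), ψ₀, χ₀) (HK b₁ b₂ K) N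
        (((2 * π * d / N : ℝ) : ℂ), ψ₀ + x, χ₀ + y)) hρ cY
    have i2' : ∫ x in (-ρ)..ρ, ∫ y in (-ρ)..ρ,
            Complex.exp ((N : ℂ) / (2 * π) * (Wf A (((2 * π * d / N : ℝ) : ℂ), ψ₀ + x, χ₀ + y) -
              Wf A ((α₀ : ℂ), ψ₀, χ₀))) *
            HK b₁ b₂ K (((2 * π / N : ℝ) : ℂ), ((2 * π * d / N : ℝ) : ℂ), ψ₀ + x, χ₀ + y) =
        ∫ u in Icc (-ρ) ρ ×ˢ Icc (-ρ) ρ, fN (Wf A) ((α₀ : ℂ), ψ₀, χ₀) (HK b₁ b₂ K) N
        (((2 * π * d / N : ℝ) : ℂ), ψ₀ + u.1, χ₀ + u.2) := i2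
    rw [i1, i2', ← integral_const_mul, ← integral_sub (cX.integrableOn_compact hsq)
      ((cY.integrableOn_compact hsq).const_mul _)]
    have hfin : volume (Icc (-ρ) ρ ×ˢ Icc (-ρ) ρ : Set (ℝ × ℝ)) < ⊤ := hsq.measure_lt_top
    have hb : ∀ u ∈ Icc (-ρ) ρ ×ˢ Icc (-ρ) ρ,
        ‖((kk N d ^ 2 / (4 * π ^ 2) : ℝ) : ℂ) * (Fint A N d (-b₀ + u.1 + η * Complex.I) *
          (starRingEnd ℂ) (Fint A N d (-b₀ + ((-u.2 : ℝ) : ℂ) + η * Complex.I))) -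
          ((N : ℂ) / (2 * π)) ^ 2 * (E : ℂ) * fN (Wf A) ((α₀ : ℂ), ψ₀, χ₀) (HK b₁ b₂ K) N
          (((2 * π * d / N : ℝ) : ℂ), ψ₀ + u.1, χ₀ + u.2)‖ ≤
        |C| * N ^ 2 * ((N : ℝ)⁻¹) ^ K * E := by
      intro u hu
      have hu1 : |u.1| ≤ ρ := abs_le.2 hu.1
      have hu2 : |u.2| ≤ ρ := abs_le.2 hu.2
      have k1 := h1 d (by linarith) u.1 u.2 (by linarith) (by linarith)
      have k2 : (Wf A (((2 * π * d / N : ℝ) : ℂ), ψ₀ + u.1, χ₀ + u.2)).re ≤ V := by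
        have k3 := hre (2 * π * d / N - α₀) u.1 u.2 (by linarith) (by linarith) (by linarith)
        have e : (α₀ : ℂ) + ((2 * π * d / N - α₀ : ℝ) : ℂ) = ((2 * π * d / N : ℝ) : ℂ) := by
          push_cast
          ring
        rw [e] at k3
        have : 0 ≤ c * ((2 * π * d / N - α₀) ^ 2 + u.1 ^ 2 + u.2 ^ 2) := by positivity
        linarith
      have k4 : Real.exp ((N : ℝ) / (2 * π) *
          (Wf A (((2 * π * d / N : ℝ) : ℂ), ψ₀ + u.1, χ₀ + u.2)).re) ≤ E := by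
        apply Real.exp_le_exp.2
        exact mul_le_mul_of_nonneg_left k2 (by positivity)
      have e1 : (-(b₀ : ℂ) + ((-u.2 : ℝ) : ℂ) + η * Complex.I) =
          -(b₀ : ℂ) - u.2 + η * Complex.I := by
        push_cast
        ring
      have e2 : ((N : ℂ) / (2 * π)) ^ 2 * (E : ℂ) *
          fN (Wf A) ((α₀ : ℂ), ψ₀, χ₀) (HK b₁ b₂ K) N
          (((2 * π * d / N : ℝ) : ℂ), ψ₀ + u.1, χ₀ + u.2) =
          ((N : ℂ) / (2 * π)) ^ 2 * (Complex.exp ((N : ℂ) / (2 * π) *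
            Wf A (((2 * π * d / N : ℝ) : ℂ), ψ₀ + u.1, χ₀ + u.2)) *
            HK b₁ b₂ K (((2 * π / N : ℝ) : ℂ), ((2 * π * d / N : ℝ) : ℂ), ψ₀ + u.1,
              χ₀ + u.2)) := by
        unfold fN
        have e3 : (E : ℂ) = Complex.exp ((N : ℂ) / (2 * π) * Wf A ((α₀ : ℂ), ψ₀, χ₀)) := by
          rw [hE, hW0, Complex.ofReal_exp]
          congr 1
          push_cast
          ring
        rw [e3, mul_assoc, ← mul_assoc (Complex.exp _) (Complex.exp _), ← Complex.exp_add]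
        congr 3
        ring_nf
      rw [e1, e2]
      refine k1.trans ?_
      have hNK : 0 ≤ (N : ℝ) ^ 2 * ((N : ℝ)⁻¹) ^ K := by positivity
      calc C * N ^ 2 * ((N : ℝ)⁻¹) ^ K * Real.exp ((N : ℝ) / (2 * π) *
          (Wf A (((2 * π * d / N : ℝ) : ℂ), ψ₀ + u.1, χ₀ + u.2)).re) ≤
          |C| * N ^ 2 * ((N : ℝ)⁻¹) ^ K * Real.exp ((N : ℝ) / (2 * π) *
          (Wf A (((2 * π * d / N : ℝ) : ℂ), ψ₀ + u.1, χ₀ + u.2)).re) := by
            apply mul_le_mul_of_nonneg_right _ (Real.exp_pos _).le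
            rw [mul_assoc, mul_assoc]
            exact mul_le_mul_of_nonneg_right (le_abs_self C) hNK
        _ ≤ |C| * N ^ 2 * ((N : ℝ)⁻¹) ^ K * E := mul_le_mul_of_nonneg_left k4 (by positivity)
    have := norm_setIntegral_le_of_norm_le_const (μ := (volume : Measure (ℝ × ℝ))) hfin hb
    refine this.trans (le_of_eq ?_)
    congr 1
    rw [measureReal_def, show (volume : Measure (ℝ × ℝ)) = (volume : Measure ℝ).prod volume from rfl,
      Measure.prod_prod, Real.volume_Icc, ← ENNReal.ofReal_mul (by linarith),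
      ENNReal.toReal_ofReal (by nlinarith)]
    ring
  rw [Complex.ofReal_sum, Finset.mul_sum, ← Finset.sum_sub_distrib]
  refine (norm_sum_le _ _).trans ?_
  refine (Finset.sum_le_sum hterm).trans ?_
  rw [Finset.sum_const, nsmul_eq_mul]
  have hcard : (I.card : ℝ) ≤ N := by
    have : I.card ≤ N := by
      have := Finset.card_filter_le (Finset.range N) (fun d : ℕ => |2 * π * d / N - α₀| ≤ ρ)
      rwa [Finset.card_range] at this
    exact_mod_cast this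
  calc (I.card : ℝ) * (|C| * N ^ 2 * ((N : ℝ)⁻¹) ^ K * E * (2 * ρ) ^ 2) ≤
      N * (|C| * N ^ 2 * ((N : ℝ)⁻¹) ^ K * E * (2 * ρ) ^ 2) :=
        mul_le_mul_of_nonneg_right hcard (by positivity)
    _ = _ := by ring

end Pool.Agent.W707.FE.Fin
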