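import Pool.Agent.W707.FE.Fin2

/-! The full asymptotic expansion of `kap A N`: the theorem. -/

set_option autoImplicit false
set_option maxHeartbeats 1000000

namespace Pool.Agent.W707.FE.Fin

open Filter MeasureTheory Metric Set Pool.Agent.W707.FE Pool.Agent.W707.FE.AT
open Pool.Agent.W709.VC
open scoped Real Topology Nat

lemma HK_ne {b₁ b₂ : ℕ → ℝ} {K : ℕ} {α₀ b₀ η : ℝ} (hη : 0 < η) (h0 : 0 < α₀) (h1 : α₀ < π) :
    HK b₁ b₂ K (0, (α₀ : ℂ), -(b₀ : ℂ) + η * Complex.I, (b₀ : ℂ) + η * Complex.I) ≠ 0 := by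
  have hs : ∀ b : ℝ, Complex.sin ((b : ℂ) + η * Complex.I) ≠ 0 := by
    intro b h
    rw [Complex.sin_eq_zero_iff] at h
    obtain ⟨k, hk⟩ := h
    have := congrArg Complex.im hk
    simp at this
    exact hη.ne' this
  have e1 : -(b₀ : ℂ) = ((-b₀ : ℝ) : ℂ) := by push_cast; rfl
  have h2 : Complex.sin ((α₀ : ℂ) / 2) ≠ 0 := by
    have e : (α₀ : ℂ) / 2 = ((α₀ / 2 : ℝ) : ℂ) := by push_cast; rfl
    rw [e, ← Complex.ofReal_sin]
    exact_mod_cast (Real.sin_pos_of_pos_of_lt_pi (by linarith) (by linarith)).ne'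
  unfold HK
  simp only
  refine mul_ne_zero (div_ne_zero (mul_ne_zero (mul_ne_zero (by norm_num) ?_) ?_) ?_)
    (Complex.exp_ne_zero _)
  · rw [e1]
    exact hs _
  · exact hs _
  · exact pow_ne_zero 2 (mul_ne_zero two_ne_zero h2)

/-- the normalised invariant -/
noncomputable def fNorm (A : ℕ) (V : ℝ) (N : ℕ) : ℝ :=
  kap A N / (N * Real.sqrt N * Real.exp ((N : ℝ) / (2 * π) * V))

lemma exp_small (δ : ℝ) (hδ : 0 < δ) (J : ℕ) :
    ∀ᶠ N : ℕ in atTop, Real.exp (-(δ * N)) ≤ ((N : ℝ)⁻¹) ^ J := by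
  have h1 : Tendsto (fun x : ℝ => x ^ J * Real.exp (-δ * x)) atTop (𝓝 0) := by
    have h2 := tendsto_rpow_mul_exp_neg_mul_atTop_nhds_zero (J : ℝ) δ hδ
    refine h2.congr (fun x => ?_)
    rw [Real.rpow_natCast]
  have h3 := (h1.comp tendsto_natCast_atTop_atTop).eventually_lt_const (show (0:ℝ) < 1 by norm_num)
  filter_upwards [h3, eventually_gt_atTop 0] with N h4 hN
  have hNp : (0 : ℝ) < N := by exact_mod_cast hN
  simp only [Function.comp_apply] at h4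
  rw [inv_pow, ← one_div, le_div_iff₀ (by positivity), mul_comm]
  have e : -(δ * (N : ℝ)) = -δ * N := by ring
  rw [e]
  exact h4.le

theorem expansion1 {A : ℕ} {α₀ b₀ η : ℝ} (hA : 4 ≤ A) (hC : Crit ((A : ℝ) / 2) α₀ b₀ η) (J : ℕ) :
    ∃ (a : ℕ → ℂ) (C : ℝ), a 0 ≠ 0 ∧ ∀ᶠ N : ℕ in atTop,
      ‖((fNorm A (pot ((A : ℝ) / 2) α₀ b₀ η) N : ℝ) : ℂ) -
        ∑ j ∈ Finset.range J, a j * ((N : ℂ)⁻¹) ^ j‖ ≤ C * ((N : ℝ)⁻¹) ^ J := by
  have hp := Real.pi_pos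
  have hpc : (π : ℂ) ≠ 0 := by exact_mod_cast hp.ne'
  obtain ⟨b₁, b₂, ρ₁, hρ₁, hlm⟩ := local_model hA hC
  obtain ⟨ρ₂, hρ₂, hgl⟩ := s_glob A α₀ b₀ η hA hC
  obtain ⟨r, c, hr, hc, hrα, hrπ, hd, hHK, h0, hre⟩ := Pool.Agent.W707.FE.Q.Wf_re hA hC
  have hW0 : Wf A ((α₀ : ℂ), -(b₀ : ℂ) + η * Complex.I, (b₀ : ℂ) + η * Complex.I) =
      ((pot ((A : ℝ) / 2) α₀ b₀ η : ℝ) : ℂ) :=
    (Pool.Agent.W358.FE.wf Pool.Agent.W571.FE.gp A α₀ b₀ η hA hC).2.2.2.2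
  obtain ⟨ρ₃, hρ₃, hat⟩ := s_at (Wf A) α₀ (-(b₀ : ℂ) + η * Complex.I) ((b₀ : ℂ) + η * Complex.I) r c
    hr hrα hrπ hc hd h0
    (by
      intro s x y hs hx hy
      rw [hW0, Complex.ofReal_re]
      exact hre s x y hs hx hy)
  set ρ : ℝ := min ρ₁ (min ρ₂ ρ₃) with hρ
  have hρ0 : 0 < ρ := lt_min hρ₁ (lt_min hρ₂ hρ₃)
  have g1 : ρ ≤ ρ₁ := min_le_left _ _
  have g2 : ρ ≤ ρ₂ := le_trans (min_le_right _ _) (min_le_left _ _)
  have g3 : ρ ≤ ρ₃ := le_trans (min_le_right _ _) (min_le_right _ _)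
  obtain ⟨C1, hC1, h1⟩ := hlm ρ hρ0 g1 (J + 2)
  obtain ⟨δ, hδ, h2⟩ := hgl ρ hρ0 g2
  obtain ⟨a, ha0, haJ⟩ := hat ρ hρ0 g3 (HK b₁ b₂ (J + 2)) (hHK b₁ b₂ (J + 2)).1
    (hHK b₁ b₂ (J + 2)).2
  obtain ⟨C3, h3⟩ := haJ J
  have hα := hC.hα
  have hαπ : α₀ < π := by linarith [hC.hαb, hC.hb]
  refine ⟨fun j => a j / (4 * π ^ 2), 1 + C1 + C3 / (4 * π ^ 2), ?_, ?_⟩
  · show a 0 / (4 * π ^ 2) ≠ 0
    rw [ha0]
    refine div_ne_zero (mul_ne_zero (div_ne_zero (HK_ne hC.hη hα hαπ) (by simp)) ?_)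
      (by simp)
    exact Pool.Agent.W707.FE.Q.int_ne hA hC
  · filter_upwards [h1, h2, h3, exp_small δ hδ J, eventually_gt_atTop 0] with N h1 h2 h3 h4 hN
    have hNp : (0 : ℝ) < N := by exact_mod_cast hN
    have hN1 : (1 : ℝ) ≤ N := by exact_mod_cast hN
    have hNc : (N : ℂ) ≠ 0 := by exact_mod_cast hN.ne'
    have hs : 0 < Real.sqrt N := Real.sqrt_pos.2 hNp
    have hs1 : 1 ≤ Real.sqrt N := Real.one_le_sqrt.2 hN1
    set V := pot ((A : ℝ) / 2) α₀ b₀ η with hV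
    set E : ℝ := Real.exp ((N : ℝ) / (2 * π) * V) with hE
    have hE0 : 0 < E := Real.exp_pos _
    set SN : ℝ := ∑ d ∈ (Finset.range N).filter (fun d : ℕ => |2 * π * d / N - α₀| ≤ ρ),
      kk N d ^ 2 / (4 * π ^ 2) *
        ‖∫ x in (-ρ)..ρ, Fint A N d (-b₀ + x + η * Complex.I)‖ ^ 2 with hSN
    set MN : ℂ := ∑ d ∈ (Finset.range N).filter (fun d : ℕ => |2 * π * d / N - α₀| ≤ ρ),
      ∫ x in (-ρ)..ρ, ∫ y in (-ρ)..ρ,
            Complex.exp ((N : ℂ) / (2 * π) * (Wf A (((2 * π * d / N : ℝ) : ℂ),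
              -(b₀ : ℂ) + η * Complex.I + x, (b₀ : ℂ) + η * Complex.I + y) -
              Wf A ((α₀ : ℂ), -(b₀ : ℂ) + η * Complex.I, (b₀ : ℂ) + η * Complex.I))) *
            HK b₁ b₂ (J + 2) (((2 * π / N : ℝ) : ℂ), ((2 * π * d / N : ℝ) : ℂ),
              -(b₀ : ℂ) + η * Complex.I + x, (b₀ : ℂ) + η * Complex.I + y) with hMN
    set Sg : ℂ := ∑ j ∈ Finset.range J, a j * ((N : ℂ)⁻¹) ^ j with hSg
    set D : ℝ := N * Real.sqrt N * E with hD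
    have hD0 : 0 < D := by positivity
    have hDc : (D : ℂ) ≠ 0 := by exact_mod_cast hD0.ne'
    -- first error
    have q1 : ‖(((kap A N - SN) / D : ℝ) : ℂ)‖ ≤ 1 * ((N : ℝ)⁻¹) ^ J := by
      rw [Complex.norm_real, Real.norm_eq_abs, abs_div, abs_of_pos hD0, div_le_iff₀ hD0, one_mul]
      refine h2.trans ?_
      rw [sub_eq_add_neg, Real.exp_add, ← hE]
      have e1 : Real.exp (-(δ * N)) ≤ ((N : ℝ)⁻¹) ^ J * (N * Real.sqrt N) := by
        refine h4.trans ?_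
        have : 1 ≤ (N : ℝ) * Real.sqrt N := by nlinarith
        have h5 : 0 ≤ ((N : ℝ)⁻¹) ^ J := by positivity
        nlinarith
      calc E * Real.exp (-(δ * N)) ≤ E * (((N : ℝ)⁻¹) ^ J * (N * Real.sqrt N)) :=
            mul_le_mul_of_nonneg_left e1 hE0.le
        _ = _ := by rw [hD]; ring
    -- second error
    have q2 : ‖(((SN : ℝ) : ℂ) - ((N : ℂ) / (2 * π)) ^ 2 * (E : ℂ) * MN) / (D : ℂ)‖ ≤
        C1 * ((N : ℝ)⁻¹) ^ J := by
      rw [norm_div, Complex.norm_real, Real.norm_eq_abs, abs_of_pos hD0, div_le_iff₀ hD0]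
      refine h1.trans ?_
      have e1 : C1 * (N : ℝ) ^ 3 * ((N : ℝ)⁻¹) ^ (J + 2) * E =
          C1 * ((N : ℝ)⁻¹) ^ J * (N * E) := by
        rw [pow_add]
        field_simp
      rw [e1]
      apply mul_le_mul_of_nonneg_left _ (by positivity)
      rw [hD]
      have : (N : ℝ) * E * 1 ≤ (N : ℝ) * E * Real.sqrt N :=
        mul_le_mul_of_nonneg_left hs1 (by positivity)
      linarith
    -- third error
    have q3 : ‖((N : ℂ) / (2 * π)) ^ 2 * (E : ℂ) * MN / (D : ℂ) - Sg / (4 * π ^ 2)‖ ≤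
        C3 / (4 * π ^ 2) * ((N : ℝ)⁻¹) ^ J := by
      have hsc : ((Real.sqrt N : ℝ) : ℂ) ≠ 0 := by exact_mod_cast hs.ne'
      have hEc : (E : ℂ) ≠ 0 := by exact_mod_cast hE0.ne'
      have hss : ((Real.sqrt N : ℝ) : ℂ) ^ 2 = (N : ℂ) := by
        rw [← Complex.ofReal_pow, Real.sq_sqrt hNp.le]
        rfl
      have e1 : ((N : ℂ) / (2 * π)) ^ 2 * (E : ℂ) * MN / (D : ℂ) - Sg / (4 * π ^ 2) =
          ((Real.sqrt N : ℝ) : ℂ) / (4 * π ^ 2) *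
            (MN - ((Real.sqrt N : ℝ) : ℂ)⁻¹ * Sg) := by
        have hDe : (D : ℂ) = (N : ℂ) * ((Real.sqrt N : ℝ) : ℂ) * (E : ℂ) := by
          rw [hD]
          push_cast
          rfl
        rw [hDe]
        field_simp
        linear_combination (-4 * MN) * hss
      rw [e1, norm_mul]
      have e2 : ‖((Real.sqrt N : ℝ) : ℂ) / (4 * π ^ 2)‖ = Real.sqrt N / (4 * π ^ 2) := by
        have : ((Real.sqrt N : ℝ) : ℂ) / (4 * π ^ 2) = ((Real.sqrt N / (4 * π ^ 2) : ℝ) : ℂ) := by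
          push_cast
          rfl
        rw [this, Complex.norm_real, Real.norm_eq_abs, abs_of_nonneg (by positivity)]
      rw [e2]
      calc Real.sqrt N / (4 * π ^ 2) * ‖MN - ((Real.sqrt N : ℝ) : ℂ)⁻¹ * Sg‖ ≤
          Real.sqrt N / (4 * π ^ 2) * (C3 * (Real.sqrt N)⁻¹ * ((N : ℝ)⁻¹) ^ J) :=
            mul_le_mul_of_nonneg_left h3 (by positivity)
        _ = C3 / (4 * π ^ 2) * ((N : ℝ)⁻¹) ^ J := by
            field_simp
    have hsplit : ((fNorm A V N : ℝ) : ℂ) -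
        ∑ j ∈ Finset.range J, a j / (4 * π ^ 2) * ((N : ℂ)⁻¹) ^ j =
        (((kap A N - SN) / D : ℝ) : ℂ) +
        (((SN : ℝ) : ℂ) - ((N : ℂ) / (2 * π)) ^ 2 * (E : ℂ) * MN) / (D : ℂ) +
        (((N : ℂ) / (2 * π)) ^ 2 * (E : ℂ) * MN / (D : ℂ) - Sg / (4 * π ^ 2)) := by
      have e1 : ∑ j ∈ Finset.range J, a j / (4 * π ^ 2) * ((N : ℂ)⁻¹) ^ j = Sg / (4 * π ^ 2) := by
        rw [hSg, Finset.sum_div]
        apply Finset.sum_congr rfl
        intro j _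
        ring
      rw [e1]
      have e2 : fNorm A V N = kap A N / D := rfl
      rw [e2]
      push_cast
      ring
    rw [hsplit]
    refine (norm_add_le _ _).trans ?_
    have := norm_add_le (((kap A N - SN) / D : ℝ) : ℂ)
      ((((SN : ℝ) : ℂ) - ((N : ℂ) / (2 * π)) ^ 2 * (E : ℂ) * MN) / (D : ℂ))
    calc _ ≤ 1 * ((N : ℝ)⁻¹) ^ J + C1 * ((N : ℝ)⁻¹) ^ J + C3 / (4 * π ^ 2) * ((N : ℝ)⁻¹) ^ J := by
          linarith
      _ = _ := by ring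

/-- the full asymptotic expansion, real coefficients, positive leading coefficient -/
theorem expansion {A : ℕ} {α₀ b₀ η : ℝ} (hA : 4 ≤ A) (hC : Crit ((A : ℝ) / 2) α₀ b₀ η) :
    ∃ a : ℕ → ℝ, 0 < a 0 ∧ ∀ J : ℕ, ∃ C : ℝ, ∀ᶠ N : ℕ in atTop,
      |fNorm A (pot ((A : ℝ) / 2) α₀ b₀ η) N - ∑ j ∈ Finset.range J, a j * ((N : ℝ)⁻¹) ^ j| ≤
        C * ((N : ℝ)⁻¹) ^ J := by
  set V := pot ((A : ℝ) / 2) α₀ b₀ η with hV
  obtain ⟨a, ha⟩ := Pool.Agent.W647.FE.uniq (fun N => ((fNorm A V N : ℝ) : ℂ)) (fun J => by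
    obtain ⟨a, C, _, h⟩ := expansion1 hA hC J
    exact ⟨a, C, h⟩)
  have hlim : ∀ (a : ℕ → ℂ) (C : ℝ), (∀ᶠ N : ℕ in atTop,
      ‖((fNorm A V N : ℝ) : ℂ) - ∑ j ∈ Finset.range 1, a j * ((N : ℂ)⁻¹) ^ j‖ ≤
        C * ((N : ℝ)⁻¹) ^ 1) → Tendsto (fun N : ℕ => ((fNorm A V N : ℝ) : ℂ)) atTop (𝓝 (a 0)) := by
    intro a C h
    rw [tendsto_iff_norm_sub_tendsto_zero]
    have h1 : Tendsto (fun N : ℕ => C * ((N : ℝ)⁻¹) ^ 1) atTop (𝓝 0) := by
      have := (tendsto_inv_atTop_zero.comp (tendsto_natCast_atTop_atTop (R := ℝ))).const_mul C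
      simpa using this
    refine squeeze_zero' (Eventually.of_forall fun N => norm_nonneg _) ?_ h1
    filter_upwards [h] with N hN
    simpa using hN
  obtain ⟨C, hC1⟩ := ha 1
  have l1 := hlim a C hC1
  obtain ⟨a', C', ha'0, hC2⟩ := expansion1 hA hC 1
  have l2 := hlim a' C' hC2
  have h0 : a 0 ≠ 0 := by
    rw [tendsto_nhds_unique l1 l2]
    exact ha'0
  have l3 : Tendsto (fun N : ℕ => fNorm A V N) atTop (𝓝 (a 0).re) := by
    have := (Complex.continuous_re.tendsto _).comp l1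
    simpa [Function.comp_def] using this
  have h1 : 0 ≤ (a 0).re := by
    refine ge_of_tendsto' l3 (fun N => ?_)
    unfold fNorm
    have : 0 ≤ kap A N := Finset.sum_nonneg (fun n _ => by positivity)
    positivity
  have h2 : (a 0).im = 0 := by
    have l4 := (Complex.continuous_im.tendsto _).comp l1
    have l5 : Tendsto (fun N : ℕ => (0:ℝ)) atTop (𝓝 (a 0).im) := by
      refine l4.congr (fun N => ?_)
      simp
    exact tendsto_nhds_unique l5 tendsto_const_nhds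
  refine ⟨fun j => (a j).re, ?_, ?_⟩
  · rcases h1.lt_or_eq with h | h
    · exact h
    · exact absurd (Complex.ext h.symm h2) h0
  · intro J
    obtain ⟨C, hC3⟩ := ha J
    refine ⟨C, ?_⟩
    filter_upwards [hC3] with N hN
    refine le_trans ?_ hN
    have e : fNorm A V N - ∑ j ∈ Finset.range J, (a j).re * ((N : ℝ)⁻¹) ^ j =
        (((fNorm A V N : ℝ) : ℂ) - ∑ j ∈ Finset.range J, a j * ((N : ℂ)⁻¹) ^ j).re := by
      rw [Complex.sub_re, Complex.ofReal_re, Complex.re_sum]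
      congr 1
      apply Finset.sum_congr rfl
      intro j _
      have : ((N : ℂ)⁻¹) ^ j = ((((N : ℝ)⁻¹) ^ j : ℝ) : ℂ) := by
        push_cast
        rfl
      rw [this, Complex.re_mul_ofReal]
    rw [e]
    exact Complex.abs_re_le_norm _

end Pool.Agent.W707.FE.Fin
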