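import Pool.Agent.W707.FE.Fin3
import Pool.Agent.W709.VC.Full

/-! The full asymptotic expansion in the form of the question. -/

set_option autoImplicit false

namespace Pool.Agent.W707.FE

open Filter Finset EvenVol Pool.Agent.H112R4.VL Pool.Agent.W709.VC
open scoped Real Topology

theorem main_expansion {A : ℕ} (hA : 4 ≤ A) : ∃ (κ : ℕ → ℂ) (V : ℝ) (φ : ℕ → ℂ),
    (∀ N : ℕ, 2 ≤ N → Tendsto (JD (A : ℤ) (-(A : ℤ)) N) (𝓝[≠] (v0 N)) (𝓝 (κ N))) ∧
    IsGreatest {W : ℝ | ∃ w, IsAngle A A w ∧ volw A A w = W} V ∧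
    0 < (φ 0).re ∧ (∀ k, (φ k * (2 * π * Complex.I) ^ k).im = 0) ∧
    ∀ M : ℕ, ∃ C : ℝ, ∀ᶠ N : ℕ in atTop,
      ‖κ N - (((N : ℝ) ^ (3 / 2 : ℝ) * Real.exp (V / (2 * π) * N) : ℝ) : ℂ) *
        ∑ k ∈ range M, φ k * (2 * π * Complex.I / N) ^ k‖ ≤
      C * ((N : ℝ) ^ (3 / 2 : ℝ) * Real.exp (V / (2 * π) * N) * ((N : ℝ)⁻¹) ^ M) := by
  have hp := Real.pi_pos
  obtain ⟨α, b, η, hC⟩ := Pool.Agent.W704.VC.Crit.crit ((A : ℝ) / 2) (by
    have : (4 : ℝ) ≤ A := by exact_mod_cast hA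
    linarith)
  obtain ⟨a, ha0, ha⟩ := Fin.expansion hA hC
  set V := pot ((A : ℝ) / 2) α b η with hV
  have hI : (2 * π * Complex.I : ℂ) ≠ 0 := by
    simp [hp.ne']
  refine ⟨fun N => ((kap A N : ℝ) : ℂ), V, fun k => (a k : ℂ) / (2 * π * Complex.I) ^ k,
    fun N hN => jd_limit s_gam A hN, s_greatest hA hC, ?_, ?_, ?_⟩
  · simpa using ha0
  · intro k
    simp only
    rw [div_mul_cancel₀ _ (pow_ne_zero k hI)]
    simp
  · intro M
    obtain ⟨C, hC'⟩ := ha M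
    refine ⟨C, ?_⟩
    filter_upwards [hC', eventually_gt_atTop 0] with N hN hN0
    have hNp : (0 : ℝ) < N := by exact_mod_cast hN0
    have hNc : (N : ℂ) ≠ 0 := by exact_mod_cast hN0.ne'
    have e1 : (N : ℝ) ^ (3 / 2 : ℝ) * Real.exp (V / (2 * π) * N) =
        N * Real.sqrt N * Real.exp ((N : ℝ) / (2 * π) * V) := by
      have : (3 / 2 : ℝ) = 1 + 1 / 2 := by norm_num
      rw [this, Real.rpow_add hNp, Real.rpow_one, ← Real.sqrt_eq_rpow]
      congr 2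
      ring
    set D : ℝ := N * Real.sqrt N * Real.exp ((N : ℝ) / (2 * π) * V) with hD
    have hD0 : 0 < D := by
      have : 0 < Real.sqrt N := Real.sqrt_pos.2 hNp
      positivity
    rw [e1]
    have e2 : ∑ k ∈ range M, (a k : ℂ) / (2 * π * Complex.I) ^ k * (2 * π * Complex.I / N) ^ k =
        ((∑ j ∈ range M, a j * ((N : ℝ)⁻¹) ^ j : ℝ) : ℂ) := by
      push_cast
      apply Finset.sum_congr rfl
      intro k _
      rw [div_pow, div_mul_div_comm, mul_comm ((2 * π * Complex.I : ℂ) ^ k), ← div_mul_div_comm,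
        div_self (pow_ne_zero k hI), mul_one, inv_pow, div_eq_mul_inv]
    have e3 : ∀ (x : ℕ → ℂ), (∑ k ∈ range M, (fun k => (a k : ℂ) / (2 * π * Complex.I) ^ k) k *
        (2 * π * Complex.I / N) ^ k) = ((∑ j ∈ range M, a j * ((N : ℝ)⁻¹) ^ j : ℝ) : ℂ) :=
      fun _ => e2
    rw [e3 (fun _ => 0), ← Complex.ofReal_mul, ← Complex.ofReal_sub, Complex.norm_real,
      Real.norm_eq_abs]
    have e4 : kap A N - D * ∑ j ∈ range M, a j * ((N : ℝ)⁻¹) ^ j =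
        D * (Fin.fNorm A V N - ∑ j ∈ range M, a j * ((N : ℝ)⁻¹) ^ j) := by
      unfold Fin.fNorm
      rw [← hD]
      field_simp
    rw [e4, abs_mul, abs_of_pos hD0]
    calc D * |Fin.fNorm A V N - ∑ j ∈ range M, a j * ((N : ℝ)⁻¹) ^ j| ≤
        D * (C * ((N : ℝ)⁻¹) ^ M) := mul_le_mul_of_nonneg_left hN hD0.le
      _ = _ := by ring

end Pool.Agent.W707.FE
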