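import Pool.Agent.W707.FE.AT4
import Pool.Agent.W358.FEWf
import Pool.Agent.W571.FE.GP
import Pool.Agent.W647.FE.GU
import Pool.Agent.W505.FE.MaxQ

/-! The quadratic form of the potential at the critical point; the leading coefficient is not
zero. -/

set_option autoImplicit false

namespace Pool.Agent.W707.FE.Q

open Filter MeasureTheory Metric Set Pool.Agent.W707.FE Pool.Agent.W707.FE.AT
open Pool.Agent.W571.FE Pool.Agent.W709.VC
open scoped Real Topology Nat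

/-- a bound for `W` near the critical point exists -/
lemma exists_Hyp {W : ℂ × ℂ × ℂ → ℂ} {p₀ : ℂ × ℂ × ℂ} {r c : ℝ} (hr : 0 < r) (hc : 0 < c)
    (hd : DifferentiableOn ℂ W (ball p₀ r)) (h0 : HasFDerivAt W (0 : ℂ × ℂ × ℂ →L[ℂ] ℂ) p₀)
    (hre : ∀ t : ℝ × ℝ × ℝ, ‖t‖ < r → (W (p₀ + io t)).re ≤ (W p₀).re - c * AT.sq t) :
    ∃ B, Hyp W p₀ (r / 2) B c := by
  obtain ⟨B, hB⟩ : ∃ B, ∀ q ∈ closedBall p₀ (r / 2), ‖W q - W p₀‖ ≤ B := by
    have hsub : closedBall p₀ (r / 2) ⊆ ball p₀ r := closedBall_subset_ball (by linarith)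
    exact (isCompact_closedBall p₀ (r / 2)).exists_bound_of_continuousOn
      ((hd.continuousOn.mono hsub).sub continuousOn_const)
  exact ⟨B,
    { hr := by linarith
      hB0 := le_trans (norm_nonneg _) (hB p₀ (mem_closedBall_self (by linarith)))
      hc := hc
      hd := hd.mono (ball_subset_ball (by linarith))
      hB := fun q hq => hB q (ball_subset_closedBall hq)
      h0 := h0
      hre := fun t ht => hre t (by linarith) }⟩

/-- the quadratic form is negative definite -/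
lemma quad_re {W : ℂ × ℂ × ℂ → ℂ} {p₀ : ℂ × ℂ × ℂ} {r c : ℝ} (hr : 0 < r) (hc : 0 < c)
    (hd : DifferentiableOn ℂ W (ball p₀ r)) (h0 : HasFDerivAt W (0 : ℂ × ℂ × ℂ →L[ℂ] ℂ) p₀)
    (hre : ∀ t : ℝ × ℝ × ℝ, ‖t‖ < r → (W (p₀ + io t)).re ≤ (W p₀).re - c * AT.sq t)
    (t : ℝ × ℝ × ℝ) :
    (iteratedDeriv 2 (fun z : ℂ => W (p₀ + z • io t)) 0).re ≤ -(2 * c) * AT.sq t := by
  obtain ⟨B, hW⟩ := exists_Hyp hr hc hd h0 hre
  rw [gt_zero_eq hW t]
  have h1 := gt_zero_re hW t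
  have e : (2 * gt W p₀ t 0).re = 2 * (gt W p₀ t 0).re := by
    simp
  rw [e]
  linarith

lemma hP {u v z : ℂ} (h : u + z * v ∈ Uf) :
    HasDerivAt (fun z => Pf (u + z * v)) (Gf (u + z * v) * v) z := by
  have h1 : HasDerivAt (fun z : ℂ => u + z * v) v z := by
    simpa using ((hasDerivAt_id z).mul_const v).const_add u
  exact (hasDerivAt_Pf h).comp z h1

lemma hG {u v z : ℂ} (h : u + z * v ∈ Uf) :
    HasDerivAt (fun z => Gf (u + z * v)) (Gd (u + z * v) * v) z := by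
  have h1 : HasDerivAt (fun z : ℂ => u + z * v) v z := by
    simpa using ((hasDerivAt_id z).mul_const v).const_add u
  exact (hasDerivAt_Gf h).comp z h1

lemma ev_mem {u : ℂ} (v : ℂ) (h : u ∈ Uf) : ∀ᶠ z : ℂ in 𝓝 0, u + z * v ∈ Uf := by
  have h1 : ContinuousAt (fun z : ℂ => u + z * v) 0 := by fun_prop
  apply h1.eventually_mem
  simpa using isOpen_Uf.mem_nhds h

lemma Gd_conj {z : ℂ} : Gd (-(starRingEnd ℂ) z) = -(starRingEnd ℂ) (Gd z) := by
  unfold Gd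
  simp only [map_add, map_neg, map_div₀, map_mul, Complex.conj_I, map_one, ← Complex.exp_conj,
    map_ofNat]
  have e : Complex.I * -(starRingEnd ℂ) z = -Complex.I * (starRingEnd ℂ) z := by ring
  rw [e]
  ring

/-- the second derivative along a line -/
lemma second (A : ℕ) {α₀ ψ₀ χ₀ : ℂ} (h1 : (π : ℂ) - α₀ ∈ Uf) (h2 : α₀ - π ∈ Uf)
    (h3 : ψ₀ + α₀ ∈ Uf) (h4 : ψ₀ - α₀ ∈ Uf) (h5 : χ₀ + α₀ ∈ Uf) (h6 : χ₀ - α₀ ∈ Uf) (s x y : ℂ) :
    iteratedDeriv 2 (fun z : ℂ => Wf A (α₀ + z * s, ψ₀ + z * x, χ₀ + z * y)) 0 =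
      2 * (s ^ 2 * Gd (π - α₀) - s ^ 2 * Gd (α₀ - π)) +
      (Complex.I * A * x ^ 2 + ((x + s) ^ 2 * Gd (ψ₀ + α₀) - (x - s) ^ 2 * Gd (ψ₀ - α₀))) +
      (-(Complex.I * A * y ^ 2) + ((y + s) ^ 2 * Gd (χ₀ + α₀) - (y - s) ^ 2 * Gd (χ₀ - α₀))) := by
  have e0 : (fun z : ℂ => Wf A (α₀ + z * s, ψ₀ + z * x, χ₀ + z * y)) = fun z =>
      2 * (Pf ((π - α₀) + z * (-s)) - Pf ((α₀ - π) + z * s)) +
      (Complex.I * A * (ψ₀ + z * x) ^ 2 / 2 + 2 * π * Complex.I * (ψ₀ + z * x) +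
        (Pf ((ψ₀ + α₀) + z * (x + s)) - Pf ((ψ₀ - α₀) + z * (x - s)))) +
      (-(Complex.I * A * (χ₀ + z * y) ^ 2 / 2) + 2 * π * Complex.I * (χ₀ + z * y) +
        (Pf ((χ₀ + α₀) + z * (y + s)) - Pf ((χ₀ - α₀) + z * (y - s)))) := by
    funext z
    unfold Wf
    simp only
    have a1 : (π : ℂ) - (α₀ + z * s) = (π - α₀) + z * (-s) := by ring
    have a2 : α₀ + z * s - π = (α₀ - π) + z * s := by ring
    have a3 : ψ₀ + z * x + (α₀ + z * s) = (ψ₀ + α₀) + z * (x + s) := by ring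
    have a4 : ψ₀ + z * x - (α₀ + z * s) = (ψ₀ - α₀) + z * (x - s) := by ring
    have a5 : χ₀ + z * y + (α₀ + z * s) = (χ₀ + α₀) + z * (y + s) := by ring
    have a6 : χ₀ + z * y - (α₀ + z * s) = (χ₀ - α₀) + z * (y - s) := by ring
    rw [a1, a2, a3, a4, a5, a6]
  rw [e0]
  have hlin : ∀ (u v z : ℂ), HasDerivAt (fun z : ℂ => u + z * v) v z := by
    intro u v z
    simpa using ((hasDerivAt_id z).mul_const v).const_add u
  have ev : deriv (fun z =>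
      2 * (Pf ((π - α₀) + z * (-s)) - Pf ((α₀ - π) + z * s)) +
      (Complex.I * A * (ψ₀ + z * x) ^ 2 / 2 + 2 * π * Complex.I * (ψ₀ + z * x) +
        (Pf ((ψ₀ + α₀) + z * (x + s)) - Pf ((ψ₀ - α₀) + z * (x - s)))) +
      (-(Complex.I * A * (χ₀ + z * y) ^ 2 / 2) + 2 * π * Complex.I * (χ₀ + z * y) +
        (Pf ((χ₀ + α₀) + z * (y + s)) - Pf ((χ₀ - α₀) + z * (y - s))))) =ᶠ[𝓝 0] fun z =>
      2 * (Gf ((π - α₀) + z * (-s)) * (-s) - Gf ((α₀ - π) + z * s) * s) +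
      (Complex.I * A * (ψ₀ + z * x) * x + 2 * π * Complex.I * x +
        (Gf ((ψ₀ + α₀) + z * (x + s)) * (x + s) - Gf ((ψ₀ - α₀) + z * (x - s)) * (x - s))) +
      (-(Complex.I * A * (χ₀ + z * y) * y) + 2 * π * Complex.I * y +
        (Gf ((χ₀ + α₀) + z * (y + s)) * (y + s) - Gf ((χ₀ - α₀) + z * (y - s)) * (y - s))) := by
    filter_upwards [ev_mem (-s) h1, ev_mem s h2, ev_mem (x + s) h3, ev_mem (x - s) h4,
      ev_mem (y + s) h5, ev_mem (y - s) h6] with z g1 g2 g3 g4 g5 g6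
    apply HasDerivAt.deriv
    have k1 := ((hP g1).sub (hP g2)).const_mul 2
    have k2 := (((hlin ψ₀ x z).pow 2).const_mul (Complex.I * A)).div_const 2
    have k3 := (hlin ψ₀ x z).const_mul (2 * π * Complex.I)
    have k4 := (hP g3).sub (hP g4)
    have k5 := ((((hlin χ₀ y z).pow 2).const_mul (Complex.I * A)).div_const 2).neg
    have k6 := (hlin χ₀ y z).const_mul (2 * π * Complex.I)
    have k7 := (hP g5).sub (hP g6)
    refine ((k1.add ((k2.add k3).add k4)).add ((k5.add k6).add k7)).congr_deriv ?_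
    push_cast
    ring
  rw [iteratedDeriv_succ', iteratedDeriv_one, ev.deriv_eq]
  apply HasDerivAt.deriv
  have m0 : ∀ u v : ℂ, u ∈ Uf → u + 0 * v ∈ Uf := by
    intro u v h
    simpa using h
  have k1 := (((hG (m0 _ (-s) h1)).mul_const (-s)).sub ((hG (m0 _ s h2)).mul_const s)).const_mul 2
  have k2 := (((hlin ψ₀ x 0).const_mul (Complex.I * A)).mul_const x).add_const (2 * π * Complex.I * x)
  have k4 := ((hG (m0 _ (x + s) h3)).mul_const (x + s)).sub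
    ((hG (m0 _ (x - s) h4)).mul_const (x - s))
  have k5 := ((((hlin χ₀ y 0).const_mul (Complex.I * A)).mul_const y).neg).add_const
    (2 * π * Complex.I * y)
  have k7 := ((hG (m0 _ (y + s) h5)).mul_const (y + s)).sub
    ((hG (m0 _ (y - s) h6)).mul_const (y - s))
  refine ((k1.add (k2.add k4)).add (k5.add k7)).congr_deriv ?_
  simp only [zero_mul, add_zero]
  ring

/-- the bound for the real part of `Wf` near the critical point -/
lemma Wf_re {A : ℕ} {α₀ b₀ η : ℝ} (hA : 4 ≤ A) (hC : Crit ((A : ℝ) / 2) α₀ b₀ η) :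
    ∃ r c : ℝ, 0 < r ∧ 0 < c ∧ r ≤ α₀ ∧ α₀ + r ≤ π ∧
      DifferentiableOn ℂ (Wf A)
        (Metric.ball ((α₀ : ℂ), -(b₀ : ℂ) + η * Complex.I, (b₀ : ℂ) + η * Complex.I) r) ∧
      (∀ (b₁ b₂ : ℕ → ℝ) (K : ℕ),
        DifferentiableOn ℂ (HK b₁ b₂ K)
          (Metric.ball (0, (α₀ : ℂ), -(b₀ : ℂ) + η * Complex.I, (b₀ : ℂ) + η * Complex.I) r) ∧
        ∃ B : ℝ, ∀ p ∈ Metric.ball ((0 : ℂ), (α₀ : ℂ), -(b₀ : ℂ) + η * Complex.I,
          (b₀ : ℂ) + η * Complex.I) r, ‖HK b₁ b₂ K p‖ ≤ B) ∧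
      HasFDerivAt (Wf A) (0 : ℂ × ℂ × ℂ →L[ℂ] ℂ)
        ((α₀ : ℂ), -(b₀ : ℂ) + η * Complex.I, (b₀ : ℂ) + η * Complex.I) ∧
      ∀ s x y : ℝ, |s| < r → |x| < r → |y| < r →
        (Wf A ((α₀ : ℂ) + s, -(b₀ : ℂ) + η * Complex.I + x, (b₀ : ℂ) + η * Complex.I + y)).re ≤
          pot ((A : ℝ) / 2) α₀ b₀ η - c * (s ^ 2 + x ^ 2 + y ^ 2) := by
  have hp := Real.pi_pos
  have hA' : (4 : ℝ) ≤ A := by exact_mod_cast hA
  have hm : 2 ≤ (A : ℝ) / 2 := by linarith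
  obtain ⟨⟨r, hr, hd, _, hHK⟩, h0, hsplit, hre, _⟩ :=
    Pool.Agent.W358.FE.wf Pool.Agent.W571.FE.gp A α₀ b₀ η hA hC
  obtain ⟨c, hc, hmax⟩ := Pool.Agent.W505.FE.maxq _ _ _ _ hm hC
  have hα := hC.hα
  have hb := hC.hb
  have hαb := hC.hαb
  have hb2 : b₀ < π / 2 := by
    have := hC.hbm
    nlinarith
  set r' : ℝ := min r (min α₀ (min b₀ (min (π / 2 - b₀) ((π - α₀ - b₀) / 2)))) with hr'
  have g1 : r' ≤ r := min_le_left _ _
  have g2 : r' ≤ α₀ := le_trans (min_le_right _ _) (min_le_left _ _)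
  have g3 : r' ≤ b₀ := le_trans (min_le_right _ _) (le_trans (min_le_right _ _) (min_le_left _ _))
  have g4 : r' ≤ π / 2 - b₀ := le_trans (min_le_right _ _) (le_trans (min_le_right _ _)
    (le_trans (min_le_right _ _) (min_le_left _ _)))
  have g5 : r' ≤ (π - α₀ - b₀) / 2 := le_trans (min_le_right _ _) (le_trans (min_le_right _ _)
    (le_trans (min_le_right _ _) (min_le_right _ _)))
  have hr'0 : 0 < r' := lt_min hr (lt_min hα (lt_min hb (lt_min (by linarith) (by linarith))))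
  refine ⟨r', c / 2, hr'0, by linarith, g2, by linarith, hd.mono (ball_subset_ball g1), ?_, h0, ?_⟩
  · intro b₁ b₂ K
    obtain ⟨k1, B, k2⟩ := hHK b₁ b₂ K
    exact ⟨k1.mono (ball_subset_ball g1), B, fun p hp => k2 p (ball_subset_ball g1 hp)⟩
  · intro s x y hs hx hy
    rw [abs_lt] at hs hx hy
    have e : ((α₀ : ℂ) + s, -(b₀ : ℂ) + η * Complex.I + x, (b₀ : ℂ) + η * Complex.I + y) =
        (((α₀ + s : ℝ) : ℂ), -((b₀ - x : ℝ) : ℂ) + η * Complex.I,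
          ((b₀ + y : ℝ) : ℂ) + η * Complex.I) := by
      push_cast
      refine Prod.ext (by ring) (Prod.ext (by ring) (by ring))
    rw [e, hsplit (α₀ + s) (b₀ - x) (b₀ + y) (by linarith) (by linarith), Complex.add_re,
      Complex.conj_re, hre (α₀ + s) (b₀ - x) (by linarith) (by linarith),
      hre (α₀ + s) (b₀ + y) (by linarith) (by linarith)]
    have m1 := hmax (α₀ + s) (b₀ - x) (by linarith) (by linarith) (by linarith) (by linarith)
    have m2 := hmax (α₀ + s) (b₀ + y) (by linarith) (by linarith) (by linarith) (by linarith)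
    have e1 : (α₀ + s - α₀) ^ 2 + (b₀ - x - b₀) ^ 2 = s ^ 2 + x ^ 2 := by ring
    have e2 : (α₀ + s - α₀) ^ 2 + (b₀ + y - b₀) ^ 2 = s ^ 2 + y ^ 2 := by ring
    rw [e1] at m1
    rw [e2] at m2
    nlinarith [sq_nonneg s]

/-- the Gaussian integral at the critical point is not zero -/
theorem int_ne {A : ℕ} {α₀ b₀ η : ℝ} (hA : 4 ≤ A) (hC : Crit ((A : ℝ) / 2) α₀ b₀ η) :
    (∫ t : ℝ × ℝ × ℝ, Complex.exp (iteratedDeriv 2 (fun z : ℂ =>
      Wf A ((α₀ : ℂ) + z * t.1, -(b₀ : ℂ) + η * Complex.I + z * t.2.1,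
        (b₀ : ℂ) + η * Complex.I + z * t.2.2)) 0 / (4 * π))) ≠ 0 := by
  have hp := Real.pi_pos
  have hpc : (π : ℂ) ≠ 0 := by exact_mod_cast hp.ne'
  obtain ⟨r, c, hr, hc, hrα, hrπ, hd, _, h0, hre⟩ := Wf_re hA hC
  have hη := hC.hη
  have hα := hC.hα
  have hαπ : α₀ < π := by linarith [hC.hαb, hC.hb]
  set ψ₀ : ℂ := -(b₀ : ℂ) + η * Complex.I with hψ
  set χ₀ : ℂ := (b₀ : ℂ) + η * Complex.I with hχ
  have m1 : (π : ℂ) - α₀ ∈ Uf := by
    right
    have : ((π : ℂ) - α₀).re = π - α₀ := by simp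
    rw [this, abs_of_pos (by linarith)]
    linarith
  have m2 : (α₀ : ℂ) - π ∈ Uf := by
    right
    have : ((α₀ : ℂ) - π).re = α₀ - π := by simp
    rw [this, abs_of_neg (by linarith)]
    linarith
  have m3 : ψ₀ + α₀ ∈ Uf := by left; simp [hψ, hη]
  have m4 : ψ₀ - α₀ ∈ Uf := by left; simp [hψ, hη]
  have m5 : χ₀ + α₀ ∈ Uf := by left; simp [hχ, hη]
  have m6 : χ₀ - α₀ ∈ Uf := by left; simp [hχ, hη]
  -- conjugation
  have q1 : Gd (χ₀ + α₀) = -(starRingEnd ℂ) (Gd (ψ₀ - α₀)) := by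
    rw [← Gd_conj]
    congr 1
    simp only [hψ, hχ, map_sub, map_add, map_neg, map_mul, Complex.conj_ofReal, Complex.conj_I]
    ring
  have q2 : Gd (χ₀ - α₀) = -(starRingEnd ℂ) (Gd (ψ₀ + α₀)) := by
    rw [← Gd_conj]
    congr 1
    simp only [hψ, hχ, map_add, map_neg, map_mul, Complex.conj_ofReal, Complex.conj_I]
    ring
  have q3 : Gd ((α₀ : ℂ) - π) = -(starRingEnd ℂ) (Gd (π - α₀)) := by
    rw [← Gd_conj]
    congr 1
    simp only [map_sub, Complex.conj_ofReal]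
    ring
  set g : ℂ := Gd ((π : ℂ) - α₀) with hg
  set Gp : ℂ := Gd (ψ₀ + α₀) with hGp
  set Gm : ℂ := Gd (ψ₀ - α₀) with hGm
  set a : ℂ := (g + (starRingEnd ℂ) g + Gp - Gm) / (4 * π) with ha
  set b : ℂ := 2 * (Gp + Gm) / (4 * π) with hb
  set c' : ℂ := (Complex.I * A + Gp - Gm) / (4 * π) with hc'
  have hform : ∀ s x y : ℝ, iteratedDeriv 2 (fun z : ℂ =>
      Wf A ((α₀ : ℂ) + z * s, ψ₀ + z * x, χ₀ + z * y)) 0 / (4 * π) =
      (a * s ^ 2 + b * s * x + c' * x ^ 2) +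
        (starRingEnd ℂ) (a * s ^ 2 - b * s * y + c' * y ^ 2) := by
    intro s x y
    rw [second A m1 m2 m3 m4 m5 m6, q1, q2, q3]
    rw [← hg, ← hGp, ← hGm, ha, hb, hc']
    simp only [map_sub, map_add, map_mul, map_div₀, map_pow, Complex.conj_ofReal, Complex.conj_I,
      Complex.conj_conj, map_ofNat, map_natCast]
    field_simp
    ring
  have hneg : ∀ s x : ℝ, (a * s ^ 2 + b * s * x + c' * x ^ 2).re ≤
      -(c / (4 * π)) * (s ^ 2 + x ^ 2) := by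
    intro s x
    have h1 := quad_re (W := Wf A) (p₀ := ((α₀ : ℂ), ψ₀, χ₀)) hr hc hd h0
      (by
        intro t ht
        have h1 : |t.1| ≤ ‖t‖ := norm_fst_le t
        have h2 : ‖t.2‖ ≤ ‖t‖ := norm_snd_le t
        have h3 : |t.2.1| ≤ ‖t.2‖ := norm_fst_le t.2
        have h4 : |t.2.2| ≤ ‖t.2‖ := norm_snd_le t.2
        have h5 := hre t.1 t.2.1 t.2.2 (by linarith) (by linarith) (by linarith)
        have h6 : (Wf A ((α₀ : ℂ), ψ₀, χ₀)).re = pot ((A : ℝ) / 2) α₀ b₀ η := by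
          have := (Pool.Agent.W358.FE.wf Pool.Agent.W571.FE.gp A α₀ b₀ η hA hC).2.2.2.2
          rw [this, Complex.ofReal_re]
        rw [h6]
        exact h5)
      (s, x, -x)
    have h2 : (fun z : ℂ => Wf A (((α₀ : ℂ), ψ₀, χ₀) + z • io (s, x, -x))) = fun z : ℂ =>
        Wf A ((α₀ : ℂ) + z * s, ψ₀ + z * x, χ₀ + z * ((-x : ℝ) : ℂ)) := by
      funext z
      rfl
    rw [h2] at h1
    have h3 := hform s x (-x)
    have h4 : iteratedDeriv 2 (fun z : ℂ =>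
        Wf A ((α₀ : ℂ) + z * s, ψ₀ + z * x, χ₀ + z * ((-x : ℝ) : ℂ))) 0 =
        ((4 * π : ℝ) : ℂ) * ((a * s ^ 2 + b * s * x + c' * x ^ 2) +
        (starRingEnd ℂ) (a * s ^ 2 + b * s * x + c' * x ^ 2)) := by
      rw [div_eq_iff (by simp)] at h3
      rw [h3]
      push_cast
      ring_nf
    rw [h4, Complex.re_ofReal_mul, Complex.add_re, Complex.conj_re] at h1
    have h5 : AT.sq (s, x, -x) = s ^ 2 + 2 * x ^ 2 := by
      simp only [AT.sq]
      ring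
    rw [h5] at h1
    have h6 : (4 * π) * (2 * (a * s ^ 2 + b * s * x + c' * x ^ 2).re) ≤
        (4 * π) * (2 * (-(c / (4 * π)) * (s ^ 2 + x ^ 2))) := by
      have e : (4 * π) * (2 * (-(c / (4 * π)) * (s ^ 2 + x ^ 2))) =
          -(2 * c) * (s ^ 2 + x ^ 2) := by
        field_simp
      rw [e]
      nlinarith [sq_nonneg x, sq_nonneg s, mul_nonneg hc.le (sq_nonneg x)]
    have h7 := le_of_mul_le_mul_left h6 (by positivity)
    linarith
  have hfin := Pool.Agent.W647.FE.gauss a b c' (c / (4 * π)) (by positivity) hneg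
  simp only [hform]
  exact hfin

end Pool.Agent.W707.FE.Q
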